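import Mathlib

/-!
# Translation invariant Boolean algebras of syndetic sets of integers
-/

set_option autoImplicit false

namespace Run7.h909.TF

/-- a translation invariant Boolean algebra of subsets of `ℤ` all of whose nonempty members have
bounded gaps -/
structure BA (A : Set (Set ℤ)) : Prop where
  univ : Set.univ ∈ A
  compl : ∀ U ∈ A, Uᶜ ∈ A
  inter : ∀ U ∈ A, ∀ V ∈ A, U ∩ V ∈ A
  shift : ∀ U ∈ A, ∀ k : ℤ, {n : ℤ | n + k ∈ U} ∈ A
  synd : ∀ U ∈ A, U.Nonempty → ∃ r : ℕ, ∀ n : ℤ, ∃ m ∈ U, n ≤ m ∧ m ≤ n + r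

variable {A : Set (Set ℤ)}

theorem BA.empty (h : BA A) : (∅ : Set ℤ) ∈ A := by
  have := h.compl _ h.univ
  rwa [Set.compl_univ] at this

theorem BA.union (h : BA A) {U V : Set ℤ} (hU : U ∈ A) (hV : V ∈ A) : U ∪ V ∈ A := by
  have := h.compl _ (h.inter _ (h.compl _ hU) _ (h.compl _ hV))
  rwa [← Set.compl_union, compl_compl] at this

theorem BA.biUnion (h : BA A) {ι : Type*} (s : Set ι) (hs : s.Finite) (F : ι → Set ℤ)
    (hF : ∀ i ∈ s, F i ∈ A) : (⋃ i ∈ s, F i) ∈ A := by
  induction s, hs using Set.Finite.induction_on with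
  | empty => simpa using h.empty
  | @insert a s _ _ ih =>
    rw [Set.biUnion_insert]
    exact h.union (hF a (Set.mem_insert _ _)) (ih fun i hi => hF i (Set.mem_insert_of_mem _ hi))

theorem BA.biInter (h : BA A) {ι : Type*} (s : Set ι) (hs : s.Finite) (F : ι → Set ℤ)
    (hF : ∀ i ∈ s, F i ∈ A) : (⋂ i ∈ s, F i) ∈ A := by
  induction s, hs using Set.Finite.induction_on with
  | empty => simpa using h.univ
  | @insert a s _ _ ih =>
    rw [Set.biInter_insert]
    exact h.inter _ (hF a (Set.mem_insert _ _)) _ (ih fun i hi => hF i (Set.mem_insert_of_mem _ hi))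

/-- functions on `ℤ` with finitely many values and level sets in `A` -/
def Sim (A : Set (Set ℤ)) {β : Type} (f : ℤ → β) : Prop :=
  (Set.range f).Finite ∧ ∀ b, f ⁻¹' {b} ∈ A

theorem Sim.pre (h : BA A) {β : Type} {f : ℤ → β} (hf : Sim A f) (S : Set β) : f ⁻¹' S ∈ A := by
  have h1 : f ⁻¹' S = ⋃ b ∈ (Set.range f ∩ S), f ⁻¹' {b} := by
    ext n
    simp
  rw [h1]
  exact h.biUnion _ (hf.1.inter_of_left _) _ fun b _ => hf.2 b

theorem Sim.comp (h : BA A) {β γ : Type} {f : ℤ → β} (hf : Sim A f) (F : β → γ) :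
    Sim A (fun n => F (f n)) := by
  refine ⟨?_, fun c => hf.pre h (F ⁻¹' {c})⟩
  have : Set.range (fun n => F (f n)) = F '' Set.range f := by
    rw [← Set.range_comp]; rfl
  rw [this]
  exact hf.1.image _

theorem Sim.const (h : BA A) {β : Type} (b : β) : Sim A (fun _ : ℤ => b) := by
  classical
  refine ⟨(Set.finite_singleton b).subset (by rintro _ ⟨n, rfl⟩; rfl), fun c => ?_⟩
  by_cases hc : b = c
  · have : (fun _ : ℤ => b) ⁻¹' {c} = Set.univ := by ext; simp [hc]
    rw [this]; exact h.univ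
  · have : (fun _ : ℤ => b) ⁻¹' {c} = ∅ := by ext; simp [hc]
    rw [this]; exact h.empty

theorem Sim.pair (h : BA A) {β γ : Type} {f : ℤ → β} {g : ℤ → γ} (hf : Sim A f) (hg : Sim A g) :
    Sim A (fun n => (f n, g n)) := by
  refine ⟨(hf.1.prod hg.1).subset ?_, fun c => ?_⟩
  · rintro _ ⟨n, rfl⟩
    exact ⟨⟨n, rfl⟩, ⟨n, rfl⟩⟩
  · have : (fun n => (f n, g n)) ⁻¹' {c} = f ⁻¹' {c.1} ∩ g ⁻¹' {c.2} := by
      ext n
      simp [Prod.ext_iff]
    rw [this]
    exact h.inter _ (hf.2 _) _ (hg.2 _)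

theorem Sim.pi (h : BA A) {ι : Type} [Finite ι] {β : ι → Type} {f : ∀ i, ℤ → β i}
    (hf : ∀ i, Sim A (f i)) : Sim A (fun n i => f i n) := by
  refine ⟨(Set.Finite.pi' fun i => (hf i).1).subset ?_, fun c => ?_⟩
  · rintro _ ⟨n, rfl⟩ i
    exact ⟨n, rfl⟩
  · have : (fun n i => f i n) ⁻¹' {c} = ⋂ i ∈ (Set.univ : Set ι), f i ⁻¹' {c i} := by
      ext n
      simp [funext_iff]
    rw [this]
    exact h.biInter _ Set.finite_univ _ fun i _ => (hf i).2 _

theorem Sim.shift (h : BA A) {β : Type} {f : ℤ → β} (hf : Sim A f) (k : ℤ) :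
    Sim A (fun n => f (n + k)) := by
  refine ⟨hf.1.subset ?_, fun c => h.shift _ (hf.2 c) k⟩
  rintro _ ⟨n, rfl⟩
  exact ⟨n + k, rfl⟩

theorem Sim.dshift (h : BA A) {β : Type} {f : ℤ → β} (hf : Sim A f) {d : ℤ → ℤ} (hd : Sim A d) :
    Sim A (fun n => f (n + d n)) := by
  refine ⟨hf.1.subset ?_, fun c => ?_⟩
  · rintro _ ⟨n, rfl⟩
    exact ⟨n + d n, rfl⟩
  · have : (fun n => f (n + d n)) ⁻¹' {c} =
        ⋃ k ∈ Set.range d, (d ⁻¹' {k} ∩ {n | n + k ∈ f ⁻¹' {c}}) := by
      ext n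
      simp only [Set.mem_preimage, Set.mem_singleton_iff, Set.mem_iUnion, Set.mem_inter_iff,
        Set.mem_ofPred_eq, exists_prop]
      constructor
      · intro hn
        exact ⟨d n, ⟨n, rfl⟩, rfl, hn⟩
      · rintro ⟨k, _, hk, hn⟩
        rw [hk]
        exact hn
    rw [this]
    exact h.biUnion _ hd.1 _ fun k _ => h.inter _ (hd.2 _) _ (h.shift _ (hf.2 c) k)

/-- a function which is determined by a simple one is simple -/
theorem Sim.factor (h : BA A) {β γ : Type} {f : ℤ → β} (hf : Sim A f) {g : ℤ → γ}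
    (hg : ∀ n m, f n = f m → g n = g m) : Sim A g := by
  classical
  have h1 : g = fun n => (fun b => if hb : ∃ m, f m = b then g hb.choose else g 0) (f n) := by
    funext n
    have hb : ∃ m, f m = f n := ⟨n, rfl⟩
    show g n = if hb : ∃ m, f m = f n then g hb.choose else g 0
    rw [dif_pos hb]
    exact (hg _ _ hb.choose_spec).symm
  rw [h1]
  exact Sim.comp h hf (fun b => if hb : ∃ m, f m = b then g hb.choose else g 0)

theorem sim_mem (h : BA A) {U : Set ℤ} : Sim A (fun n => (n ∈ U : Prop)) ↔ U ∈ A := by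
  constructor
  · intro hU
    have := hU.2 True
    have h1 : (fun n => (n ∈ U : Prop)) ⁻¹' {True} = U := by
      ext n
      simp
    rwa [h1] at this
  · intro hU
    refine ⟨Set.toFinite _, fun b => ?_⟩
    by_cases hb : b
    · have h1 : (fun n => (n ∈ U : Prop)) ⁻¹' {b} = U := by
        ext n
        simp [hb]
      rwa [h1]
    · have h1 : (fun n => (n ∈ U : Prop)) ⁻¹' {b} = Uᶜ := by
        ext n
        simp [hb]
      rw [h1]
      exact h.compl _ hU

/-- windows -/
theorem Sim.window (h : BA A) {β : Type} {f : ℤ → β} (hf : Sim A f) {ι : Type} [Finite ι]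
    (e : ι → ℤ) : Sim A (fun n i => f (n + e i)) :=
  Sim.pi h fun i => hf.shift h (e i)

/-- the group of piecewise translations of `ℤ` with pieces in `A` -/
def PT (h : BA A) : Subgroup (Equiv.Perm ℤ) where
  carrier := {g | Sim A (fun n => g n - n)}
  one_mem' := by
    show Sim A (fun n : ℤ => (1 : Equiv.Perm ℤ) n - n)
    simpa using Sim.const h (0 : ℤ)
  mul_mem' := by
    intro g k hg hk
    show Sim A (fun n => (g * k) n - n)
    have h1 : (fun n => (g * k) n - n) = fun n => (g (n + (k n - n)) - (n + (k n - n))) + (k n - n) := by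
      funext n
      have : n + (k n - n) = k n := by ring
      rw [this]
      show g (k n) - n = _
      ring
    rw [h1]
    have h2 := (Sim.dshift h hg hk).pair h hk
    exact h2.comp h (fun p => p.1 + p.2)
  inv_mem' := by
    intro g hg
    show Sim A (fun n => g⁻¹ n - n)
    constructor
    · refine (hg.1.image (fun x => -x)).subset ?_
      rintro _ ⟨n, rfl⟩
      refine ⟨g (g⁻¹ n) - g⁻¹ n, ⟨g⁻¹ n, rfl⟩, ?_⟩
      simp
    · intro b
      have h1 : (fun n => g⁻¹ n - n) ⁻¹' {b} = {n | n + b ∈ (fun n => g n - n) ⁻¹' {-b}} := by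
        ext n
        show g⁻¹ n - n = b ↔ g (n + b) - (n + b) = -b
        constructor
        · intro hn
          have h2 : n + b = g⁻¹ n := by omega
          have h4 : g (g⁻¹ n) = n := g.apply_symm_apply n
          rw [h2, h4]
          omega
        · intro hn
          have h3 : g (n + b) = n := by omega
          have h2 : g⁻¹ n = n + b := by
            rw [Equiv.Perm.inv_eq_iff_eq]
            exact h3.symm
          rw [h2]
          omega
      rw [h1]
      exact h.shift _ (hg.2 _) b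

theorem mem_PT (h : BA A) {g : Equiv.Perm ℤ} : g ∈ PT h ↔ Sim A (fun n => g n - n) := Iff.rfl

theorem PT_sim (h : BA A) {g : Equiv.Perm ℤ} (hg : g ∈ PT h) {β : Type} {f : ℤ → β}
    (hf : Sim A f) : Sim A (fun n => f (g n)) := by
  have h1 := hf.dshift h hg
  have h2 : (fun n => f (n + (g n - n))) = fun n => f (g n) := by
    funext n
    congr 1
    ring
  rwa [h2] at h1

theorem PT_image (h : BA A) {g : Equiv.Perm ℤ} (hg : g ∈ PT h) {U : Set ℤ} (hU : U ∈ A) :
    g '' U ∈ A := by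
  have h1 := PT_sim h ((PT h).inv_mem hg) ((sim_mem h).2 hU)
  have h1 := (sim_mem h (U := {n | g⁻¹ n ∈ U})).1 h1
  have h2 : g '' U = {n | g⁻¹ n ∈ U} := by
    ext n
    simp only [Set.mem_image, Set.mem_ofPred_eq]
    constructor
    · rintro ⟨m, hm, rfl⟩
      simpa using hm
    · intro hn
      exact ⟨g⁻¹ n, hn, by simp⟩
  rwa [h2]

/-- elements have bounded displacement -/
theorem PT_bdd (h : BA A) {g : Equiv.Perm ℤ} (hg : g ∈ PT h) :
    ∃ r : ℤ, 0 ≤ r ∧ ∀ n, g n ≤ n + r ∧ n ≤ g n + r := by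
  obtain ⟨a, ha⟩ := hg.1.bddAbove
  obtain ⟨b, hb⟩ := hg.1.bddBelow
  refine ⟨max 0 (max a (-b)), le_max_left _ _, fun n => ?_⟩
  have h1 : g n - n ≤ a := ha ⟨n, rfl⟩
  have h2 : b ≤ g n - n := hb ⟨n, rfl⟩
  have h3 : a ≤ max 0 (max a (-b)) := (le_max_left _ _).trans (le_max_right _ _)
  have h4 : -b ≤ max 0 (max a (-b)) := (le_max_right _ _).trans (le_max_right _ _)
  constructor <;> omega

end Run7.h909.TF
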