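import Pool.Agent.Run7.h909.TF.Alg

/-!
# Successor permutations, blocks and transversals
-/

set_option autoImplicit false

namespace Run7.h909.TF

variable {A : Set (Set ℤ)}

/-- `s` moves every element of `V` to the next one and fixes all other integers -/
def IsSucc (V : Set ℤ) (s : Equiv.Perm ℤ) : Prop :=
  ∀ n, (n ∉ V → s n = n) ∧ (n ∈ V → s n ∈ V ∧ n < s n ∧ ∀ m ∈ V, n < m → s n ≤ m)

/-- unbounded in both directions -/
def Unb (V : Set ℤ) : Prop := ∀ n : ℤ, (∃ v ∈ V, n < v) ∧ (∃ v ∈ V, v < n)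

theorem exists_next {V : Set ℤ} {n : ℤ} (hV : ∃ v ∈ V, n < v) :
    ∃ s ∈ V, n < s ∧ ∀ m ∈ V, n < m → s ≤ m := by
  obtain ⟨v, hv, hnv⟩ := hV
  obtain ⟨s, ⟨h1, h2⟩, h3⟩ := Int.exists_least_of_bdd (P := fun z => z ∈ V ∧ n < z)
    ⟨n, fun z hz => hz.2.le⟩ ⟨v, hv, hnv⟩
  exact ⟨s, h1, h2, fun m hm hnm => h3 m ⟨hm, hnm⟩⟩

theorem exists_prev {V : Set ℤ} {n : ℤ} (hV : ∃ v ∈ V, v < n) :
    ∃ s ∈ V, s < n ∧ ∀ m ∈ V, m < n → m ≤ s := by
  obtain ⟨v, hv, hnv⟩ := hV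
  obtain ⟨s, ⟨h1, h2⟩, h3⟩ := Int.exists_greatest_of_bdd (P := fun z => z ∈ V ∧ z < n)
    ⟨n, fun z hz => hz.2.le⟩ ⟨v, hv, hnv⟩
  exact ⟨s, h1, h2, fun m hm hnm => h3 m ⟨hm, hnm⟩⟩

theorem exists_isSucc {V : Set ℤ} (hV : Unb V) : ∃ s, IsSucc V s := by
  classical
  have h1 : ∀ n, ∃ s ∈ V, n < s ∧ ∀ m ∈ V, n < m → s ≤ m := fun n => exists_next (hV n).1
  have h2 : ∀ n, ∃ s ∈ V, s < n ∧ ∀ m ∈ V, m < n → m ≤ s := fun n => exists_prev (hV n).2
  choose nx hnx1 hnx2 hnx3 using h1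
  choose pv hpv1 hpv2 hpv3 using h2
  have e1 : ∀ n ∈ V, pv (nx n) = n := by
    intro n hn
    apply le_antisymm
    · by_contra hc
      have := hnx3 n _ (hpv1 (nx n)) (not_le.1 hc)
      exact absurd (hpv2 (nx n)) (not_lt.2 this)
    · exact hpv3 _ n hn (hnx2 n)
  have e2 : ∀ n ∈ V, nx (pv n) = n := by
    intro n hn
    apply le_antisymm
    · exact hnx3 _ n hn (hpv2 n)
    · by_contra hc
      have := hpv3 n _ (hnx1 (pv n)) (not_le.1 hc)
      exact absurd (hnx2 (pv n)) (not_lt.2 this)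
  refine ⟨{ toFun := fun n => if n ∈ V then nx n else n
            invFun := fun n => if n ∈ V then pv n else n
            left_inv := ?_
            right_inv := ?_ }, ?_⟩
  · intro n
    by_cases hn : n ∈ V
    · simp [hn, hnx1, e1]
    · simp [hn]
  · intro n
    by_cases hn : n ∈ V
    · simp [hn, hpv1, e2]
    · simp [hn]
  · intro n
    refine ⟨fun hn => ?_, fun hn => ?_⟩
    · show (if n ∈ V then nx n else n) = n
      rw [if_neg hn]
    · show (if n ∈ V then nx n else n) ∈ V ∧ n < (if n ∈ V then nx n else n) ∧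
        ∀ m ∈ V, n < m → (if n ∈ V then nx n else n) ≤ m
      rw [if_pos hn]
      exact ⟨hnx1 n, hnx2 n, hnx3 n⟩

theorem IsSucc.unique {V : Set ℤ} {s t : Equiv.Perm ℤ} (hs : IsSucc V s) (ht : IsSucc V t) :
    s = t := by
  ext n
  by_cases hn : n ∈ V
  · obtain ⟨a1, a2, a3⟩ := (hs n).2 hn
    obtain ⟨b1, b2, b3⟩ := (ht n).2 hn
    exact le_antisymm (a3 _ b1 b2) (b3 _ a1 a2)
  · rw [(hs n).1 hn, (ht n).1 hn]

open Classical in
/-- the successor permutation of `V` -/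
noncomputable def sc (V : Set ℤ) : Equiv.Perm ℤ :=
  if h : ∃ s, IsSucc V s then h.choose else 1

theorem sc_spec {V : Set ℤ} (hV : Unb V) : IsSucc V (sc V) := by
  have h := exists_isSucc hV
  rw [sc, dif_pos h]
  exact h.choose_spec

theorem IsSucc.sc_eq {V : Set ℤ} {s : Equiv.Perm ℤ} (hs : IsSucc V s) : sc V = s := by
  have h : ∃ s, IsSucc V s := ⟨s, hs⟩
  rw [sc, dif_pos h]
  exact h.choose_spec.unique hs

theorem IsSucc.inv_not_mem {V : Set ℤ} {s : Equiv.Perm ℤ} (hs : IsSucc V s) {n : ℤ}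
    (hn : n ∉ V) : s⁻¹ n = n := by
  rw [Equiv.Perm.inv_eq_iff_eq]
  exact ((hs n).1 hn).symm

theorem IsSucc.mem_iff {V : Set ℤ} {s : Equiv.Perm ℤ} (hs : IsSucc V s) {n : ℤ} :
    s n ∈ V ↔ n ∈ V := by
  constructor
  · intro h
    by_contra hn
    rw [(hs n).1 hn] at h
    exact hn h
  · intro h
    exact ((hs n).2 h).1

theorem IsSucc.inv_mem {V : Set ℤ} {s : Equiv.Perm ℤ} (hs : IsSucc V s) {n : ℤ}
    (hn : n ∈ V) : s⁻¹ n ∈ V ∧ s⁻¹ n < n ∧ ∀ m ∈ V, m < n → m ≤ s⁻¹ n := by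
  have h0 : s (s⁻¹ n) = n := s.apply_symm_apply n
  have h1 : s⁻¹ n ∈ V := by
    rw [← hs.mem_iff, h0]
    exact hn
  obtain ⟨a1, a2, a3⟩ := (hs _).2 h1
  rw [h0] at a1 a2 a3
  refine ⟨h1, a2, fun m hm hmn => ?_⟩
  by_contra hc
  exact absurd (a3 m hm (not_le.1 hc)) (not_le.2 hmn)

theorem IsSucc.comm {V W : Set ℤ} {s t : Equiv.Perm ℤ} (hs : IsSucc V s) (ht : IsSucc W t)
    (hVW : Disjoint V W) : s * t = t * s := by
  ext n
  show s (t n) = t (s n)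
  by_cases hn : n ∈ V
  · have hn' : n ∉ W := Set.disjoint_left.1 hVW hn
    have h1 : s n ∉ W := Set.disjoint_left.1 hVW (hs.mem_iff.2 hn)
    rw [(ht n).1 hn', (ht _).1 h1]
  · by_cases hn' : n ∈ W
    · have h1 : t n ∉ V := Set.disjoint_right.1 hVW (ht.mem_iff.2 hn')
      rw [(hs _).1 h1, (hs _).1 hn]
    · rw [(hs _).1 hn, (ht _).1 hn', (hs _).1 hn]

theorem IsSucc.conj {V : Set ℤ} {s p : Equiv.Perm ℤ} (hs : IsSucc V s)
    (hp : ∀ v ∈ V, ∀ w ∈ V, v < w → p v < p w) : IsSucc (p '' V) (p * s * p⁻¹) := by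
  intro n
  constructor
  · intro hn
    show p (s (p⁻¹ n)) = n
    have h1 : p⁻¹ n ∉ V := by
      intro h
      exact hn ⟨_, h, p.apply_symm_apply n⟩
    rw [(hs _).1 h1]
    exact p.apply_symm_apply n
  · rintro ⟨v, hv, rfl⟩
    have h0 : (p * s * p⁻¹) (p v) = p (s v) := by
      show p (s (p⁻¹ (p v))) = p (s v)
      rw [show p⁻¹ (p v) = v from p.symm_apply_apply v]
    rw [h0]
    obtain ⟨a1, a2, a3⟩ := (hs _).2 hv
    refine ⟨⟨_, a1, rfl⟩, hp _ hv _ a1 a2, ?_⟩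
    rintro _ ⟨w, hw, rfl⟩ hvw
    have h2 : v < w := by
      by_contra hc
      rcases (not_lt.1 hc).lt_or_eq with h3 | h3
      · exact absurd (hp _ hw _ hv h3) (not_lt.2 hvw.le)
      · rw [h3] at hvw
        exact lt_irrefl _ hvw
    rcases (a3 w hw h2).lt_or_eq with h3 | h3
    · exact (hp _ a1 _ hw h3).le
    · rw [h3]

/-! ### blocks -/

/-- `n` and `m` are in the same block of the partition of `ℤ` with the division points `U` -/
def SB (U : Set ℤ) (n m : ℤ) : Prop := ∀ u ∈ U, u ≤ n ↔ u ≤ m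

theorem SB.refl {U : Set ℤ} (n : ℤ) : SB U n n := fun _ _ => Iff.rfl

theorem SB.symm {U : Set ℤ} {n m : ℤ} (h : SB U n m) : SB U m n := fun u hu => (h u hu).symm

theorem SB.trans {U : Set ℤ} {n m k : ℤ} (h : SB U n m) (h' : SB U m k) : SB U n k :=
  fun u hu => (h u hu).trans (h' u hu)

theorem SB.mono {U U' : Set ℤ} (hU : U' ⊆ U) {n m : ℤ} (h : SB U n m) : SB U' n m :=
  fun u hu => h u (hU hu)

theorem not_SB {U : Set ℤ} {n m : ℤ} (hnm : n ≤ m) : ¬ SB U n m ↔ ∃ u ∈ U, n < u ∧ u ≤ m := by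
  constructor
  · intro h
    by_contra hc
    apply h
    intro u hu
    constructor
    · intro h1
      exact h1.trans hnm
    · intro h1
      by_contra h2
      exact hc ⟨u, hu, not_le.1 h2, h1⟩
  · rintro ⟨u, hu, h1, h2⟩ h
    exact absurd ((h u hu).2 h2) (not_le.2 h1)

theorem SB.convex {U : Set ℤ} {n m k : ℤ} (h : SB U n k) (h1 : n ≤ m) (h2 : m ≤ k) : SB U n m := by
  intro u hu
  constructor
  · intro h3
    exact h3.trans h1
  · intro h3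
    exact (h u hu).2 (h3.trans h2)

/-- the permutations with pieces in `A` which preserve the blocks of `U` -/
def PU (h : BA A) (U : Set ℤ) : Subgroup (Equiv.Perm ℤ) where
  carrier := {p | p ∈ PT h ∧ ∀ n, SB U (p n) n}
  one_mem' := ⟨(PT h).one_mem, fun n => SB.refl n⟩
  mul_mem' := by
    intro p q hp hq
    exact ⟨(PT h).mul_mem hp.1 hq.1, fun n => (hp.2 (q n)).trans (hq.2 n)⟩
  inv_mem' := by
    intro p hp
    refine ⟨(PT h).inv_mem hp.1, fun n => ?_⟩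
    have h1 := hp.2 (p⁻¹ n)
    rw [show p (p⁻¹ n) = n from p.apply_symm_apply n] at h1
    exact h1.symm

theorem mem_PU {h : BA A} {U : Set ℤ} {p : Equiv.Perm ℤ} :
    p ∈ PU h U ↔ p ∈ PT h ∧ ∀ n, SB U (p n) n := Iff.rfl

theorem PU_mono {h : BA A} {U U' : Set ℤ} (hU : U' ⊆ U) : PU h U ≤ PU h U' :=
  fun _ hp => ⟨hp.1, fun n => (hp.2 n).mono hU⟩

/-- the transversals of the blocks of `U` -/
def TU (A : Set (Set ℤ)) (U : Set ℤ) : Set (Set ℤ) :=
  {V | V ∈ A ∧ ∀ n, ∃ v ∈ V, SB U n v ∧ ∀ w ∈ V, SB U n w → w = v}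

theorem TU_inj {U V : Set ℤ} (hV : V ∈ TU A U) {v w : ℤ} (hv : v ∈ V) (hw : w ∈ V)
    (h : SB U v w) : v = w := by
  obtain ⟨x, _, _, hx⟩ := hV.2 v
  rw [hx v hv (SB.refl v), hx w hw h]

theorem TU_nonempty {U V : Set ℤ} (hV : V ∈ TU A U) : V.Nonempty := by
  obtain ⟨x, hx, _⟩ := hV.2 0
  exact ⟨x, hx⟩

theorem BA.unb (h : BA A) {V : Set ℤ} (hV : V ∈ A) (hne : V.Nonempty) : Unb V := by
  obtain ⟨r, hr⟩ := h.synd V hV hne
  intro n
  constructor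
  · obtain ⟨m, hm, h1, _⟩ := hr (n + 1)
    exact ⟨m, hm, by omega⟩
  · obtain ⟨m, hm, _, h1⟩ := hr (n - 1 - r)
    exact ⟨m, hm, by omega⟩

theorem TU_unb (h : BA A) {U V : Set ℤ} (hV : V ∈ TU A U) : Unb V :=
  h.unb hV.1 (TU_nonempty hV)

theorem TU_sc (h : BA A) {U V : Set ℤ} (hV : V ∈ TU A U) : IsSucc V (sc V) :=
  sc_spec (TU_unb h hV)

theorem PU_lt {h : BA A} {U V : Set ℤ} (hV : V ∈ TU A U) {p : Equiv.Perm ℤ} (hp : p ∈ PU h U)
    {v w : ℤ} (hv : v ∈ V) (hw : w ∈ V) (hvw : v < w) : p v < p w := by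
  have h1 : ¬ SB U v w := fun h => hvw.ne (TU_inj hV hv hw h)
  obtain ⟨u, hu, h2, h3⟩ := (not_SB hvw.le).1 h1
  have h4 : p v < u := by
    by_contra hc
    exact absurd ((hp.2 v u hu).1 (not_lt.1 hc)) (not_le.2 h2)
  exact h4.trans_le ((hp.2 w u hu).2 h3)

theorem PU_TU {h : BA A} {U V : Set ℤ} (hV : V ∈ TU A U) {p : Equiv.Perm ℤ} (hp : p ∈ PU h U) :
    p '' V ∈ TU A U := by
  refine ⟨PT_image h hp.1 hV.1, fun n => ?_⟩
  obtain ⟨v, hv, h1, h2⟩ := hV.2 n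
  refine ⟨p v, ⟨v, hv, rfl⟩, h1.trans (hp.2 v).symm, ?_⟩
  rintro _ ⟨w, hw, rfl⟩ hnw
  rw [h2 w hw (hnw.trans (hp.2 w))]

theorem PU_sc {h : BA A} {U V : Set ℤ} (hV : V ∈ TU A U) {p : Equiv.Perm ℤ} (hp : p ∈ PU h U) :
    p * sc V * p⁻¹ = sc (p '' V) :=
  (((TU_sc h hV).conj fun _ hv _ hw hvw => PU_lt hV hp hv hw hvw).sc_eq).symm

/-- successor permutations of members of `A` are piecewise translations -/
theorem sc_mem (h : BA A) {V : Set ℤ} (hV : V ∈ A) (hne : V.Nonempty) : sc V ∈ PT h := by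
  have hs := sc_spec (h.unb hV hne)
  obtain ⟨r, hr⟩ := h.synd V hV hne
  rw [mem_PT]
  have hW : Sim A (fun n (i : Fin (r + 2)) => (n + (i : ℤ) ∈ V : Prop)) :=
    Sim.window h ((sim_mem h).2 hV) _
  refine hW.factor h ?_
  intro n m hnm
  have hiff : ∀ i : ℤ, 0 ≤ i → i < r + 2 → (n + i ∈ V ↔ m + i ∈ V) := by
    intro i h0 h1
    have h2 := congrFun hnm ⟨i.toNat, by omega⟩
    have h3 : ((i.toNat : ℕ) : ℤ) = i := Int.toNat_of_nonneg h0
    have h4 : (n + ((i.toNat : ℕ) : ℤ) ∈ V) = (m + ((i.toNat : ℕ) : ℤ) ∈ V) := h2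
    rw [h3] at h4
    exact iff_of_eq h4
  by_cases hn : n ∈ V
  · have hm : m ∈ V := by
      have := (hiff 0 le_rfl (by omega)).1 (by simpa using hn)
      simpa using this
    obtain ⟨a1, a2, a3⟩ := (hs n).2 hn
    obtain ⟨b1, b2, b3⟩ := (hs m).2 hm
    obtain ⟨x, hx, hx1, hx2⟩ := hr (n + 1)
    obtain ⟨y, hy, hy1, hy2⟩ := hr (m + 1)
    have a4 := a3 x hx (by omega)
    have b4 := b3 y hy (by omega)
    have c1 : m + (sc V n - n) ∈ V := (hiff _ (by omega) (by omega)).1 (by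
      rw [show n + (sc V n - n) = sc V n by ring]; exact a1)
    have c2 : n + (sc V m - m) ∈ V := (hiff _ (by omega) (by omega)).2 (by
      rw [show m + (sc V m - m) = sc V m by ring]; exact b1)
    have d1 := b3 _ c1 (by omega)
    have d2 := a3 _ c2 (by omega)
    omega
  · have hm : m ∉ V := by
      intro hm
      apply hn
      have := (hiff 0 le_rfl (by omega)).2 (by simpa using hm)
      simpa using this
    rw [(hs n).1 hn, (hs m).1 hm]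
    ring

/-! ### the least elements of a set in the blocks -/

/-- the elements of `V` which are the least ones in their blocks -/
def mn (U V : Set ℤ) : Set ℤ := {v | v ∈ V ∧ ∀ w ∈ V, w < v → ¬ SB U w v}

theorem mn_sub (U V : Set ℤ) : mn U V ⊆ V := fun _ h => h.1

theorem mn_exists {U V : Set ℤ} (hU : Unb U) (n : ℤ) (hV : ∃ v ∈ V, SB U n v) :
    ∃ v ∈ mn U V, SB U n v ∧ ∀ w ∈ V, SB U n w → v ≤ w := by
  obtain ⟨v, hv, hnv⟩ := hV
  obtain ⟨u, hu, hun⟩ := (hU n).2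
  obtain ⟨s, ⟨h1, h2⟩, h3⟩ := Int.exists_least_of_bdd (P := fun z => z ∈ V ∧ SB U n z)
    ⟨u, fun z hz => (hz.2 u hu).1 hun.le⟩ ⟨v, hv, hnv⟩
  refine ⟨s, ⟨h1, fun w hw hws hsb => ?_⟩, h2, fun w hw hnw => h3 w ⟨hw, hnw⟩⟩
  exact absurd (h3 w ⟨hw, h2.trans hsb.symm⟩) (not_le.2 hws)

theorem mn_mem_A (h : BA A) {U V : Set ℤ} (hU : U ∈ A) (hne : U.Nonempty) (hV : V ∈ A) :
    mn U V ∈ A := by
  obtain ⟨r, hr⟩ := h.synd U hU hne
  rw [← sim_mem h]
  have hW : Sim A (fun n => ((fun (i : Fin (r + 2)) => (n + (-(i : ℤ)) ∈ V : Prop)),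
      (fun (i : Fin (r + 2)) => (n + (-(i : ℤ)) ∈ U : Prop)))) :=
    (Sim.window h ((sim_mem h).2 hV) _).pair h (Sim.window h ((sim_mem h).2 hU) _)
  refine hW.factor h ?_
  intro n m hnm
  have hiff : ∀ i : ℤ, 0 ≤ i → i < r + 2 → ((n - i ∈ V ↔ m - i ∈ V) ∧ (n - i ∈ U ↔ m - i ∈ U)) := by
    intro i h0 h1
    have h2 := congrFun (congrArg Prod.fst hnm) ⟨i.toNat, by omega⟩
    have h2' := congrFun (congrArg Prod.snd hnm) ⟨i.toNat, by omega⟩
    have h3 : ((i.toNat : ℕ) : ℤ) = i := Int.toNat_of_nonneg h0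
    have h4 : (n + (-((i.toNat : ℕ) : ℤ)) ∈ V) = (m + (-((i.toNat : ℕ) : ℤ)) ∈ V) := h2
    have h4' : (n + (-((i.toNat : ℕ) : ℤ)) ∈ U) = (m + (-((i.toNat : ℕ) : ℤ)) ∈ U) := h2'
    rw [h3] at h4 h4'
    exact ⟨iff_of_eq h4, iff_of_eq h4'⟩
  have key : ∀ n m : ℤ, (∀ i : ℤ, 0 ≤ i → i < r + 2 →
      ((n - i ∈ V ↔ m - i ∈ V) ∧ (n - i ∈ U ↔ m - i ∈ U))) → n ∈ mn U V → m ∈ mn U V := by
    intro n m hiff hn
    refine ⟨?_, fun w hw hwm hsb => ?_⟩
    · have := ((hiff 0 le_rfl (by omega)).1).1 (by simpa using hn.1)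
      simpa using this
    · -- the distance is at most `r`
      obtain ⟨x, hx, hx1, hx2⟩ := hr (m - r)
      have h1 : x ≤ w := by
        by_contra hc
        exact (not_SB hwm.le).2 ⟨x, hx, not_le.1 hc, by omega⟩ hsb
      have h2 : n - (m - w) ∈ V := ((hiff (m - w) (by omega) (by omega)).1).2 (by
        rw [show m - (m - w) = w by ring]; exact hw)
      refine hn.2 _ h2 (by omega) ?_
      by_contra hc
      obtain ⟨u, hu, hu1, hu2⟩ := (not_SB (by omega)).1 hc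
      have h3 : m - (n - u) ∈ U := ((hiff (n - u) (by omega) (by omega)).2).1 (by
        rw [show n - (n - u) = u by ring]; exact hu)
      exact (not_SB hwm.le).2 ⟨_, h3, by omega, by omega⟩ hsb
  exact propext ⟨key n m hiff, key m n fun i h0 h1 =>
    ⟨((hiff i h0 h1).1).symm, ((hiff i h0 h1).2).symm⟩⟩

theorem mn_TU (h : BA A) {U V : Set ℤ} (hU : U ∈ A) (hne : U.Nonempty) (hV : V ∈ A)
    (hm : ∀ n, ∃ v ∈ V, SB U n v) : mn U V ∈ TU A U := by
  refine ⟨mn_mem_A h hU hne hV, fun n => ?_⟩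
  obtain ⟨v, hv, h1, h2⟩ := mn_exists (h.unb hU hne) n (hm n)
  refine ⟨v, hv, h1, fun w hw hnw => ?_⟩
  rcases (h2 w hw.1 hnw).lt_or_eq with h3 | h3
  · exact absurd (h1.symm.trans hnw) (hw.2 v hv.1 h3)
  · exact h3.symm

theorem mn_self {U V : Set ℤ} (hV : V ∈ TU A U) : mn U V = V := by
  apply Set.Subset.antisymm (mn_sub U V)
  intro v hv
  exact ⟨hv, fun w hw hwv hsb => hwv.ne (TU_inj hV hw hv hsb)⟩

theorem mn_mn {U U' V : Set ℤ} (hU : Unb U) (hU' : U' ⊆ U) : mn U' (mn U V) = mn U' V := by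
  ext v
  constructor
  · rintro ⟨hv, h1⟩
    refine ⟨hv.1, fun w hw hwv hsb => ?_⟩
    obtain ⟨w', hw', h2, h3⟩ := mn_exists hU w ⟨w, hw, SB.refl w⟩
    exact h1 w' hw' ((h3 w hw (SB.refl w)).trans_lt hwv) ((h2.symm.mono hU').trans hsb)
  · rintro ⟨hv, h1⟩
    exact ⟨⟨hv, fun w hw hwv hsb => h1 w hw hwv (hsb.mono hU')⟩,
      fun w hw hwv hsb => h1 w hw.1 hwv hsb⟩

theorem mn_image {h : BA A} {U U' V : Set ℤ} (hU' : U' ⊆ U) (hV : V ∈ TU A U)
    {p : Equiv.Perm ℤ} (hp : p ∈ PU h U) : mn U' (p '' V) = p '' mn U' V := by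
  ext x
  constructor
  · rintro ⟨⟨v, hv, rfl⟩, h1⟩
    refine ⟨v, ⟨hv, fun w hw hwv hsb => ?_⟩, rfl⟩
    exact h1 (p w) ⟨w, hw, rfl⟩ (PU_lt hV hp hw hv hwv)
      ((((hp.2 w).mono hU').trans hsb).trans ((hp.2 v).symm.mono hU'))
  · rintro ⟨v, ⟨hv, h1⟩, rfl⟩
    refine ⟨⟨v, hv, rfl⟩, ?_⟩
    rintro _ ⟨w, hw, rfl⟩ hwv hsb
    have h2 : w < v := by
      by_contra hc
      rcases (not_lt.1 hc).lt_or_eq with h3 | h3
      · exact absurd (PU_lt hV hp hv hw h3) (not_lt.2 hwv.le)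
      · rw [h3] at hwv
        exact lt_irrefl _ hwv
    exact h1 w hw h2 ((((hp.2 w).symm.mono hU').trans hsb).trans ((hp.2 v).mono hU'))

/-- the successor permutations of `V` and of the set of the least elements differ by a permutation
which preserves the blocks -/
theorem cyc_mem (h : BA A) {U V : Set ℤ} (hU : U ∈ A) (hne : U.Nonempty) (hV : V ∈ A)
    (hm : ∀ n, ∃ v ∈ V, SB U n v) : (sc (mn U V))⁻¹ * sc V ∈ PU h U := by
  have hM := mn_TU h hU hne hV hm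
  have hVne : V.Nonempty := (TU_nonempty hM).mono (mn_sub U V)
  have hs := sc_spec (h.unb hV hVne)
  have ht := TU_sc h hM
  refine ⟨(PT h).mul_mem ((PT h).inv_mem (sc_mem h hM.1 (TU_nonempty hM))) (sc_mem h hV hVne), ?_⟩
  intro n
  show SB U ((sc (mn U V))⁻¹ (sc V n)) n
  by_cases hn : n ∈ V
  · obtain ⟨a1, a2, a3⟩ := (hs n).2 hn
    by_cases hsb : SB U n (sc V n)
    · have h1 : sc V n ∉ mn U V := fun h1 => h1.2 n hn a2 hsb
      rw [ht.inv_not_mem h1]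
      exact hsb.symm
    · have h1 : sc V n ∈ mn U V := by
        refine ⟨a1, fun w hw hwv hsb' => hsb ?_⟩
        have h2 : w ≤ n := by
          by_contra hc
          exact absurd (a3 w hw (not_le.1 hc)) (not_le.2 hwv)
        exact (hsb'.convex h2 a2.le).symm.trans hsb'
      obtain ⟨b1, b2, b3⟩ := ht.inv_mem h1
      obtain ⟨x, hx, hx1, hx2⟩ := mn_exists (h.unb hU hne) n ⟨n, hn, SB.refl n⟩
      have hxn := hx2 n hn (SB.refl n)
      have h3 := b3 x hx (hxn.trans_lt a2)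
      -- the previous minimum is at most `n`
      have h4 : (sc (mn U V))⁻¹ (sc V n) ≤ n := by
        by_contra hc
        exact absurd (a3 _ b1.1 (not_le.1 hc)) (not_le.2 b2)
      exact (hx1.trans (hx1.symm.convex h3 h4)).symm
  · rw [(hs n).1 hn, ht.inv_not_mem fun h1 => hn h1.1]
    exact SB.refl n

end Run7.h909.TF
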