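import Pool.Agent.Run7.h909.TF.Germs

/-!
# Topological full groups of actions of virtually cyclic groups with finitely many minimal sets
-/

set_option autoImplicit false
set_option linter.unusedSectionVars false

namespace Run7.h909.TF

open Pool.Agent.Y110.FJ Q30.FJ
open Pool.Agent.Y462.SS (Closed)
open Pool.Agent.R615.SC (full full_continuous pi_finite)
open Filter Topology

section fin

variable {D X : Type} [Group D] [MulAction D X] [TopologicalSpace X] [ContinuousConstSMul D X]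
  [T2Space X] [CompactSpace X] [TotallyDisconnectedSpace X]

theorem exists_normal_gen {c : D} (hc : (Subgroup.zpowers c).FiniteIndex) :
    ∃ t : D, (Subgroup.zpowers t).Normal ∧ (Subgroup.zpowers t).FiniteIndex := by
  have hle := Subgroup.normalCore_le (Subgroup.zpowers c)
  have hcyc : IsCyclic (Subgroup.zpowers c).normalCore :=
    isCyclic_of_injective (Subgroup.inclusion hle) (Subgroup.inclusion_injective hle)
  obtain ⟨t, ht⟩ := hcyc.exists_generator
  have h1 : Subgroup.zpowers (t : D) = (Subgroup.zpowers c).normalCore := by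
    apply le_antisymm
    · rw [Subgroup.zpowers_le]
      exact t.2
    · intro x hx
      obtain ⟨n, hn⟩ := Subgroup.mem_zpowers_iff.1 (ht ⟨x, hx⟩)
      rw [Subgroup.mem_zpowers_iff]
      exact ⟨n, congrArg Subtype.val hn⟩
  refine ⟨t, ?_, ?_⟩
  · rw [h1]
    infer_instance
  · rw [h1]
    infer_instance

theorem MinSet.smul {t : D} (hn : (Subgroup.zpowers t).Normal) {M : Set X}
    (hM : MinSet (Subgroup.zpowers t) M) (d : D) :
    MinSet (Subgroup.zpowers t) ((fun x : X => d • x) '' M) := by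
  have hcl : ∀ (e : D) {N : Set X}, IsClosed N → IsClosed ((fun x : X => e • x) '' N) :=
    fun e N hN => (Homeomorph.smul e).isClosedMap _ hN
  have hinv : ∀ (e : D) {N : Set X}, (∀ f : Subgroup.zpowers t, ∀ x ∈ N, f • x ∈ N) →
      ∀ f : Subgroup.zpowers t, ∀ x ∈ (fun x : X => e • x) '' N,
        f • x ∈ (fun x : X => e • x) '' N := by
    rintro e N hN f _ ⟨x, hx, rfl⟩
    have h1 : e⁻¹ * (f : D) * e ∈ Subgroup.zpowers t := by
      have := hn.conj_mem (f : D) f.2 e⁻¹
      rwa [inv_inv] at this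
    refine ⟨_, hN ⟨_, h1⟩ x hx, ?_⟩
    show e • (e⁻¹ * (f : D) * e) • x = (f : D) • e • x
    rw [← mul_smul, ← mul_smul]
    congr 1
    group
  refine ⟨hcl d hM.1, hM.2.1.image _, hinv d hM.2.2.1, fun N hN hN1 hN2 hN3 => ?_⟩
  have h1 : (fun x : X => d⁻¹ • x) '' N = M := by
    refine hM.2.2.2 _ ?_ (hcl d⁻¹ hN1) (hN2.image _) (hinv d⁻¹ hN3)
    rintro _ ⟨y, hy, rfl⟩
    obtain ⟨x, hx, rfl⟩ := hN hy
    show d⁻¹ • d • x ∈ M
    rwa [inv_smul_smul]
  rw [← h1, ← Set.image_comp]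
  have h2 : (fun x : X => d • x) ∘ (fun x : X => d⁻¹ • x) = id := by
    funext x
    exact smul_inv_smul d x
  rw [h2, Set.image_id]

/-- there are finitely many minimal sets of the cyclic group -/
theorem finite_min {t : D} (hn : (Subgroup.zpowers t).Normal)
    (hfi : (Subgroup.zpowers t).FiniteIndex) (hfin : {M : Set X | MinSet D M}.Finite) :
    {M : Set X | MinSet (Subgroup.zpowers t) M}.Finite := by
  classical
  obtain ⟨S, h1S, hS⟩ := exists_reps t hfi
  -- the union of the translates is minimal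
  have hZ : ∀ M : Set X, MinSet (Subgroup.zpowers t) M →
      MinSet D (⋃ s ∈ (S : Set D), (fun x : X => s • x) '' M) := by
    intro M hM
    have hsub : ∀ (d : D) (x : X), x ∈ M →
        d • x ∈ ⋃ s ∈ (S : Set D), (fun x : X => s • x) '' M := by
      intro d x hx
      obtain ⟨s, hs, n, rfl⟩ := hS d
      refine Set.mem_biUnion (by exact_mod_cast hs) ⟨t ^ n • x,
        hM.2.2.1 ⟨t ^ n, Subgroup.zpow_mem_zpowers t n⟩ x hx, ?_⟩
      show s • t ^ n • x = (s * t ^ n) • x
      rw [mul_smul]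
    refine ⟨?_, ?_, ?_, ?_⟩
    · exact S.finite_toSet.isClosed_biUnion fun s _ => (MinSet.smul hn hM s).1
    · obtain ⟨x, hx⟩ := hM.2.1
      exact ⟨_, hsub 1 x hx⟩
    · intro d x hx
      simp only [Set.mem_iUnion] at hx
      obtain ⟨s, hs, y, hy, rfl⟩ := hx
      show d • s • y ∈ _
      rw [← mul_smul]
      exact hsub _ y hy
    · intro N hN hN1 hN2 hN3
      obtain ⟨z, hz⟩ := hN2
      have hz' := hN hz
      simp only [Set.mem_iUnion] at hz'
      obtain ⟨s, hs, y, hy, hyz⟩ := hz'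
      have hyN : y ∈ N := by
        have h1 := hN3 s⁻¹ z hz
        have h2 : s⁻¹ • z = y := by
          rw [← hyz]
          exact inv_smul_smul s y
        rwa [h2] at h1
      have h3 : M ∩ N = M := hM.2.2.2 _ Set.inter_subset_left (hM.1.inter hN1) ⟨y, hy, hyN⟩
        (fun d x hx => ⟨hM.2.2.1 d x hx.1, hN3 d x hx.2⟩)
      apply Set.Subset.antisymm hN
      intro x hx
      simp only [Set.mem_iUnion] at hx
      obtain ⟨s', _, w, hw, rfl⟩ := hx
      rw [← h3] at hw
      exact hN3 s' w hw.2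
  -- choose a minimal set in every one of the finitely many
  have hch : ∀ Z : {M : Set X | MinSet D M}, ∃ M ⊆ Z.1, MinSet (Subgroup.zpowers t) M :=
    fun Z => exists_minSet Z.2.1 Z.2.2.1 (fun d x hx => Z.2.2.2.1 d x hx)
  choose φ hφ1 hφ2 using hch
  have hf : Finite {M : Set X | MinSet D M} := hfin
  have hfin2 : (⋃ Z : {M : Set X | MinSet D M}, ⋃ s ∈ (S : Set D),
      {(fun x : X => s • x) '' φ Z}).Finite :=
    Set.finite_iUnion fun Z => S.finite_toSet.biUnion fun s _ => Set.finite_singleton _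
  refine hfin2.subset ?_
  intro M hM
  have hM1 : MinSet (Subgroup.zpowers t) M := hM
  have hMZ := hZ M hM1
  obtain ⟨Z, hZZ⟩ : ∃ Z : {M : Set X | MinSet D M}, Z.1 =
      ⋃ s ∈ (S : Set D), (fun x : X => s • x) '' M := ⟨⟨_, hMZ⟩, rfl⟩
  have hφZ := hZ (φ Z) (hφ2 Z)
  -- the translates of `φ Z` are all of `Z`
  have hsub : (⋃ s ∈ (S : Set D), (fun x : X => s • x) '' φ Z) = Z.1 := by
    refine Z.2.2.2.2 _ ?_ hφZ.1 hφZ.2.1 hφZ.2.2.1
    intro x hx
    simp only [Set.mem_iUnion] at hx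
    obtain ⟨s, _, y, hy, rfl⟩ := hx
    exact Z.2.2.2.1 s y (hφ1 Z hy)
  obtain ⟨x, hx⟩ := hM1.2.1
  have hxZ : x ∈ Z.1 := by
    rw [hZZ]
    refine Set.mem_biUnion (by exact_mod_cast h1S) ⟨x, hx, one_smul D x⟩
  rw [← hsub] at hxZ
  simp only [Set.mem_iUnion] at hxZ
  obtain ⟨s, hs, y, hy, hyx⟩ := hxZ
  have hMeq : M = (fun x : X => s • x) '' φ Z :=
    MinSet.eq hM1 (MinSet.smul hn (hφ2 Z) s) ⟨x, hx, y, hy, hyx⟩
  simp only [Set.mem_iUnion]
  exact ⟨Z, s, hs, hMeq⟩

/-- a piecewise homeomorphism which is trivial near the orbit of a point of a minimal set is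
trivial near the minimal set -/
theorem triv_near {t : D} (hn : (Subgroup.zpowers t).Normal) {M : Set X}
    (hM : MinSet (Subgroup.zpowers t) M) {x : X} (hx : x ∈ M) {g : Equiv.Perm X}
    (hg : g ∈ full D X) (h : ∀ d : D, ∀ᶠ z in 𝓝 (d • x), g z = z) {y : X} (hy : y ∈ M) :
    ∀ᶠ z in 𝓝 y, g z = z := by
  by_cases hyo : ∃ d : D, y = d • x
  · obtain ⟨d, rfl⟩ := hyo
    exact h d
  obtain ⟨e, he⟩ := hg y
  obtain ⟨O, hO, hO1, hO2⟩ := mem_nhds_iff.1 he
  obtain ⟨⟨d, hd⟩, hdx⟩ := hM.visit hO1 ⟨y, hy, hO2⟩ hx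
  have hdx' : d • x ∈ O := hdx
  -- the element `e` is trivial near `d • x`
  have h1 : e ∈ Sx D (d • x) := by
    rw [mem_Sx]
    filter_upwards [h d, hO1.mem_nhds hdx'] with z hz1 hz2
    have h2 : g z = e • z := hO hz2
    rw [← h2, hz1]
  have hxM : d • x ∈ M := hM.2.2.1 ⟨d, hd⟩ x hx
  obtain ⟨a, ha⟩ := Subgroup.mem_zpowers_iff.1 (hn.conj_mem t (Subgroup.mem_zpowers t) e)
  have ha' : e * t = t ^ a * e := by rw [ha]; group
  rcases cent_or hM hxM h1 ha' with h2 | ⟨p, hp, hpx⟩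
  · -- `e` commutes with `t`
    rw [h2, zpow_one] at ha
    have hcomm : ∀ k : ℤ, e * t ^ k = t ^ k * e := by
      intro k
      have h3 : e * t ^ k * e⁻¹ = t ^ k := by rw [← conj_zpow, ← ha]
      calc e * t ^ k = e * t ^ k * e⁻¹ * e := by group
        _ = t ^ k * e := by rw [h3]
    obtain ⟨O', hO', hO1', hO2'⟩ := mem_nhds_iff.1 (mem_Sx.1 h1)
    obtain ⟨⟨f, hf⟩, hfy⟩ := hM.visit hO1' ⟨_, hxM, hO2'⟩ hy
    obtain ⟨k, rfl⟩ := Subgroup.mem_zpowers_iff.1 hf
    have hfy' : t ^ k • y ∈ O' := hfy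
    have hc : Tendsto (fun z : X => t ^ k • z) (𝓝 y) (𝓝 (t ^ k • y)) :=
      (continuous_const_smul _).tendsto y
    filter_upwards [hc.eventually (hO1'.mem_nhds hfy'), hO1.mem_nhds hO2] with z hz1 hz2
    have h4 : e • t ^ k • z = t ^ k • z := hO' hz1
    have h5 : g z = e • z := hO hz2
    rw [h5]
    rw [← mul_smul, hcomm, mul_smul] at h4
    exact smul_left_cancel _ h4
  · -- the orbit is finite
    exfalso
    apply hyo
    -- the orbit of `d • x` under `t` is finite and closed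
    have hfinorb : (Set.range fun k : ℤ => t ^ k • d • x).Finite := by
      refine ((Set.finite_Ico (0 : ℤ) |p|).image (fun k : ℤ => t ^ k • d • x)).subset ?_
      rintro _ ⟨k, rfl⟩
      refine ⟨k % p, ⟨Int.emod_nonneg _ hp, Int.emod_lt_abs _ hp⟩, ?_⟩
      have h6 : ∀ j : ℤ, t ^ (p * j) • d • x = d • x := by
        intro j
        have h7 : t ^ p ∈ MulAction.stabilizer D (d • x) := hpx
        have h8 := (MulAction.stabilizer D (d • x)).zpow_mem h7 j
        rw [← zpow_mul] at h8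
        exact h8
      show t ^ (k % p) • d • x = t ^ k • d • x
      have h9 : k = k % p + p * (k / p) := (Int.emod_add_mul_ediv k p).symm
      conv_rhs => rw [h9, zpow_add, mul_smul, h6]
    have hMorb : (Set.range fun k : ℤ => t ^ k • d • x) = M := by
      refine hM.2.2.2 _ ?_ hfinorb.isClosed ⟨_, 0, rfl⟩ ?_
      · rintro _ ⟨k, rfl⟩
        exact hM.2.2.1 ⟨t ^ k, Subgroup.zpow_mem_zpowers t k⟩ _ hxM
      · rintro ⟨f, hf⟩ _ ⟨k, rfl⟩
        obtain ⟨j, rfl⟩ := Subgroup.mem_zpowers_iff.1 hf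
        refine ⟨j + k, ?_⟩
        show t ^ (j + k) • d • x = t ^ j • t ^ k • d • x
        rw [zpow_add, mul_smul]
    rw [← hMorb] at hy
    obtain ⟨k, hk⟩ := hy
    exact ⟨t ^ k * d, by rw [mul_smul]; exact hk.symm⟩

/-- **topological full groups of actions of virtually cyclic groups with finitely many minimal
sets** -/
theorem full_mem {C : ∀ (G : Type) [Group G], Prop} (hC : ClosedE C)
    (hvc : ∃ c : D, (Subgroup.zpowers c).FiniteIndex)
    (hfin : {M : Set X | MinSet D M}.Finite) : C ↥(full D X) := by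
  classical
  obtain ⟨c, hc⟩ := hvc
  obtain ⟨t, hn, hfi⟩ := exists_normal_gen hc
  have hfm := finite_min hn hfi hfin
  obtain ⟨MM, hMM⟩ : ∃ MM : Set (Set X), MM = {M : Set X | MinSet (Subgroup.zpowers t) M} :=
    ⟨_, rfl⟩
  rw [← hMM] at hfm
  have hMMfin : Finite MM := hfm
  obtain ⟨L, hL⟩ : ∃ L : Set X, L = ⋃₀ MM := ⟨_, rfl⟩
  have hmem : ∀ M, MinSet (Subgroup.zpowers t) M → M ∈ MM := fun M hM => by rw [hMM]; exact hM
  have hmem' : ∀ M ∈ MM, MinSet (Subgroup.zpowers t) M := fun M hM => by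
    rw [hMM] at hM; exact hM
  have hLsub : ∀ M, MinSet (Subgroup.zpowers t) M → M ⊆ L := by
    intro M hM
    rw [hL]
    exact Set.subset_sUnion_of_mem (hmem M hM)
  have hLc : IsClosed L := by
    rw [hL, Set.sUnion_eq_biUnion]
    exact Set.Finite.isClosed_biUnion hfm fun M hM => (hmem' M hM).1
  have hLinv : ∀ d : D, ∀ x ∈ L, d • x ∈ L := by
    intro d x hx
    rw [hL] at hx
    obtain ⟨M, hM, hxM⟩ := hx
    exact hLsub _ (MinSet.smul hn (hmem' M hM) d) ⟨x, hxM, rfl⟩
  -- the kernel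
  obtain ⟨N, hN⟩ : ∃ N : Subgroup ↥(full D X), ∀ g, g ∈ N ↔ ∀ y ∈ L, ∀ᶠ z in 𝓝 y, g.1 z = z := by
    refine ⟨{ carrier := {g | ∀ y ∈ L, ∀ᶠ z in 𝓝 y, g.1 z = z}
              one_mem' := fun y _ => Eventually.of_forall fun z => rfl
              mul_mem' := ?_
              inv_mem' := ?_ }, fun g => Iff.rfl⟩
    · intro a b ha hb y hy
      filter_upwards [ha y hy, hb y hy] with z h1 h2
      show a.1 (b.1 z) = z
      rw [h2, h1]
    · intro a ha y hy
      filter_upwards [ha y hy] with z h1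
      show (a.1)⁻¹ z = z
      rw [Equiv.Perm.inv_eq_iff_eq]
      exact h1.symm
  -- the homomorphisms
  have hch : ∀ M : MM, ∃ x : X, x ∈ M.1 := fun M => (hmem' M.1 M.2).2.1
  choose x hx using hch
  have hkey := fun M : MM => key hC t hn hfi (hmem' M.1 M.2) (hx M)
  choose P iP ρ hP hρ using hkey
  have hker : N = (MonoidHom.pi ρ).ker := by
    ext g
    rw [hN, MonoidHom.mem_ker]
    constructor
    · intro h
      funext M
      show ρ M g = 1
      rw [hρ M g]
      intro d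
      exact h _ (hLinv d _ (hLsub _ (hmem' M.1 M.2) (hx M)))
    · intro h y hy
      rw [hL] at hy
      obtain ⟨M, hM, hyM⟩ := hy
      have h1 : ρ ⟨M, hM⟩ g = 1 := congrFun h ⟨M, hM⟩
      rw [hρ] at h1
      exact triv_near hn (hmem' M hM) (hx ⟨M, hM⟩) g.2 h1 hyM
  have hNn : N.Normal := by
    rw [hker]
    infer_instance
  have hQ : C (↥(full D X) ⧸ N) := by
    have h1 : C (∀ M : MM, P M) := pi_finite hC.base MM P hP
    have h2 : ∀ g : ↥(full D X), g ∈ N → MonoidHom.pi ρ g = 1 := by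
      intro g hg
      rw [hker] at hg
      exact hg
    refine hC.base.of_injective _ _ (QuotientGroup.lift N (MonoidHom.pi ρ) h2) ?_ h1
    rw [injective_iff_map_eq_one]
    intro q hq
    obtain ⟨g, rfl⟩ := QuotientGroup.mk_surjective q
    rw [QuotientGroup.eq_one_iff, hker]
    exact hq
  refine loc_fin hC ↥(full D X) N ?_ hQ
  intro E hE hEN
  have hfinE := loc_finite t hfi hLsub hLc hLinv (Subtype.val '' E) (hE.image _)
    (by
      rintro _ ⟨g, _, rfl⟩
      exact g.2)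
    (by
      rintro _ ⟨g, hg, rfl⟩
      exact (hN g).1 (hEN hg))
  have hmap : ∀ w : Subgroup.closure E, w.1.1 ∈ Subgroup.closure (Subtype.val '' E) := by
    intro w
    have h1 : (full D X).subtype w.1 ∈ (Subgroup.closure E).map (full D X).subtype :=
      ⟨w.1, w.2, rfl⟩
    rw [MonoidHom.map_closure] at h1
    exact h1
  refine Finite.of_injective (fun w : Subgroup.closure E =>
    (⟨w.1.1, hmap w⟩ : Subgroup.closure (Subtype.val '' E))) ?_
  intro a b hab
  have h3 : a.1.1 = b.1.1 := congrArg (fun w : Subgroup.closure (Subtype.val '' E) => w.1) hab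
  exact Subtype.ext (Subtype.ext h3)

end fin

/-! ### uniformly recurrent groups of permutations -/

/-- **uniformly recurrent groups of permutations of the integers** -/
theorem ur_mem {C : ∀ (G : Type) [Group G], Prop} (hC : ClosedE C) (G : Type) [Group G]
    (ρ : G →* Equiv.Perm ℤ) (hinj : Function.Injective ρ)
    (hbd : ∀ g : G, ∃ r : ℤ, ∀ n, |ρ g n - n| ≤ r)
    (hrec : ∀ (S : Finset G) (R : ℕ) (m : ℤ), ∃ r : ℕ, ∀ n : ℤ, ∃ k : ℤ, n ≤ k ∧ k ≤ n + r ∧
      ∀ g ∈ S, ∀ j : ℤ, -R ≤ j → j ≤ R →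
        ρ g (k + j) - (k + j) = ρ g (m + j) - (m + j)) : C G := by
  classical
  let A : Set (Set ℤ) := {U | ∃ (S : Finset G) (R : ℕ), ∀ n m : ℤ,
    (∀ g ∈ S, ∀ j : ℤ, -R ≤ j → j ≤ R → ρ g (n + j) - (n + j) = ρ g (m + j) - (m + j)) →
      (n ∈ U ↔ m ∈ U)}
  have hA : BA A :=
    { univ := ⟨∅, 0, fun _ _ _ => Iff.rfl⟩
      compl := by
        rintro U ⟨S, R, h⟩
        exact ⟨S, R, fun n m hnm => not_congr (h n m hnm)⟩
      inter := by
        rintro U ⟨S, R, h⟩ V ⟨S', R', h'⟩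
        refine ⟨S ∪ S', max R R', fun n m hnm => and_congr (h n m ?_) (h' n m ?_)⟩
        · intro g hg j h1 h2
          exact hnm g (Finset.mem_union_left _ hg) j (by push_cast; omega) (by push_cast; omega)
        · intro g hg j h1 h2
          exact hnm g (Finset.mem_union_right _ hg) j (by push_cast; omega) (by push_cast; omega)
      shift := by
        rintro U ⟨S, R, h⟩ k
        refine ⟨S, R + k.natAbs, fun n m hnm => h (n + k) (m + k) ?_⟩
        intro g hg j h1 h2
        have h0 := abs_le.1 (le_refl |k|)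
        have h3 := hnm g hg (k + j) (by push_cast; omega) (by push_cast; omega)
        rwa [← add_assoc, ← add_assoc] at h3
      synd := by
        rintro U ⟨S, R, h⟩ ⟨m, hm⟩
        obtain ⟨r, hr⟩ := hrec S R m
        refine ⟨r, fun n => ?_⟩
        obtain ⟨k, h1, h2, h3⟩ := hr n
        exact ⟨k, (h k m h3).2 hm, h1, h2⟩ }
  have hmem : ∀ g : G, ρ g ∈ PT hA := by
    intro g
    constructor
    · obtain ⟨r, hr⟩ := hbd g
      refine (Set.finite_Icc (-r) r).subset ?_
      rintro _ ⟨n, rfl⟩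
      exact abs_le.1 (hr n)
    · intro b
      refine ⟨{g}, 0, fun n m hnm => ?_⟩
      have h1 := hnm g (Finset.mem_singleton_self g) 0 (by simp) (by simp)
      rw [add_zero, add_zero] at h1
      show ρ g n - n = b ↔ ρ g m - m = b
      rw [h1]
  exact hC.base.of_injective G (PT hA) (ρ.codRestrict (PT hA) hmem)
    (fun a b hab => hinj (congrArg Subtype.val hab)) (PT_mem hC hA)

end Run7.h909.TF
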