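import Pool.Agent.Q30.FJ.GrP

/-!
# Semidirect products of graph products with groups acting on the graph
-/

set_option autoImplicit false

namespace Run7.h909.TF

open Pool.Agent.Y110.FJ Q30.FJ
open Pool.Agent.Y462.SS (Closed)

section act

variable {V P K : Type} [Group P] [MulAction P V] [Group K] {Λ : SimpleGraph V}

/-- the endomorphism given by an element -/
noncomputable def gmap (hΛ : ∀ (p : P) (v w : V), Λ.Adj v w → Λ.Adj (p • v) (p • w)) (p : P) :
    GrP Λ (fun _ => K) →* GrP Λ (fun _ => K) :=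
  glift (fun v => GrP.of Λ (fun _ => K) (p • v))
    (fun v w h a b => gcomm (A := fun _ => K) (hΛ p v w h) a b)

variable (hΛ : ∀ (p : P) (v w : V), Λ.Adj v w → Λ.Adj (p • v) (p • w))

theorem gmap_of (p : P) (v : V) (a : K) :
    gmap hΛ p (GrP.of Λ (fun _ => K) v a) = GrP.of Λ (fun _ => K) (p • v) a :=
  glift_of _ _ _ _

theorem gmap_comp (p q : P) : (gmap (K := K) hΛ p).comp (gmap hΛ q) = gmap hΛ (p * q) := by
  apply gext
  intro v a
  rw [MonoidHom.comp_apply, gmap_of, gmap_of, gmap_of, mul_smul]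

theorem gmap_one : gmap (K := K) hΛ (1 : P) = MonoidHom.id _ := by
  apply gext
  intro v a
  rw [gmap_of, one_smul]
  rfl

/-- the action on the graph product -/
noncomputable def gact : P →* MulAut (GrP Λ (fun _ => K)) where
  toFun p := MonoidHom.toMulEquiv (gmap hΛ p) (gmap hΛ p⁻¹)
    (by rw [gmap_comp, inv_mul_cancel, gmap_one]) (by rw [gmap_comp, mul_inv_cancel, gmap_one])
  map_one' := by
    ext x
    show gmap hΛ (1 : P) x = x
    rw [gmap_one]
    rfl
  map_mul' p q := by
    ext x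
    show gmap hΛ (p * q) x = gmap hΛ p (gmap hΛ q x)
    rw [← gmap_comp]
    rfl

theorem gact_of (p : P) (v : V) (a : K) :
    gact hΛ p (GrP.of Λ (fun _ => K) v a) = GrP.of Λ (fun _ => K) (p • v) a :=
  gmap_of hΛ p v a

/-- homomorphisms from the semidirect product -/
noncomputable def mkHom {H : Type} [Group H] (σ : V → (K →* H)) (π : P →* H)
    (h1 : ∀ v w, Λ.Adj v w → ∀ a b, σ v a * σ w b = σ w b * σ v a)
    (h2 : ∀ p v a, π p * σ v a * (π p)⁻¹ = σ (p • v) a) :
    GrP Λ (fun _ => K) ⋊[gact hΛ] P →* H :=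
  SemidirectProduct.lift (glift σ h1) π (by
    intro p
    apply gext
    intro v a
    show glift σ h1 (gact hΛ p (GrP.of Λ (fun _ => K) v a)) =
      π p * glift σ h1 (GrP.of Λ (fun _ => K) v a) * (π p)⁻¹
    rw [gact_of, glift_of, glift_of, h2])

theorem mkHom_of {H : Type} [Group H] (σ : V → (K →* H)) (π : P →* H)
    (h1 : ∀ v w, Λ.Adj v w → ∀ a b, σ v a * σ w b = σ w b * σ v a)
    (h2 : ∀ p v a, π p * σ v a * (π p)⁻¹ = σ (p • v) a) (v : V) (a : K) :
    mkHom hΛ σ π h1 h2 (SemidirectProduct.inl (GrP.of Λ (fun _ => K) v a)) = σ v a := by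
  rw [mkHom, SemidirectProduct.lift_inl, glift_of]

theorem mkHom_inr {H : Type} [Group H] (σ : V → (K →* H)) (π : P →* H)
    (h1 : ∀ v w, Λ.Adj v w → ∀ a b, σ v a * σ w b = σ w b * σ v a)
    (h2 : ∀ p v a, π p * σ v a * (π p)⁻¹ = σ (p • v) a) (p : P) :
    mkHom hΛ σ π h1 h2 (SemidirectProduct.inr p) = π p := by
  rw [mkHom, SemidirectProduct.lift_inr]

theorem sd_ext {H : Type} [Group H] {f g : GrP Λ (fun _ => K) ⋊[gact hΛ] P →* H}
    (h1 : ∀ v a, f (SemidirectProduct.inl (GrP.of Λ (fun _ => K) v a)) =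
      g (SemidirectProduct.inl (GrP.of Λ (fun _ => K) v a)))
    (h2 : ∀ p, f (SemidirectProduct.inr p) = g (SemidirectProduct.inr p)) : f = g := by
  apply SemidirectProduct.hom_ext
  · apply gext
    intro v a
    exact h1 v a
  · ext p
    exact h2 p

/-- a subgroup of a graph product which contains the vertex groups is everything -/
theorem grp_top {A : V → Type} [∀ v, Group (A v)] (M : Subgroup (GrP Λ A))
    (h : ∀ v a, GrP.of Λ A v a ∈ M) : M = ⊤ := by
  rw [eq_top_iff]
  intro x _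
  obtain ⟨φ, hφ⟩ : ∃ φ : GrP Λ A →* M, ∀ v a, φ (GrP.of Λ A v a) = ⟨GrP.of Λ A v a, h v a⟩ := by
    refine ⟨glift (fun v => (GrP.of Λ A v).codRestrict M (h v)) ?_, ?_⟩
    · intro v w hvw a b
      apply Subtype.ext
      exact gcomm hvw a b
    · intro v a
      rw [glift_of]
      rfl
  have h1 : M.subtype.comp φ = MonoidHom.id _ := by
    apply gext
    intro v a
    rw [MonoidHom.comp_apply, hφ]
    rfl
  have h2 : ((φ x : M) : GrP Λ A) = x := DFunLike.congr_fun h1 x
  rw [← h2]
  exact (φ x).2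

/-- the class contains semidirect products with torsion groups in the class -/
theorem gw_mem {C : ∀ (G : Type) [Group G], Prop} (hC : ClosedE C) (hK : C K) (hP : C P)
    (ht : ∀ p : P, ∃ k : ℕ, 0 < k ∧ p ^ k = 1) : C (GrP Λ (fun _ => K) ⋊[gact hΛ] P) := by
  refine inn C hC _ (SemidirectProduct.rightHom : GrP Λ (fun _ => K) ⋊[gact hΛ] P →* P).ker
    ?_ ?_ ?_
  · have h1 : C (GrP Λ (fun _ => K)) := gp C hC V Λ (fun _ => K) fun _ => hK
    refine hC.base.of_injective _ _ (MonoidHom.mk' (fun x => x.1.left) ?_) ?_ h1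
    · rintro ⟨x, hx⟩ ⟨y, hy⟩
      have hx' : x.right = 1 := hx
      show (x * y).left = x.left * y.left
      rw [SemidirectProduct.mul_left, hx', map_one]
      rfl
    · rintro ⟨x, hx⟩ ⟨y, hy⟩ hxy
      have hx' : x.right = 1 := hx
      have hy' : y.right = 1 := hy
      exact Subtype.ext (SemidirectProduct.ext hxy (hx'.trans hy'.symm))
  · exact hC.base.of_injective _ P
      (QuotientGroup.quotientKerEquivOfSurjective _
        (SemidirectProduct.rightHom_surjective)).toMonoidHom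
      (QuotientGroup.quotientKerEquivOfSurjective _
        (SemidirectProduct.rightHom_surjective)).injective hP
  · intro g E _
    obtain ⟨k, hk, hgk⟩ := ht g.right
    have hmem : g ^ k ∈ (SemidirectProduct.rightHom :
        GrP Λ (fun _ => K) ⋊[gact hΛ] P →* P).ker := by
      rw [MonoidHom.mem_ker, map_pow]
      exact hgk
    refine ⟨MulAut.conjNormal g, k, ⟨g ^ k, hmem⟩, hk, ?_, ?_⟩
    · rw [← map_pow]
      apply MulEquiv.ext
      intro x
      apply Subtype.ext
      rfl
    · intro x _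
      rfl

end act

section zed

variable {V P : Type} [Group P] [MulAction P V] {Λ : SimpleGraph V}
variable (hΛ : ∀ (p : P) (v w : V), Λ.Adj v w → Λ.Adj (p • v) (p • w))

/-- the generator of a vertex -/
noncomputable def gen (v : V) : GrP Λ (fun _ => Multiplicative ℤ) ⋊[gact hΛ] P :=
  SemidirectProduct.inl (GrP.of Λ (fun _ => Multiplicative ℤ) v (Multiplicative.ofAdd 1))

theorem gen_zpow (v : V) (a : Multiplicative ℤ) : gen hΛ v ^ (Multiplicative.toAdd a) =
    SemidirectProduct.inl (GrP.of Λ (fun _ => Multiplicative ℤ) v a) := by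
  rw [gen, ← map_zpow, ← map_zpow]
  congr 2
  rw [← ofAdd_zsmul, zsmul_one]
  simp

theorem gen_ind {φ : GrP Λ (fun _ => Multiplicative ℤ) ⋊[gact hΛ] P → Prop} (h1 : φ 1)
    (h2 : ∀ v x, φ x → φ (gen hΛ v * x)) (h3 : ∀ v x, φ x → φ ((gen hΛ v)⁻¹ * x))
    (h4 : ∀ (q : P) x, φ x → φ (SemidirectProduct.inr q * x)) : ∀ x, φ x := by
  have htop : Subgroup.closure (Set.range (gen hΛ) ∪ Set.range (SemidirectProduct.inr :
      P →* GrP Λ (fun _ => Multiplicative ℤ) ⋊[gact hΛ] P)) = ⊤ := by
    rw [eq_top_iff]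
    intro x _
    have hx : x = SemidirectProduct.inl x.left * SemidirectProduct.inr x.right := by
      rw [SemidirectProduct.inl_left_mul_inr_right]
    rw [hx]
    refine Subgroup.mul_mem _ ?_ (Subgroup.subset_closure (Set.mem_union_right _
      (Set.mem_range_self x.right)))
    have h5 : (Subgroup.closure (Set.range (gen hΛ) ∪ Set.range (SemidirectProduct.inr :
      P →* GrP Λ (fun _ => Multiplicative ℤ) ⋊[gact hΛ] P))).comap
        (SemidirectProduct.inl) = ⊤ := by
      apply grp_top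
      intro v a
      rw [Subgroup.mem_comap, ← gen_zpow]
      exact Subgroup.zpow_mem _ (Subgroup.subset_closure (Set.mem_union_left _
        (Set.mem_range_self v))) _
    have h6 : x.left ∈ (⊤ : Subgroup (GrP Λ (fun _ => Multiplicative ℤ))) := trivial
    rw [← h5] at h6
    exact h6
  intro x
  have hx : x ∈ Subgroup.closure (Set.range (gen hΛ) ∪ Set.range (SemidirectProduct.inr :
      P →* GrP Λ (fun _ => Multiplicative ℤ) ⋊[gact hΛ] P)) := by
    rw [htop]
    trivial
  induction hx using Subgroup.closure_induction_left with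
  | one => exact h1
  | mul_left y hy z _ ih =>
    rcases hy with ⟨v, rfl⟩ | ⟨q, rfl⟩
    · exact h2 v z ih
    · exact h4 q z ih
  | inv_mul_cancel y hy z _ ih =>
    rcases hy with ⟨v, rfl⟩ | ⟨q, rfl⟩
    · exact h3 v z ih
    · rw [← map_inv]
      exact h4 q⁻¹ z ih

/-- homomorphisms given by images of the generators -/
noncomputable def mkZ {H : Type} [Group H] (s : V → H) (π : P →* H)
    (h1 : ∀ v w, Λ.Adj v w → s v * s w = s w * s v)
    (h2 : ∀ p v, π p * s v * (π p)⁻¹ = s (p • v)) :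
    GrP Λ (fun _ => Multiplicative ℤ) ⋊[gact hΛ] P →* H :=
  mkHom hΛ (fun v => zpowersHom H (s v)) π
    (by
      intro v w hvw a b
      rw [zpowersHom_apply, zpowersHom_apply]
      exact (Commute.zpow_zpow (h1 v w hvw : Commute (s v) (s w)) _ _))
    (by
      intro p v a
      rw [zpowersHom_apply, zpowersHom_apply, ← h2, conj_zpow])

theorem mkZ_gen {H : Type} [Group H] (s : V → H) (π : P →* H)
    (h1 : ∀ v w, Λ.Adj v w → s v * s w = s w * s v)
    (h2 : ∀ p v, π p * s v * (π p)⁻¹ = s (p • v)) (v : V) :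
    mkZ hΛ s π h1 h2 (gen hΛ v) = s v := by
  rw [mkZ, gen, mkHom_of, zpowersHom_apply, toAdd_ofAdd, zpow_one]

theorem mkZ_inr {H : Type} [Group H] (s : V → H) (π : P →* H)
    (h1 : ∀ v w, Λ.Adj v w → s v * s w = s w * s v)
    (h2 : ∀ p v, π p * s v * (π p)⁻¹ = s (p • v)) (p : P) :
    mkZ hΛ s π h1 h2 (SemidirectProduct.inr p) = π p := by
  rw [mkZ, mkHom_inr]

theorem zed_ext {H : Type} [Group H]
    {f g : GrP Λ (fun _ => Multiplicative ℤ) ⋊[gact hΛ] P →* H}
    (h1 : ∀ v, f (gen hΛ v) = g (gen hΛ v))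
    (h2 : ∀ p, f (SemidirectProduct.inr p) = g (SemidirectProduct.inr p)) : f = g := by
  apply sd_ext
  · intro v a
    rw [← gen_zpow, map_zpow, map_zpow, h1]
  · exact h2

theorem gen_conj (p : P) (v : V) : (SemidirectProduct.inr p :
    GrP Λ (fun _ => Multiplicative ℤ) ⋊[gact hΛ] P) * gen hΛ v * (SemidirectProduct.inr p)⁻¹ =
      gen hΛ (p • v) := by
  rw [gen, gen, ← map_inv, ← SemidirectProduct.inl_aut, gact_of]

theorem gen_comm {v w : V} (h : Λ.Adj v w) : gen hΛ v * gen hΛ w = gen hΛ w * gen hΛ v := by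
  rw [gen, gen, ← map_mul, ← map_mul,
    gcomm (A := fun _ => Multiplicative ℤ) h (Multiplicative.ofAdd 1) (Multiplicative.ofAdd 1)]

end zed

end Run7.h909.TF
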