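import Pool.Agent.Run7.h909.TF.Loc

/-!
# The action on the germs along an orbit
-/

set_option autoImplicit false
set_option linter.unusedSectionVars false

namespace Run7.h909.TF

open Pool.Agent.Y110.FJ Q30.FJ
open Pool.Agent.Y462.SS (Closed)
open Pool.Agent.R615.SC (full full_continuous)
open Filter Topology

/-! ### the Boolean algebra of a point -/

section alg

variable {D X : Type} [Group D] [MulAction D X] [TopologicalSpace X] [ContinuousConstSMul D X]

/-- the sets of integers given by clopen sets and residues -/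
def AX (t : D) (x : X) (m : ℕ) : Set (Set ℤ) :=
  {B | ∃ U : ℤ → Set X, (∀ i, IsClopen (U i)) ∧ ∀ N : ℤ, N ∈ B ↔ t ^ (N / m) • x ∈ U (N % m)}

theorem AX_BA (t : D) (x : X) {m : ℕ} (hm : 0 < m)
    (hrec : ∀ U : Set X, IsOpen U → ∀ n0 : ℤ, t ^ n0 • x ∈ U → ∃ r : ℕ, ∀ n : ℤ, ∃ k : ℤ,
      n ≤ k ∧ k ≤ n + r ∧ t ^ k • x ∈ U) : BA (AX t x m) where
  univ := ⟨fun _ => Set.univ, fun _ => isClopen_univ, fun N => by simp⟩
  compl := by
    rintro B ⟨U, hU, hB⟩
    exact ⟨fun i => (U i)ᶜ, fun i => (hU i).compl, fun N => not_congr (hB N)⟩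
  inter := by
    rintro B ⟨U, hU, hB⟩ B' ⟨U', hU', hB'⟩
    exact ⟨fun i => U i ∩ U' i, fun i => (hU i).inter (hU' i), fun N => and_congr (hB N) (hB' N)⟩
  shift := by
    rintro B ⟨U, hU, hB⟩ k
    refine ⟨fun i => (fun y : X => t ^ ((i + k) / m) • y) ⁻¹' U ((i + k) % m), fun i =>
      (hU _).preimage (continuous_const_smul _), fun N => ?_⟩
    show N + k ∈ B ↔ t ^ ((N % m + k) / m) • t ^ (N / m) • x ∈ U ((N % m + k) % m)
    rw [hB, ← mul_smul, ← zpow_add]
    have h1 : N + k = (N % m + k) + m * (N / m) := by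
      have := Int.emod_add_mul_ediv N m
      omega
    have hm' : (m : ℤ) ≠ 0 := by omega
    rw [h1, Int.add_mul_ediv_left _ _ hm', Int.add_mul_emod_self_left]
  synd := by
    rintro B ⟨U, hU, hB⟩ ⟨N0, hN0⟩
    rw [hB] at hN0
    obtain ⟨r, hr⟩ := hrec _ (hU _).isOpen _ hN0
    refine ⟨m * (r + 2), fun n => ?_⟩
    obtain ⟨k, hk1, hk2, hk3⟩ := hr (n / m + 1)
    have hm' : (m : ℤ) ≠ 0 := by omega
    have h0 := Int.emod_nonneg N0 hm'
    have h1 := Int.emod_lt_of_pos N0 (b := (m : ℤ)) (by omega)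
    have h2 := Int.emod_nonneg n hm'
    have h3 := Int.emod_lt_of_pos n (b := (m : ℤ)) (by omega)
    have h4 := Int.emod_add_mul_ediv n m
    refine ⟨N0 % m + m * k, ?_, ?_, ?_⟩
    · rw [hB, Int.add_mul_ediv_left _ _ hm', Int.add_mul_emod_self_left,
        Int.ediv_eq_zero_of_lt h0 h1, zero_add, Int.emod_emod_of_dvd _ dvd_rfl]
      exact hk3
    · nlinarith
    · push_cast
      nlinarith

end alg

section germ

variable {D X : Type} [Group D] [MulAction D X] [TopologicalSpace X] [ContinuousConstSMul D X]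

/-- the germ of an element -/
def gm (x : X) (d : D) : (𝓝 x).Germ X := ((fun z => d • z : X → X) : (𝓝 x).Germ X)

theorem gm_eq {x : X} {d e : D} : gm x d = gm x e ↔ ∀ᶠ z in 𝓝 x, d • z = e • z :=
  Filter.Germ.coe_eq

/-- the germs at `x` of the elements of `D` -/
def Om (D : Type) {X : Type} [Group D] [MulAction D X] [TopologicalSpace X] (x : X) : Type :=
  {ω : (𝓝 x).Germ X // ∃ d : D, ω = gm x d}

/-- the stabilizer of the germ of the identity -/
def Sx (D : Type) {X : Type} [Group D] [MulAction D X] [TopologicalSpace X]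
    [ContinuousConstSMul D X] (x : X) : Subgroup D where
  carrier := {d | ∀ᶠ z in 𝓝 x, d • z = z}
  one_mem' := Eventually.of_forall fun z => one_smul D z
  mul_mem' {a b} ha hb := by
    filter_upwards [ha, hb] with z h1 h2
    rw [mul_smul, h2, h1]
  inv_mem' {a} ha := by
    filter_upwards [ha] with z h1
    rw [inv_smul_eq_iff]
    exact h1.symm

theorem mem_Sx {x : X} {d : D} : d ∈ Sx D x ↔ ∀ᶠ z in 𝓝 x, d • z = z := Iff.rfl

theorem gm_eq_iff {x : X} {d e : D} : gm x d = gm x e ↔ d⁻¹ * e ∈ Sx D x := by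
  rw [gm_eq, mem_Sx]
  apply eventually_congr
  filter_upwards with z
  rw [mul_smul, inv_smul_eq_iff]
  exact eq_comm

theorem map_mem {g : Equiv.Perm X} (hg : g ∈ full D X) {x : X} (ω : (𝓝 x).Germ X)
    (h : ∃ d : D, ω = gm x d) : ∃ d : D, ω.map g = gm x d := by
  obtain ⟨d, rfl⟩ := h
  obtain ⟨e, he⟩ := hg (d • x)
  refine ⟨e * d, ?_⟩
  rw [gm, Filter.Germ.map_coe, gm, Filter.Germ.coe_eq]
  have hc : Tendsto (fun z => d • z) (𝓝 x) (𝓝 (d • x)) := (continuous_const_smul d).tendsto x
  filter_upwards [hc.eventually he] with z hz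
  show g (d • z) = (e * d) • z
  rw [hz, mul_smul]

/-- the action of the full group on the germs -/
def rho0 (x : X) : ↥(full D X) →* Equiv.Perm (Om D x) where
  toFun g :=
    { toFun := fun ω => ⟨ω.1.map g.1, map_mem g.2 _ ω.2⟩
      invFun := fun ω => ⟨ω.1.map (g⁻¹).1, map_mem (g⁻¹).2 _ ω.2⟩
      left_inv := fun ω => Subtype.ext (by
        show (ω.1.map g.1).map (g⁻¹).1 = ω.1
        rw [Filter.Germ.map_map]
        have : ((g⁻¹).1 : X → X) ∘ g.1 = id := by
          funext z
          exact g.1.symm_apply_apply z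
        rw [this, Filter.Germ.map_id]
        rfl)
      right_inv := fun ω => Subtype.ext (by
        show (ω.1.map (g⁻¹).1).map g.1 = ω.1
        rw [Filter.Germ.map_map]
        have : (g.1 : X → X) ∘ (g⁻¹).1 = id := by
          funext z
          exact g.1.apply_symm_apply z
        rw [this, Filter.Germ.map_id]
        rfl) }
  map_one' := by
    ext ω
    apply Subtype.ext
    show ω.1.map ((1 : ↥(full D X)).1) = ω.1
    have : ((1 : ↥(full D X)).1 : X → X) = id := rfl
    rw [this, Filter.Germ.map_id]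
    rfl
  map_mul' g h := by
    ext ω
    apply Subtype.ext
    show ω.1.map ((g * h).1) = (ω.1.map h.1).map g.1
    rw [Filter.Germ.map_map]
    rfl

theorem rho0_gm (x : X) (g : ↥(full D X)) (d : D) (e : D)
    (he : ∀ᶠ z in 𝓝 (d • x), g.1 z = e • z) (ω : Om D x) (hω : ω.1 = gm x d) :
    (rho0 x g ω).1 = gm x (e * d) := by
  show ω.1.map g.1 = _
  rw [hω, gm, Filter.Germ.map_coe, gm, Filter.Germ.coe_eq]
  have hc : Tendsto (fun z => d • z) (𝓝 x) (𝓝 (d • x)) := (continuous_const_smul d).tendsto x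
  filter_upwards [hc.eventually he] with z hz
  show g.1 (d • z) = (e * d) • z
  rw [hz, mul_smul]

theorem rho0_eq_one (x : X) (g : ↥(full D X)) :
    rho0 x g = 1 ↔ ∀ d : D, ∀ᶠ z in 𝓝 (d • x), g.1 z = z := by
  constructor
  · intro h d
    have h1 : (rho0 x g ⟨gm x d, d, rfl⟩).1 = gm x d := by
      rw [h]
      rfl
    have h2 : ((gm x d).map g.1) = gm x d := h1
    rw [gm, Filter.Germ.map_coe, Filter.Germ.coe_eq] at h2
    have hc : Tendsto (fun z => d⁻¹ • z) (𝓝 (d • x)) (𝓝 x) := by
      have := (continuous_const_smul d⁻¹).tendsto (d • x)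
      rwa [inv_smul_smul] at this
    filter_upwards [hc.eventually h2] with z hz
    have h3 : g.1 (d • d⁻¹ • z) = d • d⁻¹ • z := hz
    rwa [smul_inv_smul] at h3
  · intro h
    ext ω
    obtain ⟨ω, d, rfl⟩ := ω
    apply Subtype.ext
    have h1 : ∀ᶠ z in 𝓝 (d • x), g.1 z = (1 : D) • z := by
      filter_upwards [h d] with z hz
      rw [one_smul, hz]
    rw [rho0_gm x g d 1 h1 ⟨gm x d, d, rfl⟩ rfl, one_mul]
    rfl

end germ

section key

variable {D X : Type} [Group D] [MulAction D X] [TopologicalSpace X] [ContinuousConstSMul D X]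
  [T2Space X] [CompactSpace X] [TotallyDisconnectedSpace X]

theorem recur {t : D} {M : Set X} (hM : MinSet (Subgroup.zpowers t) M) {x : X} (hx : x ∈ M)
    {U : Set X} (hU : IsOpen U) {n0 : ℤ} (h0 : t ^ n0 • x ∈ U) : ∃ r : ℕ, ∀ n : ℤ, ∃ k : ℤ,
      n ≤ k ∧ k ≤ n + r ∧ t ^ k • x ∈ U := by
  have hinv : ∀ k : ℤ, ∀ y ∈ M, t ^ k • y ∈ M := fun k y hy =>
    hM.2.2.1 ⟨t ^ k, Subgroup.zpow_mem_zpowers t k⟩ y hy
  obtain ⟨B, hB⟩ := visit_bdd t (hM.1.isCompact) hU (fun y hy => by
    obtain ⟨⟨d, hd⟩, hdy⟩ := hM.visit hU ⟨_, hinv n0 x hx, h0⟩ hy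
    obtain ⟨k, rfl⟩ := Subgroup.mem_zpowers_iff.1 hd
    exact ⟨k, hdy⟩)
  refine ⟨2 * B, fun n => ?_⟩
  obtain ⟨k, hk1, hk2, hk3⟩ := hB _ (hinv (n + B) x hx)
  rw [← mul_smul, ← zpow_add] at hk3
  exact ⟨k + (n + B), by omega, by push_cast; omega, hk3⟩

/-- an element which is trivial near a recurrent point commutes with `t`, or the point is
periodic -/
theorem cent_or {t : D} {M : Set X} (hM : MinSet (Subgroup.zpowers t) M) {x : X} (hx : x ∈ M)
    {s : D} (hs : s ∈ Sx D x) {e : ℤ} (he : s * t = t ^ e * s) :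
    e = 1 ∨ ∃ p : ℤ, p ≠ 0 ∧ t ^ p • x = x := by
  by_cases h1 : e = 1
  · exact Or.inl h1
  · right
    obtain ⟨O, hO, hO1, hO2⟩ := mem_nhds_iff.1 (mem_Sx.1 hs)
    obtain ⟨r, hr⟩ := recur hM hx hO1 (n0 := 0) (by rwa [zpow_zero, one_smul])
    obtain ⟨k, hk1, hk2, hk3⟩ := hr 1
    have hpow : ∀ k : ℤ, s * t ^ k = t ^ (e * k) * s := by
      intro k
      have h2 : s * t * s⁻¹ = t ^ e := by rw [he]; group
      have h3 : s * t ^ k * s⁻¹ = t ^ (e * k) := by
        rw [← conj_zpow, h2, ← zpow_mul]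
      rw [← h3]
      group
    have h2 : s • t ^ k • x = t ^ k • x := hO hk3
    have h3 : s • x = x := hO hO2
    rw [← mul_smul, hpow, mul_smul, h3] at h2
    refine ⟨e * k - k, ?_, ?_⟩
    · have h4 : e * k - k = (e - 1) * k := by ring
      rw [h4]
      exact mul_ne_zero (by omega) (by omega)
    · rw [sub_eq_add_neg, add_comm, zpow_add, mul_smul, h2, ← mul_smul, ← zpow_add,
        neg_add_cancel, zpow_zero, one_smul]

/-- **the key lemma** -/
theorem key {C : ∀ (G : Type) [Group G], Prop} (hC : ClosedE C) (t : D)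
    (hn : (Subgroup.zpowers t).Normal) (hfi : (Subgroup.zpowers t).FiniteIndex)
    {M : Set X} (hM : MinSet (Subgroup.zpowers t) M) {x : X} (hx : x ∈ M) :
    ∃ (P : Type) (_ : Group P) (ρ : ↥(full D X) →* P), C P ∧
      ∀ g, ρ g = 1 ↔ ∀ d : D, ∀ᶠ z in 𝓝 (d • x), g.1 z = z := by
  classical
  by_cases hcase : ∃ k : ℤ, k ≠ 0 ∧ t ^ k ∈ Sx D x
  · -- finitely many germs
    obtain ⟨k, hk, hkS⟩ := hcase
    obtain ⟨S, _, hS⟩ := exists_reps t hfi
    have hfin : Finite (Om D x) := by
      have hsurj : Function.Surjective (fun p : S × Set.Ico (0 : ℤ) |k| =>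
          (⟨gm x ((p.1 : D) * t ^ (p.2 : ℤ)), _, rfl⟩ : Om D x)) := by
        rintro ⟨ω, d, rfl⟩
        obtain ⟨s, hs, n, rfl⟩ := hS d
        refine ⟨(⟨s, hs⟩, ⟨n % k, Int.emod_nonneg _ hk, Int.emod_lt_abs _ hk⟩), ?_⟩
        apply Subtype.ext
        show gm x (s * t ^ (n % k)) = gm x (s * t ^ n)
        rw [gm_eq_iff]
        have h1 : (s * t ^ (n % k))⁻¹ * (s * t ^ n) = (t ^ k) ^ (n / k) := by
          have h2 : n = n % k + k * (n / k) := (Int.emod_add_mul_ediv n k).symm
          rw [mul_inv_rev, mul_assoc, inv_mul_cancel_left, ← zpow_neg, ← zpow_add, ← zpow_mul]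
          congr 1
          omega
        rw [h1]
        exact Subgroup.zpow_mem _ hkS _
      exact Finite.of_surjective _ hsurj
    exact ⟨Equiv.Perm (Om D x), inferInstance, rho0 x,
      Pool.Agent.Y430.SS.of_finite hC.base _ inferInstance, rho0_eq_one x⟩
  · have hcase' : ∀ k : ℤ, t ^ k ∈ Sx D x → k = 0 := by
      intro k hk
      by_contra h
      exact hcase ⟨k, h, hk⟩
    -- the stabilizer centralizes `t`
    have hcent : ∀ s ∈ Sx D x, ∀ k : ℤ, s * t ^ k = t ^ k * s := by
      intro s hs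
      obtain ⟨e, he⟩ := Subgroup.mem_zpowers_iff.1 (hn.conj_mem t (Subgroup.mem_zpowers t) s)
      have he' : s * t = t ^ e * s := by rw [he]; group
      have h1 : e = 1 := by
        rcases cent_or hM hx hs he' with h1 | ⟨p, hp, hpx⟩
        · exact h1
        · -- periodic points
          have hpow : s * t ^ (-p) = t ^ (e * (-p)) * s := by
            have h3 : s * t ^ (-p) * s⁻¹ = t ^ (e * (-p)) := by
              rw [← conj_zpow, ← he, ← zpow_mul]
            rw [← h3]
            group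
          have hmem : t ^ p * s * t ^ (-p) ∈ Sx D x := by
            have hc : Tendsto (fun z : X => t ^ (-p) • z) (𝓝 x) (𝓝 x) := by
              have h2 := (continuous_const_smul (t ^ (-p))).tendsto x
              have h3 : t ^ (-p) • x = x := by
                rw [zpow_neg, inv_smul_eq_iff]
                exact hpx.symm
              rwa [h3] at h2
            rw [mem_Sx]
            filter_upwards [hc.eventually (mem_Sx.1 hs)] with z hz
            rw [mul_smul, mul_smul, hz, ← mul_smul, ← zpow_add, add_neg_cancel, zpow_zero,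
              one_smul]
          rw [mul_assoc, hpow, ← mul_assoc, ← zpow_add] at hmem
          have h4 : t ^ (p + e * (-p)) ∈ Sx D x := by
            have := (Sx D x).mul_mem hmem ((Sx D x).inv_mem hs)
            rwa [mul_inv_cancel_right] at this
          have h5 := hcase' _ h4
          have h6 : p * (1 - e) = 0 := by
            rw [← h5]; ring
          rcases mul_eq_zero.1 h6 with h7 | h7
          · exact absurd h7 hp
          · omega
      intro k
      rw [h1, zpow_one] at he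
      have h2 : s * t ^ k * s⁻¹ = t ^ k := by rw [← conj_zpow, ← he]
      calc s * t ^ k = s * t ^ k * s⁻¹ * s := by group
        _ = t ^ k * s := by rw [h2]
    have hrt : ∀ (d e : D) (k : ℤ), gm x d = gm x e → gm x (d * t ^ k) = gm x (e * t ^ k) := by
      intro d e k h
      rw [gm_eq_iff] at h ⊢
      have h1 : (d * t ^ k)⁻¹ * (e * t ^ k) = (t ^ k)⁻¹ * ((d⁻¹ * e) * t ^ k) := by group
      rw [h1, hcent _ h, inv_mul_cancel_left]
      exact h
    -- the cosets of `⟨t⟩ S`
    obtain ⟨T, hT⟩ : ∃ T : Subgroup D, T = Subgroup.zpowers t ⊔ Sx D x := ⟨_, rfl⟩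
    have hTle : Subgroup.zpowers t ≤ T := by rw [hT]; exact le_sup_left
    have hSle : Sx D x ≤ T := by rw [hT]; exact le_sup_right
    have hTmem : ∀ d ∈ T, ∃ (n : ℤ), ∃ s ∈ Sx D x, d = t ^ n * s := by
      intro d hd
      rw [hT] at hd
      obtain ⟨y, hy, z, hz, rfl⟩ := (Subgroup.mem_sup_of_normal_left (hs := hn)).1 hd
      obtain ⟨n, rfl⟩ := Subgroup.mem_zpowers_iff.1 hy
      exact ⟨n, z, hz, rfl⟩
    have hTfi : T.FiniteIndex := Subgroup.finiteIndex_of_le hTle
    have hQ : Finite (D ⧸ T) := Subgroup.finite_quotient_of_finiteIndex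
    obtain ⟨m, ⟨e⟩⟩ := Finite.exists_equiv_fin (D ⧸ T)
    have hm : 0 < m := by
      rcases Nat.eq_zero_or_pos m with h | h
      · subst h
        exact (e (1 : D)).elim0
      · exact h
    have hm' : (m : ℤ) ≠ 0 := by omega
    have hmod : ∀ N : ℤ, (N % m).toNat < m := by
      intro N
      have h1 := Int.emod_nonneg N hm'
      have h2 := Int.emod_lt_of_pos N (b := (m : ℤ)) (by omega)
      omega
    obtain ⟨σ, hσ⟩ : ∃ σ : ℤ → D, ∀ N, σ N = (e.symm ⟨(N % m).toNat, hmod N⟩).out :=
      ⟨_, fun _ => rfl⟩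
    have hσmod : ∀ N N' : ℤ, N % m = N' % m → σ N = σ N' := by
      intro N N' h
      have h1 : (⟨(N % m).toNat, hmod N⟩ : Fin m) = ⟨(N' % m).toNat, hmod N'⟩ :=
        Fin.ext (by
          show (N % m).toNat = (N' % m).toNat
          rw [h])
      rw [hσ, hσ, h1]
    have hσinj : ∀ N N' : ℤ, (σ N)⁻¹ * σ N' ∈ T → N % m = N' % m := by
      intro N N' h
      have h1 : ((σ N : D) : D ⧸ T) = (σ N' : D) := QuotientGroup.eq.2 h
      rw [hσ, hσ, QuotientGroup.out_eq', QuotientGroup.out_eq'] at h1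
      have h2 := congrArg Fin.val (e.symm.injective h1)
      have h3 : (N % m).toNat = (N' % m).toNat := h2
      have h4 := Int.emod_nonneg N hm'
      have h5 := Int.emod_nonneg N' hm'
      omega
    have hσsurj : ∀ d : D, ∃ i : ℤ, 0 ≤ i ∧ i < m ∧ (σ i)⁻¹ * d ∈ T := by
      intro d
      refine ⟨((e (d : D ⧸ T) : Fin m) : ℕ), by omega, by
        have := (e (d : D ⧸ T)).2
        omega, ?_⟩
      rw [← QuotientGroup.eq, hσ, QuotientGroup.out_eq']
      have h1 : (⟨((((e (d : D ⧸ T) : Fin m) : ℕ) : ℤ) % m).toNat, hmod _⟩ : Fin m) =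
          e (d : D ⧸ T) := by
        apply Fin.ext
        show ((((e (d : D ⧸ T) : Fin m) : ℕ) : ℤ) % m).toNat = _
        have h2 := (e (d : D ⧸ T)).2
        rw [Int.emod_eq_of_lt (by omega) (by omega)]
        omega
      rw [h1, e.symm_apply_apply]
    -- the bijection
    obtain ⟨β, hβ⟩ : ∃ β : ℤ → Om D x, ∀ N, (β N).1 = gm x (σ N * t ^ (N / (m : ℤ))) :=
      ⟨fun N => ⟨gm x (σ N * t ^ (N / (m : ℤ))), _, rfl⟩, fun _ => rfl⟩
    have hβinj : Function.Injective β := by
      intro N N' h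
      have h1 : gm x (σ N * t ^ (N / (m : ℤ))) = gm x (σ N' * t ^ (N' / (m : ℤ))) := by
        rw [← hβ, ← hβ, h]
      rw [gm_eq_iff] at h1
      have h2 : (σ N)⁻¹ * σ N' ∈ T := by
        have h3 : (σ N)⁻¹ * σ N' = t ^ (N / (m : ℤ)) * ((σ N * t ^ (N / (m : ℤ)))⁻¹ *
            (σ N' * t ^ (N' / (m : ℤ)))) * (t ^ (N' / (m : ℤ)))⁻¹ := by group
        rw [h3]
        exact T.mul_mem (T.mul_mem (hTle (Subgroup.zpow_mem_zpowers t _)) (hSle h1))
          (T.inv_mem (hTle (Subgroup.zpow_mem_zpowers t _)))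
      have h3 := hσinj _ _ h2
      rw [hσmod _ _ h3, mul_inv_rev, mul_assoc, inv_mul_cancel_left, ← zpow_neg, ← zpow_add]
        at h1
      have h4 := hcase' _ h1
      have h5 := Int.emod_add_mul_ediv N m
      have h6 := Int.emod_add_mul_ediv N' m
      have h7 : N / (m : ℤ) = N' / (m : ℤ) := by omega
      rw [h7] at h5
      omega
    have hβof : ∀ d : D, ∀ i : ℤ, 0 ≤ i → i < m → ∀ n : ℤ, ∀ s ∈ Sx D x, d = σ i * t ^ n * s →
        (β (m * n + i)).1 = gm x d := by
      intro d i hi0 him n s hs hd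
      have h1 : (m * n + i) % (m : ℤ) = i := by
        rw [add_comm, Int.add_mul_emod_self_left, Int.emod_eq_of_lt hi0 him]
      have h2 : (m * n + i) / (m : ℤ) = n := by
        rw [add_comm, Int.add_mul_ediv_left _ _ hm', Int.ediv_eq_zero_of_lt hi0 him, zero_add]
      rw [hβ, h2, hσmod (m * n + i) i (by rw [h1, Int.emod_eq_of_lt hi0 him]), gm_eq_iff, hd]
      have h3 : (σ i * t ^ n)⁻¹ * (σ i * t ^ n * s) = s := by group
      rw [h3]
      exact hs
    have hβsurj : Function.Surjective β := by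
      rintro ⟨ω, d, rfl⟩
      obtain ⟨i, hi0, him, hi⟩ := hσsurj d
      obtain ⟨n, s, hs, hns⟩ := hTmem _ hi
      refine ⟨m * n + i, Subtype.ext (hβof d i hi0 him n s hs ?_)⟩
      rw [mul_assoc, ← hns]
      group
    -- the Boolean algebra
    have hBA : BA (AX t x m) := AX_BA t x hm fun U hU n0 h0 => recur hM hx hU h0
    obtain ⟨b, hb⟩ : ∃ b : ℤ ≃ Om D x, ∀ N, b N = β N :=
      ⟨Equiv.ofBijective β ⟨hβinj, hβsurj⟩, fun _ => rfl⟩
    -- the homomorphism
    have hmemPT : ∀ g : ↥(full D X), b.symm.permCongrHom (rho0 x g) ∈ PT hBA := by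
      intro g
      obtain ⟨c, hc1, hc2, _⟩ := exists_cocycle g.2 isClosed_empty (fun y hy => absurd hy id)
      rw [mem_PT]
      have hΦ : Sim (AX t x m) (fun N : ℤ => (c (σ N • t ^ (N / (m : ℤ)) • x), N % (m : ℤ))) := by
        constructor
        · refine ((lc_finite hc1).prod (Set.finite_Ico (0 : ℤ) m)).subset ?_
          rintro _ ⟨N, rfl⟩
          exact ⟨⟨_, rfl⟩, Int.emod_nonneg N hm', Int.emod_lt_of_pos N (by omega)⟩
        · rintro ⟨f, i⟩
          refine ⟨fun j => if j = i then {y | c (σ i • y) = f} else ∅, fun j => ?_, fun N => ?_⟩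
          · show IsClopen (if j = i then {y | c (σ i • y) = f} else ∅)
            split_ifs
            · exact (hc1.isClopen_fiber f).preimage (continuous_const_smul _)
            · exact isClopen_empty
          · show _ ↔ t ^ (N / (m : ℤ)) • x ∈
              (if N % (m : ℤ) = i then {y | c (σ i • y) = f} else ∅)
            constructor
            · intro hN
              have h1 : c (σ N • t ^ (N / (m : ℤ)) • x) = f := congrArg Prod.fst hN
              have h2 : N % (m : ℤ) = i := congrArg Prod.snd hN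
              rw [if_pos h2]
              show c (σ i • t ^ (N / (m : ℤ)) • x) = f
              rw [← hσmod N i (by rw [← h2, Int.emod_emod_of_dvd _ dvd_rfl])]
              exact h1
            · intro hN
              by_cases h2 : N % (m : ℤ) = i
              · rw [if_pos h2] at hN
                have h1 : c (σ i • t ^ (N / (m : ℤ)) • x) = f := hN
                rw [← hσmod N i (by rw [← h2, Int.emod_emod_of_dvd _ dvd_rfl])] at h1
                exact Prod.ext h1 h2
              · rw [if_neg h2] at hN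
                exact absurd hN id
      refine hΦ.factor hBA ?_
      intro N N' hNN
      have h1 : c (σ N • t ^ (N / (m : ℤ)) • x) = c (σ N' • t ^ (N' / (m : ℤ)) • x) :=
        congrArg Prod.fst hNN
      have h2 : N % (m : ℤ) = N' % (m : ℤ) := congrArg Prod.snd hNN
      -- the values
      have hval : ∀ K : ℤ, (b (b.symm.permCongrHom (rho0 x g) K)).1 =
          gm x (c (σ K • t ^ (K / (m : ℤ)) • x) * (σ K * t ^ (K / (m : ℤ)))) := by
        intro K
        have h3 : b (b.symm.permCongrHom (rho0 x g) K) = rho0 x g (b K) := by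
          show b (b.symm (rho0 x g (b K))) = rho0 x g (b K)
          rw [b.apply_symm_apply]
        rw [h3]
        have h4 : (b K).1 = gm x (σ K * t ^ (K / (m : ℤ))) := by rw [hb, hβ]
        refine rho0_gm x g _ _ ?_ (b K) h4
        rw [mul_smul]
        filter_upwards [hc1.eventually_eq (σ K • t ^ (K / (m : ℤ)) • x)] with z hz
        rw [hc2 z, hz]
      obtain ⟨L, hL⟩ : ∃ L : ℤ, L = b.symm.permCongrHom (rho0 x g) N := ⟨_, rfl⟩
      obtain ⟨j, hj⟩ : ∃ j : ℤ, j = N' / (m : ℤ) - N / (m : ℤ) := ⟨_, rfl⟩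
      have h5 : N' - N = m * j := by
        have h6 := Int.emod_add_mul_ediv N m
        have h7 := Int.emod_add_mul_ediv N' m
        rw [hj, mul_sub]
        omega
      have h8 : b (L + m * j) = b (b.symm.permCongrHom (rho0 x g) N') := by
        apply Subtype.ext
        rw [hval N', hb, hβ]
        have h9 : σ (L + m * j) = σ L := hσmod _ _ (Int.add_mul_emod_self_left _ _ _)
        rw [h9, Int.add_mul_ediv_left _ _ hm', zpow_add, ← mul_assoc, ← h1, ← hσmod N N' h2]
        have h10 : gm x (σ L * t ^ (L / (m : ℤ))) =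
            gm x (c (σ N • t ^ (N / (m : ℤ)) • x) * (σ N * t ^ (N / (m : ℤ)))) := by
          rw [← hval N, ← hL, hb, hβ]
        have h11 := hrt _ _ j h10
        rw [h11]
        congr 1
        rw [mul_assoc, mul_assoc, ← zpow_add, hj]
        congr 3
        ring
      have h12 : L + m * j = b.symm.permCongrHom (rho0 x g) N' := b.injective h8
      rw [← hL, ← h12]
      omega
    refine ⟨↥(PT hBA), inferInstance, ((b.symm.permCongrHom).toMonoidHom.comp
      (rho0 x)).codRestrict (PT hBA) hmemPT, PT_mem hC hBA, fun g => ?_⟩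
    rw [← rho0_eq_one x g]
    constructor
    · intro h
      have h1 := congrArg Subtype.val h
      have h2 : b.symm.permCongrHom (rho0 x g) = 1 := h1
      exact (MulEquiv.map_eq_one_iff _).1 h2
    · intro h
      apply Subtype.ext
      show b.symm.permCongrHom (rho0 x g) = 1
      rw [h, map_one]

end key

end Run7.h909.TF
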