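import Pool.Agent.Run7.h909.TF.Main

/-!
# The kernels die
-/

set_option autoImplicit false

namespace Run7.h909.TF

open Pool.Agent.Y110.FJ Q30.FJ
open Pool.Agent.Y462.SS (Closed)

variable {A : Set (Set ℤ)}

/-! ### cliques in graph products -/

theorem gvert_gsub {V : Type} {Λ : SimpleGraph V} {B : V → Type} [∀ v, Group (B v)] {S : Set V}
    {v : V} (hv : v ∉ S) {x : GrP Λ B} (hx : x ∈ gsub Λ B S) : gvert Λ B v x = 1 := by
  have h1 := gsub_eq (f := gvert Λ B v) (g := 1) (S := S) (by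
    intro w hw a
    have hne : w ≠ v := by
      rintro rfl
      exact hv hw
    exact gvert_of_ne hne a) x hx
  exact h1

theorem clique {V : Type} {Λ : SimpleGraph V} {B : V → Type} [∀ v, Group (B v)] (L : Finset V) :
    (∀ v ∈ L, ∀ w ∈ L, v ≠ w → Λ.Adj v w) → ∀ d ∈ gsub Λ B (L : Set V),
      (∀ v ∈ L, gvert Λ B v d = 1) → d = 1 := by
  classical
  induction L using Finset.induction_on with
  | empty =>
    intro _ d hd _
    have h1 : gsub Λ B ((∅ : Finset V) : Set V) = ⊥ := by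
      rw [gsub, Finset.coe_empty, Subgroup.closure_eq_bot_iff]
      rintro x ⟨v, hv, _⟩
      exact absurd hv (Set.notMem_empty v)
    rw [h1] at hd
    exact hd
  | insert v L hv ih =>
    intro hL d hd hd1
    rw [Finset.coe_insert] at hd
    obtain ⟨l, hl, a, rfl⟩ := gstar (Λ := Λ) (A := B) (v := v) (L := (L : Set V)) (by
      intro w hw
      refine hL v (Finset.mem_insert_self _ _) w (Finset.mem_insert_of_mem hw) ?_
      rintro rfl
      exact hv hw) d hd
    have h1 := hd1 v (Finset.mem_insert_self _ _)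
    rw [map_mul, gvert_of, gvert_gsub (by exact_mod_cast hv) hl, one_mul] at h1
    rw [h1, map_one, mul_one]
    apply ih (fun x hx y hy => hL x (Finset.mem_insert_of_mem hx) y (Finset.mem_insert_of_mem hy))
      l hl
    intro w hw
    have h2 := hd1 w (Finset.mem_insert_of_mem hw)
    rwa [h1, map_one, mul_one] at h2

/-! ### the subgroups given by the translates -/

/-- the vertices given by the translates of the set of division points -/
def lab (k : Idx A) (R : ℕ) : Set (TT k) := {V | ∃ j : ℤ, -R ≤ j ∧ j ≤ R ∧ V.1 = sh k.U j}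

/-- the subgroup generated by their vertex groups -/
abbrev DD (k : Idx A) (R : ℕ) : Subgroup (GrP (Gam k) (fun _ => Multiplicative ℤ)) :=
  gsub (Gam k) (fun _ => Multiplicative ℤ) (lab k R)

theorem lab_finite (k : Idx A) (R : ℕ) : (lab k R).Finite := by
  have h1 : (Set.Icc (-(R : ℤ)) R).Finite := Set.finite_Icc _ _
  have h2 : (lab k R) ⊆ Subtype.val ⁻¹' ((sh k.U) '' (Set.Icc (-(R : ℤ)) R)) := by
    rintro V ⟨j, h3, h4, h5⟩
    exact ⟨j, ⟨h3, h4⟩, h5.symm⟩
  exact ((h1.image _).preimage Subtype.val_injective.injOn).subset h2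

theorem lab_adj {k : Idx A} {R : ℕ} (hg : Gap k.U (2 * R)) {V W : TT k} (hV : V ∈ lab k R)
    (hW : W ∈ lab k R) (hne : V ≠ W) : (Gam k).Adj V W := by
  obtain ⟨j, h1, h2, h3⟩ := hV
  obtain ⟨j', h1', h2', h3'⟩ := hW
  show Disjoint V.1 W.1
  rw [h3, h3']
  apply sh_disj hg h1 h2 h1' h2'
  rintro rfl
  exact hne (Subtype.ext (h3.trans h3'.symm))

theorem pow_lt {V : Set ℤ} {s : Equiv.Perm ℤ} (hs : IsSucc V s) {n : ℤ} (hn : n ∈ V) (k : ℕ) :
    (s ^ (k + 1)) n ∈ V ∧ n < (s ^ (k + 1)) n := by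
  induction k with
  | zero => simpa using ⟨((hs n).2 hn).1, ((hs n).2 hn).2.1⟩
  | succ k ih =>
    rw [pow_succ']
    obtain ⟨h1, h2⟩ := ih
    exact ⟨((hs _).2 h1).1, h2.trans ((hs _).2 h1).2.1⟩

theorem zpow_mem_of {V : Set ℤ} {s : Equiv.Perm ℤ} (hs : IsSucc V s) {n : ℤ} (hn : n ∈ V)
    (k : ℤ) : (s ^ k) n ∈ V := by
  induction k using Int.induction_on with
  | zero => simpa using hn
  | succ k ih =>
    rw [add_comm, zpow_add, zpow_one]
    exact ((hs _).2 ih).1
  | pred k ih =>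
    rw [sub_eq_add_neg, add_comm, zpow_add, zpow_neg_one]
    exact (hs.inv_mem ih).1

theorem zpow_eq {V : Set ℤ} {s : Equiv.Perm ℤ} (hs : IsSucc V s) {n : ℤ} (hn : n ∈ V)
    {k : ℤ} (hk : (s ^ k) n = n) : k = 0 := by
  rcases lt_trichotomy k 0 with h | h | h
  · exfalso
    obtain ⟨m, rfl⟩ : ∃ m : ℕ, k = -((m : ℤ) + 1) := ⟨(-k - 1).toNat, by omega⟩
    have h1 : (s ^ (m + 1)) n = n := by
      have h2 : (s ^ ((m : ℤ) + 1)) ((s ^ (-((m : ℤ) + 1))) n) = (s ^ ((m : ℤ) + 1)) n :=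
        congrArg (fun x => (s ^ ((m : ℤ) + 1)) x) hk
      rw [← Equiv.Perm.mul_apply, ← zpow_add, add_neg_cancel, zpow_zero] at h2
      have h3 : (s ^ (m + 1)) n = (s ^ ((m : ℤ) + 1)) n := by
        rw [← zpow_natCast, Nat.cast_succ]
      rw [h3, ← h2]
      rfl
    exact absurd h1 (pow_lt hs hn m).2.ne'
  · exact h
  · exfalso
    obtain ⟨m, rfl⟩ : ∃ m : ℕ, k = (m : ℤ) + 1 := ⟨(k - 1).toNat, by omega⟩
    have h3 : (s ^ (m + 1)) n = (s ^ ((m : ℤ) + 1)) n := by
      rw [← zpow_natCast, Nat.cast_succ]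
    rw [← h3] at hk
    exact absurd hk (pow_lt hs hn m).2.ne'

theorem ev_inl_of (h : BA A) (k : Idx A) (V : TT k) (a : Multiplicative ℤ) :
    ((ev h k (SemidirectProduct.inl (GrP.of (Gam k) (fun _ => Multiplicative ℤ) V a)) : PT h) :
      Equiv.Perm ℤ) = sc V.1 ^ (Multiplicative.toAdd a) := by
  rw [← gen_zpow (hGam h k), map_zpow, Subgroup.coe_zpow, ev_gn]

/-- the action of the elements of `DD` on the translates -/
theorem DD_act (h : BA A) {k : Idx A} {R : ℕ} (hg : Gap k.U (2 * R)) {V : TT k}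
    (hV : V ∈ lab k R) {d : GrP (Gam k) (fun _ => Multiplicative ℤ)} (hd : d ∈ DD k R) :
    ∀ n ∈ V.1, ((ev h k (SemidirectProduct.inl d) : PT h) : Equiv.Perm ℤ) n =
      (sc V.1 ^ (Multiplicative.toAdd (gvert (Gam k) (fun _ => Multiplicative ℤ) V d))) n := by
  have hs := TU_sc h V.2
  -- the set of the elements with this property is a subgroup
  let M : Subgroup (GrP (Gam k) (fun _ => Multiplicative ℤ)) :=
    { carrier := {d | ∀ n ∈ V.1, ((ev h k (SemidirectProduct.inl d) : PT h) : Equiv.Perm ℤ) n =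
        (sc V.1 ^ (Multiplicative.toAdd (gvert (Gam k) (fun _ => Multiplicative ℤ) V d))) n}
      one_mem' := by
        intro n _
        rw [map_one, map_one, map_one]
        rfl
      mul_mem' := by
        intro x y hx hy n hn
        rw [map_mul, map_mul, map_mul, Subgroup.coe_mul, Equiv.Perm.mul_apply, hy n hn,
          hx _ (zpow_mem_of hs hn _), toAdd_mul, zpow_add, Equiv.Perm.mul_apply]
      inv_mem' := by
        intro x hx n hn
        rw [map_inv, map_inv, map_inv, Subgroup.coe_inv, toAdd_inv, Equiv.Perm.inv_eq_iff_eq,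
          hx _ (zpow_mem_of hs hn _), zpow_neg]
        exact (Equiv.apply_symm_apply _ _).symm }
  have hM : DD k R ≤ M := by
    rw [DD, gsub, Subgroup.closure_le]
    rintro _ ⟨W, hW, a, rfl⟩ n hn
    rw [ev_inl_of]
    by_cases hVW : W = V
    · rw [hVW, gvert_of]
    · rw [gvert_of_ne hVW]
      have h1 : n ∉ W.1 := Set.disjoint_right.1 (lab_adj hg hW hV hVW) hn
      have h2 : sc W.1 n = n := ((TU_sc h W.2) n).1 h1
      have h3 : (sc W.1 ^ (Multiplicative.toAdd a)) n = n :=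
        Equiv.Perm.zpow_apply_eq_self_of_apply_eq_self h2 _
      rw [h3]
      rfl
  exact hM hd

/-- an element of `DD` which preserves the blocks is trivial -/
theorem DD_triv (h : BA A) {k : Idx A} {R : ℕ} (hg : Gap k.U (2 * R))
    {d : GrP (Gam k) (fun _ => Multiplicative ℤ)} (hd : d ∈ DD k R)
    (hp : ((ev h k (SemidirectProduct.inl d) : PT h) : Equiv.Perm ℤ) ∈ PU h k.U) : d = 1 := by
  classical
  obtain ⟨L, hL⟩ := (lab_finite k R).exists_finset_coe
  refine clique L ?_ d (by rw [hL]; exact hd) ?_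
  · intro v hv w hw hvw
    have hv' : v ∈ lab k R := by rw [← hL]; exact hv
    have hw' : w ∈ lab k R := by rw [← hL]; exact hw
    exact lab_adj hg hv' hw' hvw
  · intro v hv
    have hv' : v ∈ lab k R := by rw [← hL]; exact hv
    have hs := TU_sc h v.2
    obtain ⟨n, hn⟩ := TU_nonempty v.2
    have h1 := DD_act h hg hv' hd n hn
    have h2 := hp.2 n
    rw [h1] at h2
    have h3 := TU_inj v.2 (zpow_mem_of hs hn _) hn h2
    exact toAdd_eq_zero.1 (zpow_eq hs hn h3)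

/-- the elements which are a product of an element of `DD` and a permutation -/
def EE (h : BA A) (k : Idx A) (R : ℕ) (x : GG h k) : Prop :=
  ∃ d ∈ DD k R, ∃ p : PP h k, x = SemidirectProduct.inl d * SemidirectProduct.inr p

theorem EE_inr (h : BA A) (k : Idx A) {R R' : ℕ} (c : PP h k)
    (hc : ∀ j : ℤ, -R ≤ j → j ≤ R → ∃ j' : ℤ, -R' ≤ j' ∧ j' ≤ R' ∧ c.1 '' sh k.U j = sh k.U j')
    {x : GG h k} (hx : EE h k R x) : EE h k R' (SemidirectProduct.inr c * x) := by
  obtain ⟨d, hd, p, rfl⟩ := hx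
  refine ⟨gact (hGam h k) c d, ?_, c * p, ?_⟩
  · have h1 : DD k R ≤ (DD k R').comap (gact (K := Multiplicative ℤ) (hGam h k) c).toMonoidHom := by
      rw [DD, gsub, Subgroup.closure_le]
      rintro _ ⟨V, ⟨j, h1, h2, h3⟩, a, rfl⟩
      obtain ⟨j', h4, h5, h6⟩ := hc j h1 h2
      show gact (hGam h k) c (GrP.of (Gam k) (fun _ => Multiplicative ℤ) V a) ∈ DD k R'
      rw [gact_of]
      apply gsub_of
      refine ⟨j', h4, h5, ?_⟩
      rw [coe_smul, h3, h6]
    exact h1 hd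
  · rw [map_mul, ← mul_assoc, ← mul_assoc, SemidirectProduct.inl_aut]
    simp [mul_assoc]

theorem EE_gn (h : BA A) (k : Idx A) {R R' : ℕ} (hR : R ≤ R') {V : TT k} (hV : V ∈ lab k R')
    {x : GG h k} (hx : EE h k R x) : EE h k R' (gn h k V * x) ∧ EE h k R' ((gn h k V)⁻¹ * x) := by
  obtain ⟨d, hd, p, rfl⟩ := hx
  have hd' : d ∈ DD k R' := by
    refine gsub_mono ?_ hd
    rintro W ⟨j, h1, h2, h3⟩
    exact ⟨j, by omega, by omega, h3⟩
  constructor
  · refine ⟨GrP.of (Gam k) (fun _ => Multiplicative ℤ) V (Multiplicative.ofAdd 1) * d,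
      Subgroup.mul_mem _ (gsub_of hV _) hd', p, ?_⟩
    rw [map_mul, mul_assoc]
    rfl
  · refine ⟨(GrP.of (Gam k) (fun _ => Multiplicative ℤ) V (Multiplicative.ofAdd 1))⁻¹ * d,
      Subgroup.mul_mem _ (Subgroup.inv_mem _ (gsub_of hV _)) hd', p, ?_⟩
    rw [map_mul, mul_assoc, map_inv]
    rfl

theorem image_sh {U : Set ℤ} {g : Equiv.Perm ℤ} {j : ℤ} (hg : ∀ b ∈ U, g (b + j) = b + g j) :
    g '' sh U j = sh U (g j) := by
  ext n
  constructor
  · rintro ⟨m, hm, rfl⟩
    have h1 := hg _ (mem_sh.1 hm)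
    rw [sub_add_cancel] at h1
    rw [h1]
    exact add_mem_sh.2 (mem_sh.1 hm)
  · intro hn
    refine ⟨n - g j + j, add_mem_sh.2 (mem_sh.1 hn), ?_⟩
    rw [hg _ (mem_sh.1 hn), sub_add_cancel]

theorem IsSucc.image_self {V : Set ℤ} {s : Equiv.Perm ℤ} (hs : IsSucc V s) {Z : Set ℤ}
    (hZ : Z = V ∨ Disjoint Z V) : s '' Z = Z := by
  rcases hZ with rfl | hZ
  · ext n
    constructor
    · rintro ⟨m, hm, rfl⟩
      exact hs.mem_iff.2 hm
    · intro hn
      exact ⟨s⁻¹ n, (hs.inv_mem hn).1, s.apply_symm_apply n⟩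
  · ext n
    constructor
    · rintro ⟨m, hm, rfl⟩
      rw [(hs m).1 (Set.disjoint_left.1 hZ hm)]
      exact hm
    · intro hn
      exact ⟨n, hn, (hs n).1 (Set.disjoint_left.1 hZ hn)⟩

theorem IsSucc.image_inv_self {V : Set ℤ} {s : Equiv.Perm ℤ} (hs : IsSucc V s) {Z : Set ℤ}
    (hZ : Z = V ∨ Disjoint Z V) : (s⁻¹ : Equiv.Perm ℤ) '' Z = Z := by
  have h1 := hs.image_self hZ
  have h2 : (s⁻¹ : Equiv.Perm ℤ) '' (s '' Z) = Z := by
    rw [← Set.image_comp]
    have h3 : (s⁻¹ : Equiv.Perm ℤ) ∘ s = id := by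
      funext n
      exact s.symm_apply_apply n
    rw [h3, Set.image_id]
  rwa [h1] at h2

/-- the least elements of a transversal in very large blocks -/
theorem mT_eq (h : BA A) (ha : Aper A) (i : Idx A) (V : TT i) : ∃ v0 : ℕ,
    Ev (fun k => ∀ hik : i ≤ k, (mT h hik V).1 = sh k.U v0) := by
  obtain ⟨v, hv, h1, h2⟩ := V.2.2 0
  have hv0 : 0 ≤ v := (h1 0 i.zero).1 le_rfl
  obtain ⟨R, rfl⟩ := Int.eq_ofNat_of_zero_le hv0
  refine ⟨R, ?_⟩
  refine (((ev_set h i.mem R).and h (ev_set h V.2.1 R)).and h (ev_gap ha R)).mono ?_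
  rintro k ⟨⟨hU, hV⟩, hgap⟩ hik
  have hsh := sh_TU h k hgap (j := R) (by omega) le_rfl
  have hsub : sh k.U R ⊆ (mT h hik V).1 := by
    intro n hn
    have hb : n - R ∈ k.U := mem_sh.1 hn
    have hnV : n ∈ V.1 := by
      have := (hV _ hb R (by omega) le_rfl).2 hv
      rwa [sub_add_cancel] at this
    -- `n` and `n - R` are in the same block of `i`
    have hsb : SB i.U (n - R) n := by
      by_contra hc
      obtain ⟨u, hu, hu1, hu2⟩ := (not_SB (by omega)).1 hc
      have h3 := (hU _ hb (u - (n - R)) (by omega) (by omega)).1 (by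
        rw [show n - R + (u - (n - R)) = u by ring]; exact hu)
      have h4 := (h1 _ h3).2 (by omega)
      omega
    refine ⟨hnV, fun w hw hwn hsb' => ?_⟩
    have h5 : n - R ≤ w := (hsb' _ hb).2 (by omega)
    have h6 : SB i.U w n := (hsb.convex h5 hwn.le).symm.trans hsb
    exact hwn.ne (TU_inj V.2 hw hnV h6)
  apply Set.Subset.antisymm _ hsub
  intro n hn
  obtain ⟨w, hw, h3, _⟩ := hsh.2 n
  have h4 := TU_inj (mT h hik V).2 hn (hsub hw) h3
  rw [h4]
  exact hw

theorem ker_aux (h : BA A) (ha : Aper A) (i : Idx A) (x : GG h i) :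
    ∃ R : ℕ, Ev (fun k => ∀ hik : i ≤ k, EE h k R (tr h hik x)) := by
  refine gen_ind (hGam h i) (φ := fun x => ∃ R : ℕ, Ev (fun k => ∀ hik : i ≤ k,
    EE h k R (tr h hik x))) ?_ ?_ ?_ ?_ x
  · refine ⟨0, ⟨i, fun k _ hik => ⟨1, Subgroup.one_mem _, 1, ?_⟩⟩⟩
    rw [map_one, map_one, map_one, one_mul]
  · rintro V x ⟨R, hR⟩
    obtain ⟨v0, hv0⟩ := mT_eq h ha i V
    have hsc := sc_mem h V.2.1 (TU_nonempty V.2)
    obtain ⟨r, hr0, hr⟩ := PT_bdd h hsc
    obtain ⟨r, rfl⟩ := Int.eq_ofNat_of_zero_le hr0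
    refine ⟨R + r + v0, ((((hR.and h hv0).and h (ev_perm h hsc R))).and h
      (ev_gap ha (2 * (R + r + v0)))).mono ?_⟩
    rintro k ⟨⟨⟨h1, h2⟩, h3⟩, hgap⟩ hik
    rw [map_mul, tr_gn, mul_assoc]
    have hlab : mT h hik V ∈ lab k (R + r + v0) := ⟨v0, by omega, by omega, h2 hik⟩
    refine (EE_gn h k le_rfl hlab ?_).1
    refine EE_inr h k (cT h hik V) ?_ (h1 hik)
    intro j hj1 hj2
    have hrj := hr j
    refine ⟨sc V.1 j, by push_cast; omega, by push_cast; omega, ?_⟩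
    have h4 : (cT h hik V).1 = (sc (mT h hik V).1)⁻¹ * sc V.1 := rfl
    rw [h4, Equiv.Perm.coe_mul, Set.image_comp, image_sh fun b hb => h3 b hb j hj1 hj2]
    apply (TU_sc h (mT h hik V).2).image_inv_self
    rw [h2 hik]
    by_cases h5 : sc V.1 j = v0
    · left
      rw [h5]
    · right
      exact sh_disj hgap (by push_cast; omega) (by push_cast; omega) (by push_cast; omega)
        (by push_cast; omega) h5
  · rintro V x ⟨R, hR⟩
    obtain ⟨v0, hv0⟩ := mT_eq h ha i V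
    have hsc := sc_mem h V.2.1 (TU_nonempty V.2)
    have hsc' := (PT h).inv_mem hsc
    obtain ⟨r, hr0, hr⟩ := PT_bdd h hsc'
    obtain ⟨r, rfl⟩ := Int.eq_ofNat_of_zero_le hr0
    refine ⟨R + v0 + r, ((((hR.and h hv0).and h (ev_perm h hsc' (R + v0)))).and h
      (ev_gap ha (2 * (R + v0 + r)))).mono ?_⟩
    rintro k ⟨⟨⟨h1, h2⟩, h3⟩, hgap⟩ hik
    rw [map_mul, map_inv, tr_gn, mul_inv_rev, ← map_inv, mul_assoc]
    have hlab : mT h hik V ∈ lab k (R + v0) := ⟨v0, by omega, by omega, h2 hik⟩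
    refine EE_inr h k (cT h hik V)⁻¹ ?_ (EE_gn h k (by omega) hlab (h1 hik)).2
    intro j hj1 hj2
    have hrj := hr j
    refine ⟨(sc V.1)⁻¹ j, by push_cast at *; omega, by push_cast at *; omega, ?_⟩
    have h4 : ((cT h hik V)⁻¹).1 = (sc V.1)⁻¹ * sc (mT h hik V).1 := by
      show ((sc (mT h hik V).1)⁻¹ * sc V.1)⁻¹ = (sc V.1)⁻¹ * sc (mT h hik V).1
      group
    have h6 : sc (mT h hik V).1 '' sh k.U j = sh k.U j := by
      apply (TU_sc h (mT h hik V).2).image_self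
      rw [h2 hik]
      by_cases h5 : j = v0
      · left
        rw [h5]
      · right
        exact sh_disj hgap (by push_cast at *; omega) (by push_cast at *; omega)
          (by push_cast; omega) (by push_cast; omega) h5
    rw [h4, Equiv.Perm.coe_mul, Set.image_comp, h6, image_sh fun b hb => h3 b hb j hj1 hj2]
  · rintro q x ⟨R, hR⟩
    obtain ⟨r, hr0, hr⟩ := PT_bdd h q.2.1
    obtain ⟨r, rfl⟩ := Int.eq_ofNat_of_zero_le hr0
    refine ⟨R + r, (hR.and h (ev_perm h q.2.1 R)).mono ?_⟩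
    rintro k ⟨h1, h3⟩ hik
    rw [map_mul, tr_inr]
    refine EE_inr h k (iP h hik q) ?_ (h1 hik)
    intro j hj1 hj2
    have hrj := hr j
    refine ⟨q.1 j, by push_cast; omega, by push_cast; omega, ?_⟩
    rw [iP_coe, image_sh fun b hb => h3 b hb j hj1 hj2]

theorem ker_dies (h : BA A) (ha : Aper A) (i : Idx A) (x : GG h i) (hx : ev h i x = 1) :
    ∃ k, ∃ hik : i ≤ k, tr h hik x = 1 := by
  obtain ⟨R, hR⟩ := ker_aux h ha i x
  obtain ⟨k, hik, h1, hgap⟩ := (hR.and h (ev_gap ha (2 * R))).exists h i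
  refine ⟨k, hik, ?_⟩
  obtain ⟨d, hd, p, hdp⟩ := h1 hik
  have h2 : ev h k (tr h hik x) = 1 := by rw [ev_tr, hx]
  rw [hdp, map_mul] at h2
  have h3 : ev h k (SemidirectProduct.inl d) = ev h k (SemidirectProduct.inr p⁻¹) := by
    rw [map_inv, map_inv]
    exact eq_inv_of_mul_eq_one_left h2
  have h4 : d = 1 := by
    apply DD_triv h hgap hd
    rw [h3, ev_inr]
    exact (p⁻¹).2
  rw [h4, map_one, map_one, one_mul] at h2
  have h5 : p = 1 := by
    apply Subtype.ext
    have := congrArg Subtype.val h2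
    rw [ev_inr] at this
    exact this
  rw [hdp, h4, h5, map_one, map_one, one_mul]

/-- the group of piecewise translations is in the class if `A` is not periodic -/
theorem PT_aper {C : ∀ (G : Type) [Group G], Prop} (hC : ClosedE C) (h : BA A) (ha : Aper A) :
    C (PT h) := by
  have hne : Nonempty (Idx A) := ⟨⟨Set.univ, h.univ, trivial⟩⟩
  refine hC.base.colim (Idx A) (Idx.dir h) (GG h) (fun i j hij => tr h hij) (PT h) (ev h)
    (fun i _ x => tr_refl h i x) (fun i j k hij hjk x => tr_tr h hij hjk x)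
    (fun i j hij x => ev_tr h hij x) ?_ (fun i x hx => ker_dies h ha i x hx) (GG_mem hC h)
  rintro ⟨g, hg⟩
  obtain ⟨i, y, ⟨x, rfl⟩, hy⟩ := surj h ha hg
  exact ⟨i, x, Subtype.ext hy⟩

end Run7.h909.TF
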