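import Pool.Agent.Run7.h909.TF.Sys

/-!
# The groups of the system are in the class
-/

set_option autoImplicit false

namespace Run7.h909.TF

open Pool.Agent.Y110.FJ Q30.FJ
open Pool.Agent.Y462.SS (Closed)

variable {A : Set (Set ℤ)}

theorem SB_bdd (h : BA A) {U : Set ℤ} (hU : U ∈ A) (hne : U.Nonempty) :
    ∃ r : ℕ, ∀ n m, SB U n m → m ≤ n + r := by
  obtain ⟨r, hr⟩ := h.synd U hU hne
  refine ⟨r, fun n m hnm => ?_⟩
  by_contra hc
  obtain ⟨x, hx, h1, h2⟩ := hr (n + 1)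
  have := (hnm x hx).2 (by omega)
  omega

/-- the action on a block -/
def blkAct (h : BA A) (U : Set ℤ) (n : ℤ) : PU h U →* Equiv.Perm {m : ℤ // SB U n m} where
  toFun p :=
    { toFun := fun m => ⟨p.1 m.1, m.2.trans (p.2.2 m.1).symm⟩
      invFun := fun m => ⟨p.1⁻¹ m.1, m.2.trans (((PU h U).inv_mem p.2).2 m.1).symm⟩
      left_inv := fun m => Subtype.ext (p.1.symm_apply_apply m.1)
      right_inv := fun m => Subtype.ext (p.1.apply_symm_apply m.1) }
  map_one' := by
    ext m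
    rfl
  map_mul' p q := by
    ext m
    rfl

theorem PU_lf (h : BA A) {U : Set ℤ} (hU : U ∈ A) (hne : U.Nonempty)
    (s : Finset (PU h U)) : Finite (Subgroup.closure (s : Set (PU h U))) := by
  classical
  obtain ⟨r, hr⟩ := SB_bdd h hU hne
  have hι : ∀ n : ℤ, ∃ ι : {m : ℤ // SB U n m} ↪ Fin (2 * r + 1), True := by
    intro n
    refine ⟨⟨fun m => ⟨(m.1 - n + r).toNat, ?_⟩, ?_⟩, trivial⟩
    · have h1 := hr _ _ m.2
      have h2 := hr _ _ m.2.symm
      omega
    · intro a b hab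
      have h1 := congrArg Fin.val hab
      have h1' : (a.1 - n + r).toNat = (b.1 - n + r).toNat := h1
      have h2 := hr _ _ a.2.symm
      have h3 := hr _ _ b.2.symm
      apply Subtype.ext
      omega
  choose ι _ using hι
  obtain ⟨ρ, hρ⟩ : ∃ ρ : PU h U →* (ℤ → Equiv.Perm (Fin (2 * r + 1))), ∀ p n,
      ρ p n = Equiv.Perm.viaEmbeddingHom (ι n) (blkAct h U n p) :=
    ⟨MonoidHom.pi fun n => (Equiv.Perm.viaEmbeddingHom (ι n)).comp (blkAct h U n), fun _ _ => rfl⟩
  have hinj : Function.Injective ρ := by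
    intro p q hpq
    apply Subtype.ext
    ext n
    have h1 := congrFun hpq n
    rw [hρ, hρ] at h1
    have h2 := Equiv.Perm.viaEmbeddingHom_injective (ι n) h1
    have h3 := congrArg (fun e : Equiv.Perm {m : ℤ // SB U n m} => (e ⟨n, SB.refl n⟩).1) h2
    exact h3
  have hfin := Pool.Agent.Y430.SS.t_pow (Equiv.Perm (Fin (2 * r + 1))) ℤ inferInstance
    (s.image ρ)
  have hmap : ∀ x : Subgroup.closure (s : Set (PU h U)), ρ x.1 ∈
      Subgroup.closure ((s.image ρ : Finset _) : Set (ℤ → Equiv.Perm (Fin (2 * r + 1)))) := by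
    intro x
    have h1 : ρ x.1 ∈ (Subgroup.closure (s : Set (PU h U))).map ρ := ⟨x.1, x.2, rfl⟩
    rw [MonoidHom.map_closure] at h1
    rw [Finset.coe_image]
    exact h1
  refine Finite.of_injective (fun x : Subgroup.closure (s : Set (PU h U)) =>
    (⟨ρ x.1, hmap x⟩ : Subgroup.closure ((s.image ρ : Finset _) :
      Set (ℤ → Equiv.Perm (Fin (2 * r + 1)))))) ?_
  intro x y hxy
  exact Subtype.ext (hinj (congrArg Subtype.val hxy))

theorem PU_tor (h : BA A) {U : Set ℤ} (hU : U ∈ A) (hne : U.Nonempty) (p : PU h U) :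
    ∃ k : ℕ, 0 < k ∧ p ^ k = 1 := by
  classical
  have hfin := PU_lf h hU hne {p}
  obtain ⟨k, hk, h1⟩ := isOfFinOrder_iff_pow_eq_one.1 (isOfFinOrder_of_finite
    (⟨p, Subgroup.subset_closure (by simp)⟩ : Subgroup.closure ((({p} : Finset (PU h U)) : Set _))))
  exact ⟨k, hk, congrArg Subtype.val h1⟩

theorem GG_mem {C : ∀ (G : Type) [Group G], Prop} (hC : ClosedE C) (h : BA A) (i : Idx A) :
    C (GG h i) :=
  gw_mem (hGam h i) hC hC.base.int (Pool.Agent.Y430.SS.t_lf C hC.base _ (PU_lf h i.mem i.ne))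
    (PU_tor h i.mem i.ne)

end Run7.h909.TF
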