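import Pool.Agent.Run7.h909.TF.Top

/-!
# Elements of the full group which are trivial near the minimal sets generate finite groups
-/

set_option autoImplicit false
set_option linter.unusedSectionVars false

namespace Run7.h909.TF

open Pool.Agent.R615.SC (full full_continuous)
open Filter Topology

section loc

variable {D X : Type} [Group D] [MulAction D X] [TopologicalSpace X] [ContinuousConstSMul D X]
  [T2Space X] [CompactSpace X] [TotallyDisconnectedSpace X]

instance cont_zpowers (t : D) : ContinuousConstSMul (Subgroup.zpowers t) X where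
  continuous_const_smul c := continuous_const_smul (c : D)

/-- representatives of the cosets -/
theorem exists_reps (t : D) (hfi : (Subgroup.zpowers t).FiniteIndex) :
    ∃ S : Finset D, (1 : D) ∈ S ∧ ∀ d : D, ∃ s ∈ S, ∃ n : ℤ, d = s * t ^ n := by
  classical
  have hfin : Finite (D ⧸ Subgroup.zpowers t) := Subgroup.finite_quotient_of_finiteIndex
  have hft := Fintype.ofFinite (D ⧸ Subgroup.zpowers t)
  refine ⟨insert 1 (Finset.univ.image (fun q : D ⧸ Subgroup.zpowers t => q.out)),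
    Finset.mem_insert_self _ _, fun d => ?_⟩
  have h1 : ((d : D ⧸ Subgroup.zpowers t).out)⁻¹ * d ∈ Subgroup.zpowers t := by
    rw [← QuotientGroup.eq, QuotientGroup.out_eq']
  obtain ⟨n, hn⟩ := Subgroup.mem_zpowers_iff.1 h1
  refine ⟨(d : D ⧸ Subgroup.zpowers t).out, Finset.mem_insert_of_mem
    (Finset.mem_image_of_mem (fun q : D ⧸ Subgroup.zpowers t => q.out) (Finset.mem_univ _)), n, ?_⟩
  rw [hn]
  group

/-- bounded change of the exponents -/
theorem exists_bound (t : D) {S : Finset D} (hS : ∀ d : D, ∃ s ∈ S, ∃ n : ℤ, d = s * t ^ n)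
    (F : Finset D) : ∃ R : ℕ, ∀ f ∈ F, ∀ s ∈ S, ∃ s' ∈ S, ∃ a : ℤ, -R ≤ a ∧ a ≤ R ∧
      f * s = s' * t ^ a := by
  classical
  have h1 : ∀ p : D × D, ∃ s' ∈ S, ∃ a : ℤ, p.1 * p.2 = s' * t ^ a := fun p => hS _
  choose σ hσ α hα using h1
  refine ⟨(F ×ˢ S).sup (fun p => (α p).natAbs), fun f hf s hs => ?_⟩
  have h2 : (α (f, s)).natAbs ≤ (F ×ˢ S).sup (fun p => (α p).natAbs) :=
    Finset.le_sup (f := fun p => (α p).natAbs) (Finset.mem_product.2 ⟨hf, hs⟩)
  exact ⟨σ (f, s), hσ _, α (f, s), by omega, by omega, hα (f, s)⟩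

/-- uniform bounds for visits -/
theorem visit_bdd (t : D) {K U : Set X} (hK : IsCompact K) (hU : IsOpen U)
    (h : ∀ y ∈ K, ∃ k : ℤ, t ^ k • y ∈ U) : ∃ B : ℕ, ∀ y ∈ K, ∃ k : ℤ, -B ≤ k ∧ k ≤ B ∧
      t ^ k • y ∈ U := by
  obtain ⟨s, hs⟩ := hK.elim_finite_subcover (fun k : ℤ => (fun y : X => t ^ k • y) ⁻¹' U)
    (fun k => hU.preimage (continuous_const_smul _))
    (fun y hy => by
      obtain ⟨k, hk⟩ := h y hy
      exact Set.mem_iUnion.2 ⟨k, hk⟩)
  refine ⟨s.sup Int.natAbs, fun y hy => ?_⟩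
  obtain ⟨k, hk⟩ := Set.mem_iUnion.1 (hs hy)
  obtain ⟨hk1, hk2⟩ := Set.mem_iUnion.1 hk
  have h2 : k.natAbs ≤ s.sup Int.natAbs := Finset.le_sup (f := Int.natAbs) hk1
  exact ⟨k, by omega, by omega, hk2⟩

/-- all orbits visit an open set which contains the minimal sets -/
theorem visit_all (t : D) {L U : Set X} (hL : ∀ M, MinSet (Subgroup.zpowers t) M → M ⊆ L)
    (hU : IsOpen U) (hLU : L ⊆ U) (y : X) : ∃ k : ℤ, t ^ k • y ∈ U := by
  by_contra hc
  have hc' : ∀ k : ℤ, t ^ k • y ∉ U := fun k hk => hc ⟨k, hk⟩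
  obtain ⟨M, hM, hM'⟩ := exists_minSet (D := Subgroup.zpowers t)
    (K := ⋂ k : ℤ, (fun z : X => t ^ k • z) ⁻¹' Uᶜ)
    (isClosed_iInter fun k => hU.isClosed_compl.preimage (continuous_const_smul _))
    ⟨y, Set.mem_iInter.2 hc'⟩ (by
      rintro ⟨d, hd⟩ x hx
      obtain ⟨m, rfl⟩ := Subgroup.mem_zpowers_iff.1 hd
      rw [Set.mem_iInter] at hx ⊢
      intro k
      have h1 := hx (k + m)
      show t ^ k • (t ^ m • x) ∈ Uᶜ
      rw [← mul_smul, ← zpow_add]
      exact h1)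
  obtain ⟨z, hz⟩ := hM'.2.1
  have h1 := Set.mem_iInter.1 (hM hz) 0
  have h2 : t ^ (0 : ℤ) • z ∉ U := h1
  rw [zpow_zero, one_smul] at h2
  exact h2 (hLU (hL M hM' hz))

theorem lc_finite {β : Type} {c : X → β} (hc : IsLocallyConstant c) : (Set.range c).Finite :=
  hc.range_finite

/-- **local finiteness** -/
theorem loc_finite (t : D) (hfi : (Subgroup.zpowers t).FiniteIndex) {L : Set X}
    (hL : ∀ M, MinSet (Subgroup.zpowers t) M → M ⊆ L) (hLc : IsClosed L)
    (hinv : ∀ d : D, ∀ x ∈ L, d • x ∈ L) (E : Set (Equiv.Perm X)) (hE : E.Finite)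
    (hEf : ∀ g ∈ E, g ∈ full D X) (hE1 : ∀ g ∈ E, ∀ y ∈ L, ∀ᶠ z in 𝓝 y, g z = z) :
    Finite (Subgroup.closure E) := by
  classical
  obtain ⟨S, h1S, hS⟩ := exists_reps t hfi
  -- close the set under inverses
  obtain ⟨E', hE'⟩ : ∃ E' : Set (Equiv.Perm X), E' = E ∪ E⁻¹ := ⟨_, rfl⟩
  have hE'fin : E'.Finite := by
    rw [hE']
    exact hE.union hE.inv
  have hE'c : ∀ g ∈ E', ∃ c : X → D, IsLocallyConstant c ∧ (∀ x, g x = c x • x) ∧
      ∀ x ∈ L, c x = 1 := by
    intro g hg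
    rw [hE'] at hg
    rcases hg with hg | hg
    · exact exists_cocycle (hEf g hg) hLc (hE1 g hg)
    · have hg' : g⁻¹ ∈ E := hg
      have hgf : g ∈ full D X := by
        have := (full D X).inv_mem (hEf _ hg')
        rwa [inv_inv] at this
      refine exists_cocycle hgf hLc ?_
      intro y hy
      filter_upwards [hE1 _ hg' y hy] with z hz
      rw [Equiv.Perm.inv_eq_iff_eq] at hz
      exact hz.symm
  choose! c hc1 hc2 hc3 using hE'c
  -- the values
  obtain ⟨F, hF⟩ : ∃ F : Finset D, ∀ g ∈ E', ∀ x, c g x ∈ F := by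
    have h1 : (⋃ g ∈ E', Set.range (c g)).Finite :=
      hE'fin.biUnion fun g hg => lc_finite (hc1 g hg)
    exact ⟨h1.toFinset, fun g hg x => h1.mem_toFinset.2
      (Set.mem_biUnion hg (Set.mem_range_self x))⟩
  obtain ⟨R, hR⟩ := exists_bound t hS F
  -- the neighbourhood on which all cocycles are trivial for a long time
  obtain ⟨V, hV⟩ : ∃ V : Set X, V = {x | ∀ g ∈ E', ∀ s ∈ S, ∀ j : ℤ, 0 ≤ j → j ≤ R →
    c g (s • t ^ j • x) = 1} := ⟨_, rfl⟩
  have hVo : IsOpen V := by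
    have : V = ⋂ g ∈ E', ⋂ s ∈ (S : Set D), ⋂ j ∈ Set.Icc (0 : ℤ) R,
        (fun x : X => s • t ^ j • x) ⁻¹' (c g ⁻¹' {1}) := by
      rw [hV]
      ext x
      simp only [Set.mem_iInter, Set.mem_Icc, and_imp, Set.mem_preimage, Set.mem_singleton_iff,
        Finset.mem_coe, Set.mem_ofPred_eq]
    rw [this]
    refine hE'fin.isOpen_biInter fun g hg => S.finite_toSet.isOpen_biInter fun s _ =>
      (Set.finite_Icc _ _).isOpen_biInter fun j _ => ?_
    exact ((hc1 g hg).isOpen_fiber 1).preimage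
      ((continuous_const_smul s).comp (continuous_const_smul (t ^ j)))
  have hLV : L ⊆ V := by
    intro x hx
    rw [hV]
    intro g hg s _ j _ _
    exact hc3 g hg _ (hinv _ _ (hinv _ _ hx))
  obtain ⟨B, hB⟩ := visit_bdd t isCompact_univ hVo (fun y _ => visit_all t hL hVo hLV y)
  -- the exponents are bounded by `N`
  obtain ⟨N, hN⟩ : ∃ N : ℕ, N = 2 * B + 2 * R + 2 := ⟨_, rfl⟩
  -- the patterns
  let pat : X → (E' → S → Set.Icc (-(N : ℤ)) N → D) := fun x g s n => c g (s.1 • t ^ (n : ℤ) • x)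
  have hfE : Finite E' := hE'fin
  have hpatfin : (Set.range pat).Finite := by
    have h1 : IsLocallyConstant pat := by
      rw [IsLocallyConstant.iff_eventually_eq]
      intro x
      have h2 : ∀ᶠ y in 𝓝 x, ∀ (g : E') (s : S) (n : Set.Icc (-(N : ℤ)) N), pat y g s n =
          pat x g s n := by
        rw [eventually_all]
        intro g
        rw [eventually_all]
        intro s
        rw [eventually_all]
        intro n
        have h3 : Continuous (fun y : X => s.1 • t ^ (n : ℤ) • y) :=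
          (continuous_const_smul s.1).comp (continuous_const_smul (t ^ (n : ℤ)))
        exact (((hc1 g g.2).comp_continuous h3).eventually_eq x)
      filter_upwards [h2] with y hy
      funext g s n
      exact hy g s n
    exact lc_finite h1
  have hpat : ∀ x y, pat x = pat y → ∀ g ∈ E', ∀ s ∈ S, ∀ n : ℤ, -N ≤ n → n ≤ N →
      c g (s • t ^ n • x) = c g (s • t ^ n • y) := by
    intro x y hxy g hg s hs n hn1 hn2
    exact congrFun (congrFun (congrFun hxy ⟨g, hg⟩) ⟨s, hs⟩) ⟨n, hn1, hn2⟩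
  -- the main claim
  have main : ∀ w ∈ Subgroup.closure E, ∀ x, ∃ s ∈ S, ∃ n : ℤ,
      ((∀ k : ℤ, 0 < k → t ^ k • x ∈ V → n ≤ k + R) ∧
        (∀ k : ℤ, k < -(R : ℤ) → t ^ k • x ∈ V → k ≤ n)) ∧
      ∀ y, pat x = pat y → w y = s • t ^ n • y := by
    have hbd : ∀ (x : X) (n : ℤ), ((∀ k : ℤ, 0 < k → t ^ k • x ∈ V → n ≤ k + R) ∧
        (∀ k : ℤ, k < -(R : ℤ) → t ^ k • x ∈ V → k ≤ n)) → -(N : ℤ) ≤ n ∧ n ≤ N := by
      intro x n hn
      obtain ⟨k, hk1, hk2, hk3⟩ := hB (t ^ ((B : ℤ) + 1) • x) (Set.mem_univ _)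
      obtain ⟨l, hl1, hl2, hl3⟩ := hB (t ^ (-((B : ℤ) + R + 1)) • x) (Set.mem_univ _)
      rw [← mul_smul, ← zpow_add] at hk3 hl3
      have h1 := hn.1 _ (by omega) hk3
      have h2 := hn.2 _ (by omega) hl3
      subst hN
      push_cast
      constructor <;> omega
    have step : ∀ g ∈ E', ∀ w : Equiv.Perm X, (∀ x, ∃ s ∈ S, ∃ n : ℤ,
        ((∀ k : ℤ, 0 < k → t ^ k • x ∈ V → n ≤ k + R) ∧
          (∀ k : ℤ, k < -(R : ℤ) → t ^ k • x ∈ V → k ≤ n)) ∧
        ∀ y, pat x = pat y → w y = s • t ^ n • y) → ∀ x, ∃ s ∈ S, ∃ n : ℤ,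
        ((∀ k : ℤ, 0 < k → t ^ k • x ∈ V → n ≤ k + R) ∧
          (∀ k : ℤ, k < -(R : ℤ) → t ^ k • x ∈ V → k ≤ n)) ∧
        ∀ y, pat x = pat y → (g * w) y = s • t ^ n • y := by
      intro g hg w hw x
      obtain ⟨s, hs, n, hn, hwy⟩ := hw x
      obtain ⟨hn1, hn2⟩ := hbd x n hn
      by_cases he : c g (s • t ^ n • x) = 1
      · refine ⟨s, hs, n, hn, fun y hy => ?_⟩
        rw [Equiv.Perm.mul_apply, hwy y hy, hc2 g hg, ← hpat x y hy g hg s hs n hn1 hn2, he,
          one_smul]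
      · obtain ⟨s', hs', a, ha1, ha2, ha⟩ := hR _ (hF g hg (s • t ^ n • x)) s hs
        refine ⟨s', hs', a + n, ⟨fun k hk hkV => ?_, fun k hk hkV => ?_⟩, fun y hy => ?_⟩
        · by_contra hc
          have h1 := hn.1 k hk hkV
          apply he
          rw [hV] at hkV
          have h2 := hkV g hg s hs (n - k) (by omega) (by omega)
          rwa [← mul_smul (t ^ (n - k)), ← zpow_add, sub_add_cancel] at h2
        · by_contra hc
          have h1 := hn.2 k hk hkV
          apply he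
          rw [hV] at hkV
          have h2 := hkV g hg s hs (n - k) (by omega) (by omega)
          rwa [← mul_smul (t ^ (n - k)), ← zpow_add, sub_add_cancel] at h2
        · rw [Equiv.Perm.mul_apply, hwy y hy, hc2 g hg, ← hpat x y hy g hg s hs n hn1 hn2,
            ← mul_smul, ha, ← mul_smul, mul_assoc, ← zpow_add, mul_smul]
    intro w hw
    induction hw using Subgroup.closure_induction_left with
    | one =>
      intro x
      refine ⟨1, h1S, 0, ⟨fun k hk _ => by omega, fun k hk _ => by omega⟩, fun y _ => ?_⟩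
      rw [zpow_zero, one_smul, one_smul]
      rfl
    | mul_left g hg w _ ih =>
      exact step g (by rw [hE']; exact Or.inl hg) w ih
    | inv_mul_cancel g hg w _ ih =>
      exact step g⁻¹ (by rw [hE']; exact Or.inr (by simpa using hg)) w ih
  have main' : ∀ (w : Subgroup.closure E) (p : Set.range pat), ∃ q : S × Set.Icc (-(N : ℤ)) N,
      ∀ y, pat y = p.1 → w.1 y = (q.1 : D) • t ^ (q.2 : ℤ) • y := by
    rintro ⟨w, hw⟩ ⟨_, x, rfl⟩
    obtain ⟨s, hs, n, hn, hwy⟩ := main w hw x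
    have hbd : -(N : ℤ) ≤ n ∧ n ≤ N := by
      obtain ⟨k, hk1, hk2, hk3⟩ := hB (t ^ ((B : ℤ) + 1) • x) (Set.mem_univ _)
      obtain ⟨l, hl1, hl2, hl3⟩ := hB (t ^ (-((B : ℤ) + R + 1)) • x) (Set.mem_univ _)
      rw [← mul_smul, ← zpow_add] at hk3 hl3
      have h1 := hn.1 _ (by omega) hk3
      have h2 := hn.2 _ (by omega) hl3
      subst hN
      push_cast
      constructor <;> omega
    exact ⟨(⟨s, hs⟩, ⟨n, hbd⟩), fun y hy => hwy y hy.symm⟩
  choose Φ hΦ using main'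
  have hfr : Finite (Set.range pat) := hpatfin
  refine Finite.of_injective Φ ?_
  intro w w' hww
  apply Subtype.ext
  ext y
  rw [hΦ w ⟨pat y, y, rfl⟩ y rfl, hΦ w' ⟨pat y, y, rfl⟩ y rfl, hww]

end loc

end Run7.h909.TF
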