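import Pool.Agent.Run7.h909.TF.Lfin

/-!
# The group of piecewise translations is the colimit of the system
-/

set_option autoImplicit false

namespace Run7.h909.TF

open Pool.Agent.Y110.FJ Q30.FJ
open Pool.Agent.Y462.SS (Closed)

variable {A : Set (Set ℤ)}

/-- for all sufficiently small members of `A` containing `0` -/
def Ev (P : Idx A → Prop) : Prop := ∃ i0 : Idx A, ∀ i, i0 ≤ i → P i

theorem Ev.and (h : BA A) {P Q : Idx A → Prop} (hP : Ev P) (hQ : Ev Q) :
    Ev (fun i => P i ∧ Q i) := by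
  obtain ⟨i, hi⟩ := hP
  obtain ⟨j, hj⟩ := hQ
  obtain ⟨k, hik, hjk⟩ := Idx.dir h i j
  exact ⟨k, fun l hl => ⟨hi l (hik.trans hl), hj l (hjk.trans hl)⟩⟩

theorem Ev.mono {P Q : Idx A → Prop} (hP : Ev P) (h : ∀ i, P i → Q i) : Ev Q := by
  obtain ⟨i, hi⟩ := hP
  exact ⟨i, fun j hj => h j (hi j hj)⟩

theorem Ev.exists (h : BA A) {P : Idx A → Prop} (hP : Ev P) (i : Idx A) : ∃ k, i ≤ k ∧ P k := by
  obtain ⟨j, hj⟩ := hP
  obtain ⟨k, hik, hjk⟩ := Idx.dir h i j
  exact ⟨k, hik, hj k hjk⟩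

theorem ev_fun (h : BA A) {β : Type} {f : ℤ → β} (hf : Sim A f) (R : ℕ) :
    Ev (A := A) (fun i => ∀ b ∈ i.U, ∀ j : ℤ, -R ≤ j → j ≤ R → f (b + j) = f j) := by
  have hW : Sim A (fun n (k : Fin (2 * R + 1)) => f (n + ((k : ℤ) - R))) := Sim.window h hf _
  refine ⟨⟨_, hW.2 (fun (k : Fin (2 * R + 1)) => f (0 + ((k : ℤ) - R))), rfl⟩, ?_⟩
  intro i hi b hb j hj1 hj2
  have h1 : (fun (k : Fin (2 * R + 1)) => f (b + ((k : ℤ) - R))) =
      (fun (k : Fin (2 * R + 1)) => f (0 + ((k : ℤ) - R))) := hi hb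
  have h2 := congrFun h1 ⟨(j + R).toNat, by omega⟩
  have h3 : (((j + R).toNat : ℕ) : ℤ) - R = j := by omega
  have h4 : f (b + ((((j + R).toNat : ℕ) : ℤ) - R)) = f (0 + ((((j + R).toNat : ℕ) : ℤ) - R)) := h2
  rw [h3, zero_add] at h4
  exact h4

theorem ev_perm (h : BA A) {g : Equiv.Perm ℤ} (hg : g ∈ PT h) (R : ℕ) :
    Ev (A := A) (fun i => ∀ b ∈ i.U, ∀ j : ℤ, -R ≤ j → j ≤ R → g (b + j) = b + g j) := by
  refine (ev_fun h hg R).mono ?_
  intro i hi b hb j h1 h2
  have := hi b hb j h1 h2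
  omega

theorem ev_set (h : BA A) {V : Set ℤ} (hV : V ∈ A) (R : ℕ) :
    Ev (A := A) (fun i => ∀ b ∈ i.U, ∀ j : ℤ, -R ≤ j → j ≤ R → (b + j ∈ V ↔ j ∈ V)) := by
  refine (ev_fun h ((sim_mem h).2 hV) R).mono ?_
  intro i hi b hb j h1 h2
  exact iff_of_eq (hi b hb j h1 h2)

/-- the distance of distinct elements is larger than `R` -/
def Gap (U : Set ℤ) (R : ℕ) : Prop := ∀ b ∈ U, ∀ b' ∈ U, b < b' → b + R < b'

/-- `A` has members containing `0` with arbitrarily large distances -/
def Aper (A : Set (Set ℤ)) : Prop := ∀ R : ℕ, ∃ U ∈ A, (0 : ℤ) ∈ U ∧ Gap U R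

theorem ev_gap (ha : Aper A) (R : ℕ) : Ev (A := A) (fun i => Gap i.U R) := by
  obtain ⟨U, hU, h0, hg⟩ := ha R
  exact ⟨⟨U, hU, h0⟩, fun i hi b hb b' hb' => hg b (hi hb) b' (hi hb')⟩

/-- translates -/
def sh (U : Set ℤ) (j : ℤ) : Set ℤ := {n | n + -j ∈ U}

theorem mem_sh {U : Set ℤ} {j n : ℤ} : n ∈ sh U j ↔ n - j ∈ U := by
  show n + -j ∈ U ↔ n - j ∈ U
  rw [sub_eq_add_neg]

theorem add_mem_sh {U : Set ℤ} {j b : ℤ} : b + j ∈ sh U j ↔ b ∈ U := by
  rw [mem_sh, add_sub_cancel_right]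

theorem sh_TU (h : BA A) (i : Idx A) {R : ℕ} (hg : Gap i.U R) {j : ℤ} (h1 : -R ≤ j) (h2 : j ≤ R) :
    sh i.U j ∈ TU A i.U := by
  refine ⟨h.shift _ i.mem _, fun n => ?_⟩
  obtain ⟨b, hb, hbn, hb'⟩ := exists_prev (n := n + 1) (i.unb h (n + 1)).2
  obtain ⟨c, hc, hnc, hc'⟩ := exists_next (n := n) (i.unb h n).1
  have hbc := hg b hb c hc (by omega)
  by_cases hj : 0 ≤ j
  · refine ⟨b + j, add_mem_sh.2 hb, ?_, ?_⟩
    · intro u hu
      constructor
      · intro h3
        have := hb' u hu (by omega)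
        omega
      · intro h3
        by_contra h4
        have := hc' u hu (by omega)
        omega
    · intro w hw hnw
      rw [mem_sh] at hw
      have h3 : w - j ≤ n := (hnw _ hw).2 (by omega)
      have h4 : w - j ≤ b := hb' _ hw (by omega)
      have h5 : b ≤ w := (hnw _ hb).1 (by omega)
      by_contra hne
      have := hg _ hw b hb (by omega)
      omega
  · refine ⟨c + j, add_mem_sh.2 hc, ?_, ?_⟩
    · intro u hu
      constructor
      · intro h3
        have := hb' u hu (by omega)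
        omega
      · intro h3
        by_contra h4
        have := hc' u hu (by omega)
        omega
    · intro w hw hnw
      rw [mem_sh] at hw
      have h3 : n < w - j := by
        by_contra h4
        have := (hnw _ hw).1 (by omega)
        omega
      have h4 := hc' _ hw h3
      have h5 : w < c := by
        by_contra h6
        have := (hnw _ hc).2 (by omega)
        omega
      by_contra hne
      have := hg c hc _ hw (by omega)
      omega

theorem sh_disj {U : Set ℤ} {R : ℕ} (hg : Gap U (2 * R)) {j j' : ℤ} (h1 : -R ≤ j) (h2 : j ≤ R)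
    (h3 : -R ≤ j') (h4 : j' ≤ R) (hne : j ≠ j') : Disjoint (sh U j) (sh U j') := by
  rw [Set.disjoint_left]
  intro n hn hn'
  rw [mem_sh] at hn hn'
  rcases lt_or_gt_of_ne hne with hlt | hlt
  · have := hg _ hn' _ hn (by omega)
    push_cast at this
    omega
  · have := hg _ hn _ hn' (by omega)
    push_cast at this
    omega

theorem Gap.mono {U : Set ℤ} {R S : ℕ} (hg : Gap U R) (h : S ≤ R) : Gap U S := by
  intro b hb b' hb' hlt
  have := hg b hb b' hb' hlt
  omega

/-! ### surjectivity -/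

/-- the image of a group of the system -/
noncomputable def IM (h : BA A) (i : Idx A) : Subgroup (Equiv.Perm ℤ) := (ev h i).range.map (PT h).subtype

theorem PU_IM (h : BA A) (i : Idx A) {p : Equiv.Perm ℤ} (hp : p ∈ PU h i.U) : p ∈ IM h i :=
  ⟨ev h i (SemidirectProduct.inr ⟨p, hp⟩), ⟨_, rfl⟩, ev_inr h i ⟨p, hp⟩⟩

theorem sc_IM (h : BA A) (i : Idx A) {V : Set ℤ} (hV : V ∈ TU A i.U) : sc V ∈ IM h i :=
  ⟨ev h i (gn h i ⟨V, hV⟩), ⟨_, rfl⟩, ev_gn h i ⟨V, hV⟩⟩

open Classical in
/-- the shift by one block -/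
noncomputable def eps (U : Set ℤ) (j : ℤ) : Equiv.Perm ℤ :=
  if 0 ≤ j then (sc (sh U j))⁻¹ else sc (sh U j)

theorem eps_mem_sh (h : BA A) (i : Idx A) {R : ℕ} (hg : Gap i.U R) {j : ℤ} (h1 : -R ≤ j)
    (h2 : j ≤ R) {n : ℤ} (hn : n ∈ sh i.U j) : eps i.U j n ∈ sh i.U j := by
  have hs := TU_sc h (sh_TU h i hg h1 h2)
  rw [eps]
  split_ifs
  · exact (hs.inv_mem hn).1
  · exact ((hs n).2 hn).1

theorem eps_fix (h : BA A) (i : Idx A) {R : ℕ} (hg : Gap i.U R) {j : ℤ} (h1 : -R ≤ j)
    (h2 : j ≤ R) {n : ℤ} (hn : n ∉ sh i.U j) : eps i.U j n = n := by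
  have hs := TU_sc h (sh_TU h i hg h1 h2)
  rw [eps]
  split_ifs
  · exact hs.inv_not_mem hn
  · exact (hs n).1 hn

theorem eps_IM (h : BA A) (i : Idx A) {R : ℕ} (hg : Gap i.U R) {j : ℤ} (h1 : -R ≤ j)
    (h2 : j ≤ R) : eps i.U j ∈ IM h i := by
  rw [eps]
  split_ifs
  · exact (IM h i).inv_mem (sc_IM h i (sh_TU h i hg h1 h2))
  · exact sc_IM h i (sh_TU h i hg h1 h2)

theorem IM_le (h : BA A) (i : Idx A) : IM h i ≤ PT h := by
  rintro _ ⟨x, _, rfl⟩
  exact x.2

theorem surj_aux (h : BA A) (i : Idx A) {R : ℕ} (hg : Gap i.U (2 * R)) (E : Finset ℤ) :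
    (∀ j ∈ E, -(R : ℤ) ≤ j ∧ j ≤ R) → ∀ q ∈ PT h,
      (∀ n, (∀ j ∈ E, q n ∈ sh i.U j → SB i.U n (eps i.U j (q n))) ∧
        ((∀ j ∈ E, q n ∉ sh i.U j) → SB i.U n (q n))) → q ∈ IM h i := by
  classical
  induction E using Finset.induction_on with
  | empty =>
    intro _ q hq hn
    apply PU_IM
    refine ⟨hq, fun n => ?_⟩
    exact ((hn n).2 (by simp)).symm
  | insert j0 E hj0 ih =>
    intro hE q hq hn
    have hb0 := hE j0 (Finset.mem_insert_self _ _)
    have hg' : Gap i.U R := hg.mono (by omega)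
    have he := eps_IM h i hg' hb0.1 hb0.2
    have hq' : eps i.U j0 * q ∈ IM h i := by
      apply ih (fun j hj => hE j (Finset.mem_insert_of_mem hj)) _
        ((PT h).mul_mem (IM_le h i he) hq)
      intro n
      show (∀ j ∈ E, eps i.U j0 (q n) ∈ sh i.U j → SB i.U n (eps i.U j (eps i.U j0 (q n)))) ∧
        ((∀ j ∈ E, eps i.U j0 (q n) ∉ sh i.U j) → SB i.U n (eps i.U j0 (q n)))
      by_cases hmem : q n ∈ sh i.U j0
      · have h1 := eps_mem_sh h i hg' hb0.1 hb0.2 hmem
        refine ⟨fun j hj h2 => ?_, fun _ => (hn n).1 j0 (Finset.mem_insert_self _ _) hmem⟩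
        have hb := hE j (Finset.mem_insert_of_mem hj)
        have hne : j0 ≠ j := by
          rintro rfl
          exact hj0 hj
        exact absurd h2 (Set.disjoint_left.1 (sh_disj hg hb0.1 hb0.2 hb.1 hb.2 hne) h1)
      · rw [eps_fix h i hg' hb0.1 hb0.2 hmem]
        refine ⟨fun j hj h2 => (hn n).1 j (Finset.mem_insert_of_mem hj) h2, fun h2 => ?_⟩
        apply (hn n).2
        intro j hj
        rcases Finset.mem_insert.1 hj with rfl | hj
        · exact hmem
        · exact h2 j hj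
    have h3 : q = (eps i.U j0)⁻¹ * (eps i.U j0 * q) := by group
    rw [h3]
    exact (IM h i).mul_mem ((IM h i).inv_mem he) hq'

theorem surj (h : BA A) (ha : Aper A) {g : Equiv.Perm ℤ} (hg : g ∈ PT h) :
    ∃ i : Idx A, g ∈ IM h i := by
  classical
  obtain ⟨r, hr0, hr⟩ := PT_bdd h hg
  obtain ⟨R, rfl⟩ := Int.eq_ofNat_of_zero_le hr0
  obtain ⟨i, hi⟩ := (ev_gap ha (2 * R)).and h (ev_perm h ((PT h).inv_mem hg) R)
  refine ⟨i, ?_⟩
  obtain ⟨hgap, hinv⟩ := hi i le_rfl
  refine surj_aux h i hgap ((Finset.Icc (-(R : ℤ)) R).filter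
    (fun j => (0 ≤ j ∧ g⁻¹ j < 0) ∨ (j < 0 ∧ 0 ≤ g⁻¹ j))) ?_ g hg ?_
  · intro j hj
    have := (Finset.mem_filter.1 hj).1
    exact Finset.mem_Icc.1 this
  · intro n
    have hgn : g⁻¹ (g n) = n := g.symm_apply_apply n
    have hrn := hr n
    have hgap' : Gap i.U R := hgap.mono (by omega)
    constructor
    · intro j hj hmem
      obtain ⟨hj1, hj2⟩ := Finset.mem_filter.1 hj
      rw [Finset.mem_Icc] at hj1
      have hs := TU_sc h (sh_TU h i hgap' hj1.1 hj1.2)
      have hb : g n - j ∈ i.U := mem_sh.1 hmem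
      have hn := hinv (g n - j) hb j hj1.1 hj1.2
      rw [sub_add_cancel, hgn] at hn
      rcases hj2 with ⟨h3, h4⟩ | ⟨h3, h4⟩
      · rw [eps, if_pos h3]
        obtain ⟨a1, a2, a3⟩ := hs.inv_mem hmem
        rw [mem_sh] at a1
        have a4 := hgap _ a1 _ hb (by omega)
        push_cast at a4
        intro u hu
        constructor
        · intro h5
          have := a3 (u + j) (add_mem_sh.2 hu) (by omega)
          omega
        · intro h5
          by_contra h6
          have := hgap _ a1 u hu (by omega)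
          push_cast at this
          omega
      · rw [eps, if_neg (by omega)]
        obtain ⟨a1, a2, a3⟩ := (hs _).2 hmem
        rw [mem_sh] at a1
        have a4 := hgap _ hb _ a1 (by omega)
        push_cast at a4
        intro u hu
        constructor
        · intro h5
          by_contra h6
          have := hgap _ hb u hu (by omega)
          push_cast at this
          omega
        · intro h5
          by_contra h6
          have := a3 (u + j) (add_mem_sh.2 hu) (by omega)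
          omega
    · intro hall u hu
      constructor
      · intro h5
        by_contra h6
        have hb1 : -(R : ℤ) ≤ g n - u := by omega
        have hb2 : g n - u ≤ R := by omega
        have h7 := hinv u hu (g n - u) hb1 hb2
        rw [show u + (g n - u) = g n by ring, hgn] at h7
        refine hall (g n - u) ?_ ?_
        · rw [Finset.mem_filter, Finset.mem_Icc]
          exact ⟨⟨hb1, hb2⟩, Or.inr ⟨by omega, by omega⟩⟩
        · rw [mem_sh, show g n - (g n - u) = u by ring]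
          exact hu
      · intro h5
        by_contra h6
        have hb1 : -(R : ℤ) ≤ g n - u := by omega
        have hb2 : g n - u ≤ R := by omega
        have h7 := hinv u hu (g n - u) hb1 hb2
        rw [show u + (g n - u) = g n by ring, hgn] at h7
        refine hall (g n - u) ?_ ?_
        · rw [Finset.mem_filter, Finset.mem_Icc]
          exact ⟨⟨hb1, hb2⟩, Or.inl ⟨by omega, by omega⟩⟩
        · rw [mem_sh, show g n - (g n - u) = u by ring]
          exact hu

end Run7.h909.TF
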