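import Pool.Agent.Run7.h909.TF.Ker

/-!
# The periodic case and the conclusion
-/

set_option autoImplicit false

namespace Run7.h909.TF

open Pool.Agent.Y110.FJ Q30.FJ
open Pool.Agent.Y462.SS (Closed)

variable {A : Set (Set ℤ)}

/-- the periodic sets -/
def Prd : Set (Set ℤ) := {U | ∃ k : ℕ, 0 < k ∧ ∀ n : ℤ, n + k ∈ U ↔ n ∈ U}

theorem prd_mul {U : Set ℤ} {k : ℤ} (h : ∀ n : ℤ, n + k ∈ U ↔ n ∈ U) (m : ℤ) (n : ℤ) :
    n + k * m ∈ U ↔ n ∈ U := by
  induction m using Int.induction_on with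
  | zero => simp
  | succ m ih =>
    rw [show n + k * ((m : ℤ) + 1) = n + k * m + k by ring, h]
    exact ih
  | pred m ih =>
    rw [← h (n + k * (-(m : ℤ) - 1)), show n + k * (-(m : ℤ) - 1) + k = n + k * -(m : ℤ) by ring]
    exact ih

theorem prd_BA : BA Prd where
  univ := ⟨1, one_pos, fun _ => by simp⟩
  compl := by
    rintro U ⟨k, hk, h⟩
    exact ⟨k, hk, fun n => not_congr (h n)⟩
  inter := by
    rintro U ⟨k, hk, h⟩ V ⟨l, hl, h'⟩
    refine ⟨k * l, Nat.mul_pos hk hl, fun n => ?_⟩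
    have h1 := prd_mul h l n
    have h2 := prd_mul h' k n
    have h3 : n + ((k * l : ℕ) : ℤ) = n + (k : ℤ) * l := by push_cast; ring
    have h4 : n + ((k * l : ℕ) : ℤ) = n + (l : ℤ) * k := by push_cast; ring
    constructor
    · rintro ⟨a, b⟩
      exact ⟨h1.1 (h3 ▸ a), h2.1 (h4 ▸ b)⟩
    · rintro ⟨a, b⟩
      exact ⟨h3 ▸ h1.2 a, h4 ▸ h2.2 b⟩
  shift := by
    rintro U ⟨k, hk, h⟩ j
    refine ⟨k, hk, fun n => ?_⟩
    show n + k + j ∈ U ↔ n + j ∈ U
    rw [show n + (k : ℤ) + j = n + j + k by ring]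
    exact h _
  synd := by
    rintro U ⟨k, hk, h⟩ ⟨u, hu⟩
    refine ⟨k, fun n => ?_⟩
    refine ⟨u + k * (-((u - n) / k)), (prd_mul h _ _).2 hu, ?_, ?_⟩
    · have h1 := Int.emod_add_mul_ediv (u - n) k
      have h2 := Int.emod_nonneg (u - n) (b := (k : ℤ)) (by omega)
      have h3 : (k : ℤ) * (-((u - n) / k)) = -(k * ((u - n) / k)) := by ring
      omega
    · have h1 := Int.emod_add_mul_ediv (u - n) k
      have h2 := Int.emod_lt_of_pos (u - n) (b := (k : ℤ)) (by omega)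
      have h3 : (k : ℤ) * (-((u - n) / k)) = -(k * ((u - n) / k)) := by ring
      omega

theorem prd_aper : Aper Prd := by
  intro R
  refine ⟨{n | ((R : ℤ) + 1) ∣ n}, ⟨R + 1, by omega, fun n => ?_⟩, ?_, ?_⟩
  · show ((R : ℤ) + 1) ∣ n + ((R + 1 : ℕ) : ℤ) ↔ ((R : ℤ) + 1) ∣ n
    push_cast
    exact (Int.dvd_add_left (dvd_refl _))
  · exact dvd_zero _
  · intro b hb b' hb' hlt
    have h1 : ((R : ℤ) + 1) ∣ b' - b := dvd_sub hb' hb
    have h2 := Int.le_of_dvd (by omega) h1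
    omega

/-- if `A` is not aperiodic then all its members have a common period -/
theorem periodic (h : BA A) (hn : ¬ Aper A) : ∃ k : ℕ, 0 < k ∧ ∀ U ∈ A, ∀ n : ℤ,
    n + k ∈ U ↔ n ∈ U := by
  classical
  obtain ⟨R, hR⟩ := not_forall.1 hn
  have hR' : ∀ U ∈ A, (0 : ℤ) ∈ U → ∃ b ∈ U, ∃ k : ℕ, 0 < k ∧ k ≤ R ∧ b + k ∈ U := by
    intro U hU h0
    by_contra hc
    apply hR
    refine ⟨U, hU, h0, fun b hb b' hb' hlt => ?_⟩
    by_contra hlt'
    apply hc
    refine ⟨b, hb, (b' - b).toNat, by omega, by omega, ?_⟩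
    rw [show b + (((b' - b).toNat : ℕ) : ℤ) = b' by omega]
    exact hb'
  -- a common distance
  obtain ⟨k, hk, hkR, hkU⟩ : ∃ k : ℕ, 0 < k ∧ k ≤ R ∧ ∀ U ∈ A, (0 : ℤ) ∈ U →
      ∃ b ∈ U, b + k ∈ U := by
    by_contra hc
    have hc' : ∀ k : ℕ, ∃ U ∈ A, (0 : ℤ) ∈ U ∧ (0 < k → k ≤ R → ∀ b ∈ U, b + k ∉ U) := by
      intro k
      by_cases hk : 0 < k ∧ k ≤ R
      · by_contra hc2
        apply hc
        refine ⟨k, hk.1, hk.2, fun U hU h0 => ?_⟩
        by_contra hc3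
        apply hc2
        refine ⟨U, hU, h0, fun _ _ b hb hb' => hc3 ⟨b, hb, hb'⟩⟩
      · exact ⟨Set.univ, h.univ, trivial, fun h1 h2 => absurd ⟨h1, h2⟩ hk⟩
    choose W hW hW0 hWk using hc'
    have hI := h.biInter (Set.Iic R) (Set.finite_Iic R) W (fun k _ => hW k)
    obtain ⟨b, hb, k, hk, hkR, hbk⟩ := hR' _ hI (by
      simp only [Set.mem_iInter]
      exact fun k _ => hW0 k)
    rw [Set.mem_iInter₂] at hb hbk
    exact hWk k hk hkR b (hb k hkR) (hbk k hkR)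
  refine ⟨k, hk, fun U hU n => ?_⟩
  -- the set of the defects
  by_contra hne
  have hZ : {m : ℤ | ¬ (m + k ∈ U ↔ m ∈ U)} ∈ A := by
    have h1 : Sim A (fun m => ((m + k ∈ U : Prop), (m ∈ U : Prop))) :=
      (Sim.shift h ((sim_mem h).2 hU) k).pair h ((sim_mem h).2 hU)
    exact h1.pre h {p | ¬ (p.1 ↔ p.2)}
  obtain ⟨r, hr⟩ := h.synd _ hZ ⟨n, hne⟩
  obtain ⟨i0, hi0⟩ := ev_set h hU (r + k)
  obtain ⟨b, hb, hbk⟩ := hkU _ i0.mem i0.zero
  obtain ⟨m, hm, hm1, hm2⟩ := hr b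
  have h1 := hi0 i0 le_rfl b hb (m + k - b) (by push_cast; omega) (by push_cast; omega)
  have h2 := hi0 i0 le_rfl (b + k) hbk (m - b) (by push_cast; omega) (by push_cast; omega)
  have h3 := hi0 i0 le_rfl b hb (m - b) (by push_cast; omega) (by push_cast; omega)
  rw [show b + (m + k - b) = m + k by ring] at h1
  rw [show b + k + (m - b) = m + k by ring] at h2
  rw [show b + (m - b) = m by ring] at h3
  exact hm (h2.trans h3.symm)

/-- **the group of piecewise translations with pieces in `A` is in the class** -/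
theorem PT_mem {C : ∀ (G : Type) [Group G], Prop} (hC : ClosedE C) (h : BA A) : C (PT h) := by
  by_cases ha : Aper A
  · exact PT_aper hC h ha
  · obtain ⟨k, hk, hper⟩ := periodic h ha
    have hle : PT h ≤ PT prd_BA := by
      intro g hg
      exact ⟨hg.1, fun b => ⟨k, hk, fun n => hper _ (hg.2 b) n⟩⟩
    exact hC.base.of_injective _ _ (Subgroup.inclusion hle) (Subgroup.inclusion_injective hle)
      (PT_aper hC prd_BA prd_aper)

end Run7.h909.TF
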