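import Pool.Agent.Run7.h909.TF.Blk
import Pool.Agent.Run7.h909.TF.Gact

/-!
# The directed system
-/

set_option autoImplicit false

namespace Run7.h909.TF

open Pool.Agent.Y110.FJ Q30.FJ
open Pool.Agent.Y462.SS (Closed)

variable {A : Set (Set ℤ)}

/-- the members of `A` which contain `0` -/
structure Idx (A : Set (Set ℤ)) where
  U : Set ℤ
  mem : U ∈ A
  zero : (0 : ℤ) ∈ U

instance : Preorder (Idx A) where
  le i j := j.U ⊆ i.U
  le_refl _ := Set.Subset.rfl
  le_trans _ _ _ h1 h2 := Set.Subset.trans h2 h1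

theorem Idx.dir (h : BA A) (i j : Idx A) : ∃ k, i ≤ k ∧ j ≤ k :=
  ⟨⟨i.U ∩ j.U, h.inter _ i.mem _ j.mem, ⟨i.zero, j.zero⟩⟩, Set.inter_subset_left,
    Set.inter_subset_right⟩

theorem Idx.ne (i : Idx A) : i.U.Nonempty := ⟨0, i.zero⟩

theorem Idx.unb (h : BA A) (i : Idx A) : Unb i.U := h.unb i.mem i.ne

/-- the transversals -/
abbrev TT (i : Idx A) : Type := ↥(TU A i.U)

/-- the group of permutations preserving the blocks -/
abbrev PP (h : BA A) (i : Idx A) : Type := ↥(PU h i.U)

instance actPT (h : BA A) (i : Idx A) : MulAction (PP h i) (TT i) where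
  smul p V := ⟨p.1 '' V.1, PU_TU V.2 p.2⟩
  one_smul V := Subtype.ext (by
    show (1 : Equiv.Perm ℤ) '' V.1 = V.1
    simp)
  mul_smul p q V := Subtype.ext (by
    show (p.1 * q.1) '' V.1 = p.1 '' (q.1 '' V.1)
    rw [← Set.image_comp]
    rfl)

theorem coe_smul (h : BA A) (i : Idx A) (p : PP h i) (V : TT i) :
    ((p • V : TT i) : Set ℤ) = p.1 '' V.1 := rfl

/-- disjointness of transversals -/
def Gam (i : Idx A) : SimpleGraph (TT i) where
  Adj V W := Disjoint V.1 W.1
  symm := ⟨fun _ _ h => h.symm⟩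
  loopless := ⟨fun V h => by
    obtain ⟨x, hx⟩ := TU_nonempty V.2
    exact Set.disjoint_left.1 h hx hx⟩

theorem hGam (h : BA A) (i : Idx A) (p : PP h i) (V W : TT i) (hVW : (Gam i).Adj V W) :
    (Gam i).Adj (p • V) (p • W) := by
  show Disjoint (p.1 '' V.1) (p.1 '' W.1)
  exact (Set.disjoint_image_iff p.1.injective).2 hVW

/-- the groups of the system -/
abbrev GG (h : BA A) (i : Idx A) : Type :=
  GrP (Gam i) (fun _ => Multiplicative ℤ) ⋊[gact (hGam h i)] (PP h i)

/-- the generators -/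
noncomputable abbrev gn (h : BA A) (i : Idx A) (V : TT i) : GG h i := gen (hGam h i) V

/-- the homomorphism to the group of piecewise translations -/
noncomputable def ev (h : BA A) (i : Idx A) : GG h i →* ↥(PT h) :=
  mkZ (hGam h i) (fun V => ⟨sc V.1, sc_mem h V.2.1 (TU_nonempty V.2)⟩)
    (Subgroup.inclusion (fun _ hp => hp.1))
    (by
      intro V W hVW
      apply Subtype.ext
      exact (TU_sc h V.2).comm (TU_sc h W.2) hVW)
    (by
      intro p V
      apply Subtype.ext
      exact PU_sc V.2 p.2)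

theorem ev_gn (h : BA A) (i : Idx A) (V : TT i) : ((ev h i (gn h i V) : PT h) : Equiv.Perm ℤ) =
    sc V.1 := by
  rw [ev, gn, mkZ_gen]

theorem ev_inr (h : BA A) (i : Idx A) (p : PP h i) :
    ((ev h i (SemidirectProduct.inr p) : PT h) : Equiv.Perm ℤ) = p.1 := by
  rw [ev, mkZ_inr]
  rfl

theorem meets {i j : Idx A} (hij : i ≤ j) (V : TT i) (n : ℤ) : ∃ v ∈ V.1, SB j.U n v := by
  obtain ⟨v, hv, h1, _⟩ := V.2.2 n
  exact ⟨v, hv, h1.mono hij⟩

/-- the least elements -/
def mT (h : BA A) {i j : Idx A} (hij : i ≤ j) (V : TT i) : TT j :=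
  ⟨mn j.U V.1, mn_TU h j.mem j.ne V.2.1 (meets hij V)⟩

/-- the correcting permutation -/
noncomputable def cT (h : BA A) {i j : Idx A} (hij : i ≤ j) (V : TT i) : PP h j :=
  ⟨(sc (mn j.U V.1))⁻¹ * sc V.1, cyc_mem h j.mem j.ne V.2.1 (meets hij V)⟩

theorem cT_fix (h : BA A) {i j : Idx A} (hij : i ≤ j) (V : TT i) {n : ℤ} (hn : n ∉ V.1) :
    (cT h hij V).1 n = n := by
  show (sc (mn j.U V.1))⁻¹ (sc V.1 n) = n
  rw [((TU_sc h V.2) n).1 hn]
  exact (TU_sc h (mT h hij V).2).inv_not_mem fun h1 => hn h1.1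

theorem cT_comm (h : BA A) {i j : Idx A} (hij : i ≤ j) {V W : TT i} (hVW : (Gam i).Adj V W) :
    Commute (cT h hij V) (cT h hij W) := by
  apply Subtype.ext
  have hd : Disjoint V.1 W.1 := hVW
  have s1 := TU_sc h V.2
  have s2 := TU_sc h W.2
  have s3 := TU_sc h (mT h hij V).2
  have s4 := TU_sc h (mT h hij W).2
  have m1 : mn j.U V.1 ⊆ V.1 := mn_sub _ _
  have m2 : mn j.U W.1 ⊆ W.1 := mn_sub _ _
  have c1 : Commute (sc V.1) (sc W.1) := s1.comm s2 hd
  have c2 : Commute (sc V.1) (sc (mn j.U W.1)) := s1.comm s4 (hd.mono_right m2)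
  have c3 : Commute (sc (mn j.U V.1)) (sc W.1) := s3.comm s2 (hd.mono_left m1)
  have c4 : Commute (sc (mn j.U V.1)) (sc (mn j.U W.1)) := s3.comm s4 (hd.mono m1 m2)
  exact ((c4.inv_left.inv_right).mul_right c3.inv_left).mul_left (c2.inv_right.mul_right c1)

theorem cT_smul (h : BA A) {i j : Idx A} (hij : i ≤ j) {V W : TT i} (hVW : (Gam i).Adj V W) :
    cT h hij V • mT h hij W = mT h hij W := by
  apply Subtype.ext
  have hd : Disjoint V.1 W.1 := hVW
  ext n
  constructor
  · rintro ⟨w, hw, rfl⟩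
    rw [cT_fix h hij V (Set.disjoint_right.1 hd hw.1)]
    exact hw
  · intro hn
    exact ⟨n, hn, cT_fix h hij V (Set.disjoint_right.1 hd hn.1)⟩

theorem mT_adj (h : BA A) {i j : Idx A} (hij : i ≤ j) {V W : TT i} (hVW : (Gam i).Adj V W) :
    (Gam j).Adj (mT h hij V) (mT h hij W) := by
  have hd : Disjoint V.1 W.1 := hVW
  exact hd.mono (mn_sub _ _) (mn_sub _ _)

/-- inclusion of the groups of permutations -/
def iP (h : BA A) {i j : Idx A} (hij : i ≤ j) : PP h i →* PP h j :=
  Subgroup.inclusion (PU_mono hij)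

theorem iP_coe (h : BA A) {i j : Idx A} (hij : i ≤ j) (p : PP h i) : (iP h hij p).1 = p.1 := rfl

theorem mT_smul (h : BA A) {i j : Idx A} (hij : i ≤ j) (p : PP h i) (V : TT i) :
    iP h hij p • mT h hij V = mT h hij (p • V) := by
  apply Subtype.ext
  exact (mn_image hij V.2 p.2).symm

theorem cT_conj (h : BA A) {i j : Idx A} (hij : i ≤ j) (p : PP h i) (V : TT i) :
    iP h hij p * cT h hij V * (iP h hij p)⁻¹ = cT h hij (p • V) := by
  apply Subtype.ext
  show p.1 * ((sc (mn j.U V.1))⁻¹ * sc V.1) * p.1⁻¹ =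
    (sc (mn j.U (p.1 '' V.1)))⁻¹ * sc (p.1 '' V.1)
  have h1 : p.1 * sc (mn j.U V.1) * p.1⁻¹ = sc (p.1 '' mn j.U V.1) :=
    PU_sc (mT h hij V).2 (iP h hij p).2
  rw [mn_image hij V.2 p.2, ← PU_sc V.2 p.2, ← h1]
  group

/-- the images of the generators -/
noncomputable def gT (h : BA A) {i j : Idx A} (hij : i ≤ j) (V : TT i) : GG h j :=
  gn h j (mT h hij V) * SemidirectProduct.inr (cT h hij V)

theorem inr_gn_comm (h : BA A) (j : Idx A) (p : PP h j) (V : TT j) (hp : p • V = V) :
    Commute (SemidirectProduct.inr p : GG h j) (gn h j V) := by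
  have h1 := gen_conj (hGam h j) p V
  rw [hp, mul_inv_eq_iff_eq_mul] at h1
  exact h1

theorem gT_comm (h : BA A) {i j : Idx A} (hij : i ≤ j) (V W : TT i) (hVW : (Gam i).Adj V W) :
    gT h hij V * gT h hij W = gT h hij W * gT h hij V := by
  have hWV : (Gam i).Adj W V := hVW.symm
  have c1 : Commute (gn h j (mT h hij V)) (gn h j (mT h hij W)) :=
    gen_comm (hGam h j) (mT_adj h hij hVW)
  have c2 : Commute (gn h j (mT h hij V)) (SemidirectProduct.inr (cT h hij W)) :=
    (inr_gn_comm h j _ _ (cT_smul h hij hWV)).symm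
  have c3 : Commute (SemidirectProduct.inr (cT h hij V)) (gn h j (mT h hij W)) :=
    inr_gn_comm h j _ _ (cT_smul h hij hVW)
  have c4 : Commute (SemidirectProduct.inr (cT h hij V) : GG h j)
      (SemidirectProduct.inr (cT h hij W)) := (cT_comm h hij hVW).map _
  exact (c1.mul_right c2).mul_left (c3.mul_right c4)

theorem gT_conj (h : BA A) {i j : Idx A} (hij : i ≤ j) (p : PP h i) (V : TT i) :
    (SemidirectProduct.inr.comp (iP h hij) : PP h i →* GG h j) p * gT h hij V *
      ((SemidirectProduct.inr.comp (iP h hij) : PP h i →* GG h j) p)⁻¹ = gT h hij (p • V) := by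
  show SemidirectProduct.inr (iP h hij p) * (gn h j (mT h hij V) *
    SemidirectProduct.inr (cT h hij V)) * (SemidirectProduct.inr (iP h hij p))⁻¹ =
      gn h j (mT h hij (p • V)) * SemidirectProduct.inr (cT h hij (p • V))
  rw [← mT_smul, ← cT_conj, gn, gn, ← gen_conj, map_mul, map_mul, map_inv]
  group

/-- the structure maps -/
noncomputable def tr (h : BA A) {i j : Idx A} (hij : i ≤ j) : GG h i →* GG h j :=
  mkZ (hGam h i) (gT h hij) (SemidirectProduct.inr.comp (iP h hij)) (gT_comm h hij)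
    (gT_conj h hij)

theorem tr_gn (h : BA A) {i j : Idx A} (hij : i ≤ j) (V : TT i) :
    tr h hij (gn h i V) = gn h j (mT h hij V) * SemidirectProduct.inr (cT h hij V) := by
  rw [tr, gn, mkZ_gen]
  rfl

theorem tr_inr (h : BA A) {i j : Idx A} (hij : i ≤ j) (p : PP h i) :
    tr h hij (SemidirectProduct.inr p) = SemidirectProduct.inr (iP h hij p) := by
  rw [tr, mkZ_inr]
  rfl

theorem tr_refl (h : BA A) (i : Idx A) (x : GG h i) : tr h (le_refl i) x = x := by
  have h1 : tr h (le_refl i) = MonoidHom.id _ := by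
    apply zed_ext
    · intro V
      have h2 : mT h (le_refl i) V = V := Subtype.ext (mn_self V.2)
      have h3 : cT h (le_refl i) V = 1 := by
        apply Subtype.ext
        show (sc (mn i.U V.1))⁻¹ * sc V.1 = 1
        rw [mn_self V.2]
        group
      have h4 := tr_gn h (le_refl i) V
      rw [h2, h3, map_one, mul_one] at h4
      exact h4
    · intro p
      rw [tr_inr]
      rfl
  rw [h1]
  rfl

theorem tr_tr (h : BA A) {i j k : Idx A} (hij : i ≤ j) (hjk : j ≤ k) (x : GG h i) :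
    tr h hjk (tr h hij x) = tr h (hij.trans hjk) x := by
  have h1 : (tr h hjk).comp (tr h hij) = tr h (hij.trans hjk) := by
    apply zed_ext
    · intro V
      show tr h hjk (tr h hij (gn h i V)) = tr h (hij.trans hjk) (gn h i V)
      rw [tr_gn, map_mul, tr_gn, tr_inr, tr_gn]
      have h2 : mT h hjk (mT h hij V) = mT h (hij.trans hjk) V :=
        Subtype.ext (mn_mn (j.unb h) hjk)
      have h3 : cT h hjk (mT h hij V) * iP h hjk (cT h hij V) = cT h (hij.trans hjk) V := by
        apply Subtype.ext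
        show (sc (mn k.U (mn j.U V.1)))⁻¹ * sc (mn j.U V.1) * ((sc (mn j.U V.1))⁻¹ * sc V.1) =
          (sc (mn k.U V.1))⁻¹ * sc V.1
        rw [mn_mn (j.unb h) hjk]
        group
      rw [h2, mul_assoc, ← map_mul, h3]
    · intro p
      show tr h hjk (tr h hij (SemidirectProduct.inr p)) = tr h (hij.trans hjk) (SemidirectProduct.inr p)
      rw [tr_inr, tr_inr, tr_inr]
      rfl
  exact DFunLike.congr_fun h1 x

theorem ev_tr (h : BA A) {i j : Idx A} (hij : i ≤ j) (x : GG h i) :
    ev h j (tr h hij x) = ev h i x := by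
  have h1 : (ev h j).comp (tr h hij) = ev h i := by
    apply zed_ext
    · intro V
      show ev h j (tr h hij (gn h i V)) = ev h i (gn h i V)
      apply Subtype.ext
      rw [tr_gn, map_mul, Subgroup.coe_mul, ev_gn, ev_inr, ev_gn]
      show sc (mn j.U V.1) * ((sc (mn j.U V.1))⁻¹ * sc V.1) = sc V.1
      group
    · intro p
      show ev h j (tr h hij (SemidirectProduct.inr p)) = ev h i (SemidirectProduct.inr p)
      apply Subtype.ext
      rw [tr_inr, ev_inr, ev_inr]
      rfl
  exact DFunLike.congr_fun h1 x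

end Run7.h909.TF
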