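import Pool.Agent.Run7.h909.TF.Per
import Pool.Agent.R615.SC.Full

/-!
# Actions on compact totally disconnected spaces: minimal sets and locally constant cocycles
-/

set_option autoImplicit false
set_option linter.unusedSectionVars false

namespace Run7.h909.TF

open Pool.Agent.R615.SC (full full_continuous)
open Filter Topology

/-- the minimal nonempty closed invariant sets -/
def MinSet (D : Type) {X : Type} [Group D] [MulAction D X] [TopologicalSpace X] (M : Set X) :
    Prop :=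
  IsClosed M ∧ M.Nonempty ∧ (∀ d : D, ∀ x ∈ M, d • x ∈ M) ∧
    ∀ N ⊆ M, IsClosed N → N.Nonempty → (∀ d : D, ∀ x ∈ N, d • x ∈ N) → N = M

section sel

variable {D X : Type} [Group D] [MulAction D X] [TopologicalSpace X] [ContinuousConstSMul D X]
  [T2Space X] [CompactSpace X] [TotallyDisconnectedSpace X]

/-- elements of the full group are given by locally constant functions -/
theorem exists_cocycle {g : Equiv.Perm X} (hg : g ∈ full D X) {L : Set X} (hL : IsClosed L)
    (h1 : ∀ y ∈ L, ∀ᶠ z in 𝓝 y, g z = z) : ∃ c : X → D, IsLocallyConstant c ∧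
      (∀ x, g x = c x • x) ∧ ∀ x ∈ L, c x = 1 := by
  classical
  have hx : ∀ x : X, ∃ (W : Set X) (d : D), IsClopen W ∧ x ∈ W ∧ (∀ z ∈ W, g z = d • z) ∧
      ((x ∈ L ∧ d = 1) ∨ ∀ z ∈ W, z ∉ L) := by
    intro x
    by_cases hxL : x ∈ L
    · obtain ⟨O, hO, hO1, hO2⟩ := mem_nhds_iff.1 (h1 x hxL)
      obtain ⟨W, hW, hxW, hWO⟩ := compact_exists_isClopen_in_isOpen hO1 hO2
      refine ⟨W, 1, hW, hxW, fun z hz => ?_, Or.inl ⟨hxL, rfl⟩⟩
      rw [one_smul]
      exact hO (hWO hz)
    · obtain ⟨d, hd⟩ := hg x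
      have h2 : ∀ᶠ z in 𝓝 x, g z = d • z ∧ z ∉ L := hd.and (hL.isOpen_compl.mem_nhds hxL)
      obtain ⟨O, hO, hO1, hO2⟩ := mem_nhds_iff.1 h2
      obtain ⟨W, hW, hxW, hWO⟩ := compact_exists_isClopen_in_isOpen hO1 hO2
      exact ⟨W, d, hW, hxW, fun z hz => (hO (hWO hz)).1, Or.inr fun z hz => (hO (hWO hz)).2⟩
  choose W d hW hxW hgW hdW using hx
  obtain ⟨s, hs⟩ := isCompact_univ.elim_finite_subcover W (fun x => (hW x).isOpen)
    (fun x _ => Set.mem_iUnion.2 ⟨x, hxW x⟩)
  have hs' : ∀ x : X, ∃ i : s, x ∈ W i := by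
    intro x
    obtain ⟨i, hi⟩ := Set.mem_iUnion.1 (hs (Set.mem_univ x))
    obtain ⟨hi1, hi2⟩ := Set.mem_iUnion.1 hi
    exact ⟨⟨i, hi1⟩, hi2⟩
  -- the pattern of the sets which contain a point
  let pat : X → (s → Prop) := fun x i => x ∈ W i
  have hpat : IsLocallyConstant pat := by
    rw [IsLocallyConstant.iff_eventually_eq]
    intro x
    have h2 : ∀ i : s, ∀ᶠ z in 𝓝 x, (z ∈ W i ↔ x ∈ W i) := by
      intro i
      by_cases hi : x ∈ W i
      · filter_upwards [(hW i).isOpen.mem_nhds hi] with z hz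
        exact ⟨fun _ => hi, fun _ => hz⟩
      · filter_upwards [(hW i).isClosed.isOpen_compl.mem_nhds hi] with z hz
        exact ⟨fun h => absurd h hz, fun h => absurd h hi⟩
    filter_upwards [eventually_all.2 h2] with z hz
    funext i
    exact propext (hz i)
  let F : (s → Prop) → D := fun p => if hp : ∃ i : s, p i then d hp.choose else 1
  have hF : ∀ x, ∃ i : s, x ∈ W i ∧ F (pat x) = d i := by
    intro x
    have hp : ∃ i : s, pat x i := hs' x
    refine ⟨hp.choose, hp.choose_spec, ?_⟩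
    show (if hp : ∃ i : s, pat x i then d hp.choose else 1) = _
    rw [dif_pos hp]
  refine ⟨fun x => F (pat x), hpat.comp F, fun x => ?_, fun x hxL => ?_⟩
  · obtain ⟨i, hi, hFi⟩ := hF x
    show g x = F (pat x) • x
    rw [hFi]
    exact hgW i x hi
  · obtain ⟨i, hi, hFi⟩ := hF x
    show F (pat x) = 1
    rw [hFi]
    rcases hdW i with h3 | h3
    · exact h3.2
    · exact absurd hxL (h3 x hi)

/-- every nonempty closed invariant set contains a minimal one -/
theorem exists_minSet {K : Set X} (hK : IsClosed K) (hne : K.Nonempty)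
    (hinv : ∀ d : D, ∀ x ∈ K, d • x ∈ K) : ∃ M ⊆ K, MinSet D M := by
  obtain ⟨M, hMK, hM⟩ := zorn_superset_nonempty
    {N : Set X | IsClosed N ∧ N.Nonempty ∧ ∀ d : D, ∀ x ∈ N, d • x ∈ N} (by
      intro c hc hchain hcne
      have hne' : (⋂₀ c).Nonempty := by
        have : Nonempty c := hcne.to_subtype
        rw [Set.sInter_eq_iInter]
        refine IsCompact.nonempty_iInter_of_directed_nonempty_isCompact_isClosed _ ?_ ?_ ?_ ?_
        · intro a b
          rcases hchain.total a.2 b.2 with h | h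
          · exact ⟨a, subset_rfl, h⟩
          · exact ⟨b, h, subset_rfl⟩
        · intro a
          exact (hc a.2).2.1
        · intro a
          exact (hc a.2).1.isCompact
        · intro a
          exact (hc a.2).1
      refine ⟨⋂₀ c, ⟨isClosed_sInter fun a ha => (hc ha).1, hne', ?_⟩, fun s hs =>
        Set.sInter_subset_of_mem hs⟩
      intro d x hx a ha
      exact (hc ha).2.2 d x (hx a ha)) K ⟨hK, hne, hinv⟩
  obtain ⟨hM1, hM2⟩ := hM
  refine ⟨M, hMK, hM1.1, hM1.2.1, hM1.2.2, fun N hN hN1 hN2 hN3 => ?_⟩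
  exact Set.Subset.antisymm hN (hM2 ⟨hN1, hN2, hN3⟩ hN)

theorem MinSet.eq {M N : Set X} (hM : MinSet D M) (hN : MinSet D N) (h : (M ∩ N).Nonempty) :
    M = N := by
  have h1 : M ∩ N = M := hM.2.2.2 _ Set.inter_subset_left (hM.1.inter hN.1) h
    (fun d x hx => ⟨hM.2.2.1 d x hx.1, hN.2.2.1 d x hx.2⟩)
  have h2 : M ∩ N = N := hN.2.2.2 _ Set.inter_subset_right (hM.1.inter hN.1) h
    (fun d x hx => ⟨hM.2.2.1 d x hx.1, hN.2.2.1 d x hx.2⟩)
  rw [← h1, h2]

/-- an open set which meets a minimal set is visited by the orbits of all its points -/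
theorem MinSet.visit {M : Set X} (hM : MinSet D M) {U : Set X} (hU : IsOpen U)
    (hne : (M ∩ U).Nonempty) {x : X} (hx : x ∈ M) : ∃ d : D, d • x ∈ U := by
  by_contra hc
  have hc' : ∀ d : D, d • x ∉ U := fun d hd => hc ⟨d, hd⟩
  let N : Set X := {y | y ∈ M ∧ ∀ d : D, d • y ∉ U}
  have hN1 : IsClosed N := by
    have : N = M ∩ ⋂ d : D, (fun y : X => d • y) ⁻¹' Uᶜ := by
      ext y
      simp [N]
    rw [this]
    exact hM.1.inter (isClosed_iInter fun d =>
      hU.isClosed_compl.preimage (continuous_const_smul d))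
  have hN : N = M := hM.2.2.2 N (fun y hy => hy.1) hN1 ⟨x, hx, hc'⟩ (by
    rintro d y ⟨hy, hy'⟩
    refine ⟨hM.2.2.1 d y hy, fun e => ?_⟩
    rw [← mul_smul]
    exact hy' _)
  obtain ⟨y, hy, hyU⟩ := hne
  rw [← hN] at hy
  have := hy.2 1
  rw [one_smul] at this
  exact this hyU

end sel

end Run7.h909.TF
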